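import Pool.Agent.AVH.Yc

/-! Sums over pairs and triples (MP_73ccd0_lc, average version).

Notation in the proofs: `ρ_b = ∑ d, X b d ≤ 1`; for a pair `(b, c)` and `d ∉ {b, c}` write
`p = X b d`, `q = X c d`. Basic fact (F): for a nonnegative `h : V → V → ℝ` with `h b b = 0`,
`∑_b ∑_c X b c ∑_{d ∉ {b, c}} h b d = ∑_b ∑_d h b d (ρ_b - X b d)` and, by symmetry, the same for
`h c d` instead of `h b d`. -/

namespace Pool.Agent.AVH

open MeasureTheory Finset

section M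

variable {V : Type} [Fintype V] [DecidableEq V] {X : V → V → ℝ}

private theorem AlA_compl (h : V → V → ℝ) (h0 : ∀ b, h b b = 0) (b c : V) :
    ∑ d ∈ ({b, c} : Finset V)ᶜ, h b d = ∑ d, h b d - h b c := by
  have h1 := Finset.sum_add_sum_compl ({b, c} : Finset V) (fun d => h b d)
  have h2 : ∑ d ∈ ({b, c} : Finset V), h b d = h b c := by
    by_cases hbc : b = c
    · subst hbc
      simp
    · rw [Finset.sum_pair hbc, h0 b, zero_add]
  rw [h2] at h1
  linarith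

/-- fact (F) -/
theorem sum_F (hX : Wm X) (h : V → V → ℝ) (h0 : ∀ b, h b b = 0) :
    ∑ b, ∑ c, X b c * ∑ d ∈ ({b, c} : Finset V)ᶜ, h b d
      = ∑ b, ∑ d, h b d * (∑ c, X b c - X b d) := by
  have _ := hX
  apply Finset.sum_congr rfl
  intro b _
  have h1 : ∀ c, X b c * ∑ d ∈ ({b, c} : Finset V)ᶜ, h b d
      = X b c * (∑ d, h b d) - h b c * X b c := by
    intro c
    rw [AlA_compl h h0]
    ring
  simp only [h1]
  rw [Finset.sum_sub_distrib, ← Finset.sum_mul, mul_comm, Finset.sum_mul,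
    ← Finset.sum_sub_distrib]
  apply Finset.sum_congr rfl
  intro d _
  ring

/-- fact (F), second form (exchange `b` and `c`) -/
theorem sum_F' (hX : Wm X) (h : V → V → ℝ) (h0 : ∀ b, h b b = 0) :
    ∑ b, ∑ c, X b c * ∑ d ∈ ({b, c} : Finset V)ᶜ, h c d
      = ∑ b, ∑ d, h b d * (∑ c, X b c - X b d) := by
  rw [← sum_F hX h h0, Finset.sum_comm]
  apply Finset.sum_congr rfl
  intro b _
  apply Finset.sum_congr rfl
  intro c _
  rw [hX.symm c b, Finset.pair_comm c b]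

/-- both, with `ρ ≤ 1` -/
theorem sum_F2 (hX : Wm X) (h : V → V → ℝ) (h0 : ∀ b, h b b = 0) (hn : ∀ b d, 0 ≤ h b d) :
    ∑ b, ∑ c, X b c * ∑ d ∈ ({b, c} : Finset V)ᶜ, (h b d + h c d)
      ≤ 2 * ∑ b, ∑ d, h b d * (1 - X b d) := by
  have h1 : ∑ b, ∑ c, X b c * ∑ d ∈ ({b, c} : Finset V)ᶜ, (h b d + h c d)
      = ∑ b, ∑ c, X b c * ∑ d ∈ ({b, c} : Finset V)ᶜ, h b d
        + ∑ b, ∑ c, X b c * ∑ d ∈ ({b, c} : Finset V)ᶜ, h c d := by
    rw [← Finset.sum_add_distrib]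
    apply Finset.sum_congr rfl
    intro b _
    rw [← Finset.sum_add_distrib]
    apply Finset.sum_congr rfl
    intro c _
    rw [Finset.sum_add_distrib, mul_add]
  rw [h1, sum_F hX h h0, sum_F' hX h h0, two_mul]
  have h2 : ∑ b, ∑ d, h b d * (∑ c, X b c - X b d) ≤ ∑ b, ∑ d, h b d * (1 - X b d) := by
    apply Finset.sum_le_sum
    intro b _
    apply Finset.sum_le_sum
    intro d _
    apply mul_le_mul_of_nonneg_left _ (hn b d)
    linarith [hX.row b]
  linarith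

theorem Nk_nonneg (hX : Wm X) (k : ℕ) : 0 ≤ Nk X k := by
  unfold Nk
  exact Finset.sum_nonneg fun u _ => Finset.sum_nonneg fun d _ => pow_nonneg (hX.nn u d) k

/-- `X ≤ 1` -/
theorem Nk_anti (hX : Wm X) (k : ℕ) : Nk X (k + 1) ≤ Nk X k := by
  unfold Nk
  apply Finset.sum_le_sum
  intro u _
  apply Finset.sum_le_sum
  intro d _
  exact pow_le_pow_of_le_one (hX.nn u d) (le_one hX u d) (Nat.le_succ k)

/-- `X^(k+1) (1 - X) ≤ X^k (1 - X)` -/
theorem Nk_diff (hX : Wm X) (k : ℕ) : Nk X (k + 1) - Nk X (k + 2) ≤ Nk X k - Nk X (k + 1) := by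
  unfold Nk
  simp only [← Finset.sum_sub_distrib]
  apply Finset.sum_le_sum
  intro u _
  apply Finset.sum_le_sum
  intro d _
  have h1 := hX.nn u d
  have h2 := le_one hX u d
  have h3 : 0 ≤ X u d ^ k * (1 - X u d) ^ 2 := mul_nonneg (pow_nonneg h1 k) (sq_nonneg _)
  have h4 : X u d ^ k - X u d ^ (k + 1) - (X u d ^ (k + 1) - X u d ^ (k + 2))
      = X u d ^ k * (1 - X u d) ^ 2 := by ring
  linarith

/-- `sum_F2` for `h b d = X b d ^ k` -/
theorem sum_pk (hX : Wm X) {k : ℕ} (hk : 1 ≤ k) :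
    ∑ b, ∑ c, X b c * ∑ d ∈ ({b, c} : Finset V)ᶜ, (X b d ^ k + X c d ^ k)
      ≤ 2 * (Nk X k - Nk X (k + 1)) := by
  have h1 := sum_F2 hX (fun b d => X b d ^ k) (fun b => by
    simp only [hX.diag b]
    exact zero_pow (by omega)) (fun b d => pow_nonneg (hX.nn b d) k)
  refine h1.trans (le_of_eq ?_)
  unfold Nk
  rw [← Finset.sum_sub_distrib]
  congr 1
  apply Finset.sum_congr rfl
  intro b _
  rw [← Finset.sum_sub_distrib]
  apply Finset.sum_congr rfl
  intro d _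
  ring

end M

end Pool.Agent.AVH
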