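import Pool.Agent.AVH.AlA

/-! Sums over pairs and triples (MP_73ccd0_lc, average version).

Notation in the proofs: `ρ_b = ∑ d, X b d ≤ 1`; for a pair `(b, c)` and `d ∉ {b, c}` write
`p = X b d`, `q = X c d`. Basic fact (F): `sum_F`, `sum_F'`. -/

namespace Pool.Agent.AVH

open MeasureTheory Finset

section M

variable {V : Type} [Fintype V] [DecidableEq V] {X : V → V → ℝ}

/-- `∑ qq = ∑_b (1 - ρ_b) ∑_d X^2 + ∑_b ∑_d 2 X^2 (ρ_b - X) ≤ 2 N2`: for each pair the factor of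
`X b d ^ 2` is `(1 - ρ) + 2 (ρ - X) ≤ 2` -/
theorem qq_sum (hX : Wm X) : ∑ b, qq X b ≤ 2 * Nk X 2 := by
  have h0 : ∀ b, (fun b d => X b d ^ 2 : V → V → ℝ) b b = 0 := by
    intro b
    show X b b ^ 2 = 0
    rw [hX.diag]
    norm_num
  have h1 := sum_F hX (fun b d => X b d ^ 2) h0
  have h2 := sum_F' hX (fun b d => X b d ^ 2) h0
  have h3 : ∑ b, qq X b = ∑ b, (1 - ∑ d, X b d) * ∑ d, X b d ^ 2
      + (∑ b, ∑ c, X b c * ∑ d ∈ ({b, c} : Finset V)ᶜ, X b d ^ 2
        + ∑ b, ∑ c, X b c * ∑ d ∈ ({b, c} : Finset V)ᶜ, X c d ^ 2) := by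
    rw [← Finset.sum_add_distrib, ← Finset.sum_add_distrib]
    refine Finset.sum_congr rfl fun b _ => ?_
    unfold qq
    congr 1
    rw [← Finset.sum_add_distrib]
    refine Finset.sum_congr rfl fun c _ => ?_
    rw [Finset.sum_add_distrib, mul_add]
  rw [h3, h1, h2]
  unfold Nk
  rw [Finset.mul_sum, ← Finset.sum_add_distrib, ← Finset.sum_add_distrib]
  refine Finset.sum_le_sum fun b _ => ?_
  rw [Finset.mul_sum, Finset.mul_sum, ← Finset.sum_add_distrib, ← Finset.sum_add_distrib]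
  refine Finset.sum_le_sum fun d _ => ?_
  have h4 := hX.nn b d
  have h5 := hX.row b
  have h6 : X b d ^ 2 * (1 + ∑ c, X b c - 2 * X b d) ≤ X b d ^ 2 * 2 :=
    mul_le_mul_of_nonneg_left (by linarith) (sq_nonneg _)
  nlinarith [h6]

/-- first level: `M d v = m X d v` with `0 ≤ m`. With `p, q` as above the summand of the second part
of `Tt` is at most `m (p + q + (p^2 + q^2) u) (p + q) ≤ m (2 (p^2 + q^2) + 2 (p^3 + q^3))`, the sum
over all pairs is (F) at most `4 m ∑_b ∑_d (p^2 + p^3) (ρ_b - p)`, the first part is at most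
`m ∑_b (1 - ρ_b) ∑_d (p^2 + p^3)`; and `(p^2 + p^3) ((1 - ρ) + 4 (ρ - p)) ≤ 4 (p^2 + p^3) (1 - p)
≤ 4 p^2` -/
theorem Tt_sum1 (hX : Wm X) {m : ℝ} (hm : 0 ≤ m) {u : ℝ} (hu : u ∈ Set.Icc (0 : ℝ) 1) :
    ∑ b, Tt X (fun d v => m * X d v) b u ≤ 4 * m * Nk X 2 := by
  obtain ⟨hu0, hu1⟩ := hu
  have h0 : ∀ b, (fun b d => X b d ^ 2 + X b d ^ 3 : V → V → ℝ) b b = 0 := by
    intro b
    show X b b ^ 2 + X b b ^ 3 = 0
    rw [hX.diag]
    norm_num
  have h1 := sum_F hX (fun b d => X b d ^ 2 + X b d ^ 3) h0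
  have h2 := sum_F' hX (fun b d => X b d ^ 2 + X b d ^ 3) h0
  have hle : ∀ b d, X b d ≤ 1 := fun b d =>
    (Finset.single_le_sum (f := fun d => X b d) (fun i _ => hX.nn b i) (Finset.mem_univ d)).trans
      (hX.row b)
  have h3 : ∀ b, Tt X (fun d v => m * X d v) b u
      ≤ (1 - ∑ d, X b d) * (m * ∑ d, (X b d ^ 2 + X b d ^ 3))
        + (2 * m * (∑ c, X b c * ∑ d ∈ ({b, c} : Finset V)ᶜ, (X b d ^ 2 + X b d ^ 3))
          + 2 * m * (∑ c, X b c * ∑ d ∈ ({b, c} : Finset V)ᶜ, (X c d ^ 2 + X c d ^ 3))) := by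
    intro b
    unfold Tt
    refine add_le_add (mul_le_mul_of_nonneg_left ?_ (by linarith [hX.row b])) ?_
    · rw [Finset.mul_sum]
      refine (Finset.sum_le_sum fun d _ => ?_).trans
        (Finset.sum_le_univ_sum_of_nonneg fun d => ?_)
      · show hz (X b d) u * (m * X d b) ≤ _
        rw [hX.symm d b]
        unfold hz
        have e1 := hX.nn b d
        have e2 : 0 ≤ m * X b d ^ 3 * (1 - u) :=
          mul_nonneg (mul_nonneg hm (pow_nonneg e1 3)) (by linarith)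
        nlinarith [e2]
      · have e1 := hX.nn b d
        positivity
    · rw [← mul_add, ← Finset.sum_add_distrib, Finset.mul_sum]
      refine Finset.sum_le_sum fun c _ => ?_
      rw [← mul_add, ← Finset.sum_add_distrib]
      have e0 : X b c * (2 * m * ∑ d ∈ ({b, c} : Finset V)ᶜ,
          (X b d ^ 2 + X b d ^ 3 + (X c d ^ 2 + X c d ^ 3)))
          = 2 * m * (X b c * ∑ d ∈ ({b, c} : Finset V)ᶜ,
          (X b d ^ 2 + X b d ^ 3 + (X c d ^ 2 + X c d ^ 3))) := by ring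
      rw [← e0]
      refine mul_le_mul_of_nonneg_left ?_ (hX.nn b c)
      rw [Finset.mul_sum]
      refine Finset.sum_le_sum fun d _ => ?_
      show (hz (X b d) u + hz (X c d) u) * (m * X d b + m * X d c) ≤ _
      rw [hX.symm d b, hX.symm d c]
      unfold hz
      have p0 := hX.nn b d
      have q0 := hX.nn c d
      set p := X b d
      set q := X c d
      have e1 : 0 ≤ (p - q) ^ 2 := sq_nonneg _
      have e2 : 0 ≤ (p - q) ^ 2 * (p + q) := mul_nonneg e1 (by linarith)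
      have e3 : 0 ≤ (p ^ 2 + q ^ 2) * (p + q) * (1 - u) :=
        mul_nonneg (mul_nonneg (by positivity) (by linarith)) (by linarith)
      have e4 : (p * (1 + p * u) + q * (1 + q * u)) * (p + q)
          ≤ 2 * (p ^ 2 + p ^ 3 + (q ^ 2 + q ^ 3)) := by nlinarith
      have e5 := mul_le_mul_of_nonneg_left e4 hm
      nlinarith [e5]
  refine (Finset.sum_le_sum fun b _ => h3 b).trans ?_
  rw [Finset.sum_add_distrib, Finset.sum_add_distrib, ← Finset.mul_sum, ← Finset.mul_sum, h1, h2]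
  unfold Nk
  have h4 : ∑ b, (1 - ∑ d, X b d) * (m * ∑ d, (X b d ^ 2 + X b d ^ 3))
      + (2 * m * ∑ b, ∑ d, (X b d ^ 2 + X b d ^ 3) * (∑ c, X b c - X b d)
        + 2 * m * ∑ b, ∑ d, (X b d ^ 2 + X b d ^ 3) * (∑ c, X b c - X b d))
      = m * ∑ b, ∑ d, (X b d ^ 2 + X b d ^ 3)
          * ((1 - ∑ c, X b c) + 4 * (∑ c, X b c - X b d)) := by
    have e1 : ∑ b, (1 - ∑ d, X b d) * (m * ∑ d, (X b d ^ 2 + X b d ^ 3))
        = m * ∑ b, ∑ d, (X b d ^ 2 + X b d ^ 3) * (1 - ∑ c, X b c) := by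
      rw [Finset.mul_sum]
      refine Finset.sum_congr rfl fun b _ => ?_
      rw [← Finset.sum_mul]
      ring
    have e2 : ∑ b, ∑ d, (X b d ^ 2 + X b d ^ 3)
          * ((1 - ∑ c, X b c) + 4 * (∑ c, X b c - X b d))
        = ∑ b, ∑ d, (X b d ^ 2 + X b d ^ 3) * (1 - ∑ c, X b c)
          + 4 * ∑ b, ∑ d, (X b d ^ 2 + X b d ^ 3) * (∑ c, X b c - X b d) := by
      rw [Finset.mul_sum, ← Finset.sum_add_distrib]
      refine Finset.sum_congr rfl fun b _ => ?_
      rw [Finset.mul_sum, ← Finset.sum_add_distrib]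
      refine Finset.sum_congr rfl fun d _ => ?_
      ring
    rw [e1, e2]
    ring
  rw [h4]
  have h5 : ∑ b, ∑ d, (X b d ^ 2 + X b d ^ 3)
          * ((1 - ∑ c, X b c) + 4 * (∑ c, X b c - X b d))
      ≤ 4 * ∑ b, ∑ d, X b d ^ 2 := by
    rw [Finset.mul_sum]
    refine Finset.sum_le_sum fun b _ => ?_
    rw [Finset.mul_sum]
    refine Finset.sum_le_sum fun d _ => ?_
    have p0 := hX.nn b d
    have p1 := hle b d
    have r1 := hX.row b
    have e1 : (X b d ^ 2 + X b d ^ 3) * ((1 - ∑ c, X b c) + 4 * (∑ c, X b c - X b d))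
        ≤ (X b d ^ 2 + X b d ^ 3) * (4 * (1 - X b d)) :=
      mul_le_mul_of_nonneg_left (by linarith) (by positivity)
    have e2 : 0 ≤ X b d ^ 4 := by positivity
    nlinarith [e1, e2]
  have h6 := mul_le_mul_of_nonneg_left h5 hm
  linarith

end M

end Pool.Agent.AVH
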