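import Pool.Agent.AVH.AlA

/-! Sums over pairs and triples (MP_73ccd0_lc, average version).

Notation in the proofs: `ρ_b = ∑ d, X b d ≤ 1`; for a pair `(b, c)` and `d ∉ {b, c}` write
`p = X b d`, `q = X c d`. Basic fact (F): `sum_F`, `sum_F'`. -/

namespace Pool.Agent.AVH

open MeasureTheory Finset

section M

variable {V : Type} [Fintype V] [DecidableEq V] {X : V → V → ℝ}

/-- the matrix which bounds the coefficients below -/
def Lk (X : V → V → ℝ) (b d : V) : ℝ := 2 * X b d + 4 * ∑ c, X b c * X c d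

private theorem AlC_compl (b c : V) :
    ({b, c} : Finset V)ᶜ = univ.filter (fun d => d ≠ b ∧ d ≠ c) := by
  ext d
  simp

/-- exchange of `b` and `c` in the triple sum -/
private theorem AlC_core (hX : Wm X) (h : V → V → ℝ) (M : V → V → ℝ) :
    ∑ b, ∑ c, X b c * ∑ d ∈ ({b, c} : Finset V)ᶜ, (h b d + h c d) * (M d b + M d c)
      = ∑ b, ∑ d, (if d = b then 0 else 2 * ∑ c, (if c = d then 0 else X b c * (h b d + h c d))) *
        M d b := by
  have e1 : ∀ b c, X b c * ∑ d ∈ ({b, c} : Finset V)ᶜ, (h b d + h c d) * (M d b + M d c) =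
      ∑ d, (if d ≠ b ∧ d ≠ c then X b c * (h b d + h c d) * M d b else 0) +
      ∑ d, (if d ≠ b ∧ d ≠ c then X b c * (h b d + h c d) * M d c else 0) := by
    intro b c
    rw [AlC_compl, Finset.sum_filter, Finset.mul_sum, ← Finset.sum_add_distrib]
    refine Finset.sum_congr rfl fun d _ => ?_
    split_ifs <;> ring
  have e2 : ∑ b, ∑ c, ∑ d, (if d ≠ b ∧ d ≠ c then X b c * (h b d + h c d) * M d c else 0) =
      ∑ b, ∑ c, ∑ d, (if d ≠ b ∧ d ≠ c then X b c * (h b d + h c d) * M d b else 0) := by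
    rw [Finset.sum_comm]
    refine Finset.sum_congr rfl fun b _ => Finset.sum_congr rfl fun c _ =>
      Finset.sum_congr rfl fun d _ => ?_
    by_cases h1 : d ≠ b ∧ d ≠ c
    · rw [if_pos h1, if_pos ⟨h1.2, h1.1⟩, hX.symm c b]; ring
    · rw [if_neg h1, if_neg (fun h2 => h1 ⟨h2.2, h2.1⟩)]
  simp only [e1, Finset.sum_add_distrib]
  rw [e2, ← two_mul, Finset.mul_sum]
  refine Finset.sum_congr rfl fun b _ => ?_
  rw [Finset.sum_comm, Finset.mul_sum]
  refine Finset.sum_congr rfl fun d _ => ?_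
  by_cases hdb : d = b
  · rw [if_pos hdb, zero_mul]
    have : ∑ c, (if d ≠ b ∧ d ≠ c then X b c * (h b d + h c d) * M d b else 0) = 0 :=
      Finset.sum_eq_zero fun c _ => if_neg (fun h2 => h2.1 hdb)
    rw [this, mul_zero]
  · rw [if_neg hdb, mul_assoc, Finset.sum_mul]
    congr 1
    refine Finset.sum_congr rfl fun c _ => ?_
    by_cases hcd : c = d
    · rw [if_pos hcd, if_neg (fun h2 => h2.2 hcd.symm), zero_mul]
    · rw [if_neg hcd, if_pos ⟨hdb, fun h2 => hcd h2.symm⟩]

private theorem AlC_le_one (hX : Wm X) (u v : V) : X u v ≤ 1 :=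
  (Finset.single_le_sum (fun i _ => hX.nn u i) (Finset.mem_univ v)).trans (hX.row u)

private theorem AlC_Lk_nonneg (hX : Wm X) (b d : V) : 0 ≤ Lk X b d := by
  unfold Lk
  have h1 := hX.nn b d
  have h2 : 0 ≤ ∑ c, X b c * X c d := Finset.sum_nonneg fun c _ => mul_nonneg (hX.nn b c) (hX.nn c d)
  linarith

/-- the coefficient of `M d b` -/
private theorem AlC_coef (hX : Wm X) {u : ℝ} (hu : u ∈ Set.Icc (0 : ℝ) 1) (b d : V) :
    (1 - ∑ c, X b c) * hz (X b d) u +
      2 * ∑ c, (if c = d then 0 else X b c * (hz (X b d) u + hz (X c d) u)) ≤ Lk X b d := by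
  obtain ⟨hu0, hu1⟩ := hu
  have hz2 : ∀ c, hz (X c d) u ≤ 2 * X c d := by
    intro c
    unfold hz
    have h1 := hX.nn c d
    have h2 := AlC_le_one hX c d
    have h3 : X c d * u ≤ 1 := by nlinarith
    nlinarith
  have hzn : 0 ≤ hz (X b d) u := by
    unfold hz
    have h1 := hX.nn b d
    positivity
  have e1 : ∑ c, (if c = d then 0 else X b c * (hz (X b d) u + hz (X c d) u)) =
      (∑ c, X b c - X b d) * hz (X b d) u + ∑ c, (if c = d then 0 else X b c * hz (X c d) u) := by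
    have e2 : ∀ c, (if c = d then 0 else X b c * (hz (X b d) u + hz (X c d) u)) =
        (if c = d then 0 else X b c * hz (X b d) u) + (if c = d then 0 else X b c * hz (X c d) u) := by
      intro c
      split_ifs <;> ring
    rw [Finset.sum_congr rfl fun c _ => e2 c, Finset.sum_add_distrib]
    congr 1
    have e3 : ∀ c, (if c = d then 0 else X b c * hz (X b d) u) =
        X b c * hz (X b d) u - (if c = d then X b c * hz (X b d) u else 0) := by
      intro c
      split_ifs <;> ring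
    rw [Finset.sum_congr rfl fun c _ => e3 c, Finset.sum_sub_distrib, Finset.sum_ite_eq',
      if_pos (Finset.mem_univ d), ← Finset.sum_mul]
    ring
  have e4 : ∑ c, (if c = d then 0 else X b c * hz (X c d) u) ≤ 2 * ∑ c, X b c * X c d := by
    rw [Finset.mul_sum]
    refine Finset.sum_le_sum fun c _ => ?_
    have h1 := hX.nn b c
    have h2 := hX.nn c d
    split_ifs
    · positivity
    · have := mul_le_mul_of_nonneg_left (hz2 c) h1
      linarith
  rw [e1]
  unfold Lk
  have hρ := hX.row b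
  have hb1 := AlC_le_one hX b d
  have hb0 := hX.nn b d
  have h5 : (1 - ∑ c, X b c) * hz (X b d) u + 2 * ((∑ c, X b c - X b d) * hz (X b d) u) ≤
      2 * ((1 - X b d) * hz (X b d) u) := by
    nlinarith
  have h6 : (1 - X b d) * hz (X b d) u ≤ X b d := by
    unfold hz
    have h7 : (1 - X b d) * (1 + X b d * u) ≤ 1 := by
      have : X b d * u ≤ X b d := by nlinarith
      nlinarith
    calc (1 - X b d) * (X b d * (1 + X b d * u)) = X b d * ((1 - X b d) * (1 + X b d * u)) := by ring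
      _ ≤ X b d * 1 := mul_le_mul_of_nonneg_left h7 hb0
      _ = X b d := mul_one _
  linarith

/-- second level: the coefficient of `M d b` (`d ≠ b`) in `∑_b Tt X M b u` is
`(1 - ρ_b) hz (X b d) + 2 ∑_{c ≠ d} X b c (hz (X b d) + hz (X c d))
≤ 2 (1 - X b d) hz (X b d) + 2 ∑_c X b c hz (X c d) ≤ 2 X b d + 4 ∑_c X b c X c d`
(`(1 - ρ) + 2 (ρ - X) ≤ 2 (1 - X)`, `(1 - y) hz y u ≤ y`, `hz y u ≤ 2 y`) -/
theorem Tt_sum2 (hX : Wm X) {M : V → V → ℝ} (hM : ∀ d v, 0 ≤ M d v) {u : ℝ}
    (hu : u ∈ Set.Icc (0 : ℝ) 1) :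
    ∑ b, Tt X M b u ≤ ∑ b, ∑ d, Lk X b d * M d b := by
  unfold Tt
  rw [Finset.sum_add_distrib, AlC_core hX (fun b d => hz (X b d) u) M, ← Finset.sum_add_distrib]
  refine Finset.sum_le_sum fun b _ => ?_
  have e1 : (1 - ∑ d, X b d) * ∑ d ∈ ({b} : Finset V)ᶜ, hz (X b d) u * M d b =
      ∑ d, (if d = b then 0 else (1 - ∑ c, X b c) * hz (X b d) u) * M d b := by
    have e2 : ({b} : Finset V)ᶜ = univ.filter (fun d => d ≠ b) := by
      ext d
      simp
    rw [e2, Finset.sum_filter, Finset.mul_sum]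
    refine Finset.sum_congr rfl fun d _ => ?_
    by_cases hdb : d = b
    · rw [if_pos hdb, if_neg (fun h => h hdb)]; ring
    · rw [if_neg hdb, if_pos hdb]; ring
  rw [e1, ← Finset.sum_add_distrib]
  refine Finset.sum_le_sum fun d _ => ?_
  rw [← add_mul]
  refine mul_le_mul_of_nonneg_right ?_ (hM d b)
  by_cases hdb : d = b
  · rw [if_pos hdb, if_pos hdb, add_zero]
    exact AlC_Lk_nonneg hX b d
  · rw [if_neg hdb, if_neg hdb]
    exact AlC_coef hX hu b d

/-- final sum, second level: the coefficient of `M d b` is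
`2 ∑_{c ≠ d} X b c (hz (X b d) + hz (X c d)) ≤ 2 hz (X b d) (1 - X b d) + 2 ∑_c X b c hz (X c d)` -/
theorem fin_sum2 (hX : Wm X) {M : V → V → ℝ} (hM : ∀ d v, 0 ≤ M d v) {u : ℝ}
    (hu : u ∈ Set.Icc (0 : ℝ) 1) :
    ∑ b, ∑ c, X b c * ∑ d ∈ ({b, c} : Finset V)ᶜ, (hz (X b d) u + hz (X c d) u) * (M d b + M d c)
      ≤ ∑ b, ∑ d, Lk X b d * M d b := by
  rw [AlC_core hX (fun b d => hz (X b d) u) M]
  refine Finset.sum_le_sum fun b _ => Finset.sum_le_sum fun d _ => ?_
  refine mul_le_mul_of_nonneg_right ?_ (hM d b)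
  by_cases hdb : d = b
  · rw [if_pos hdb]
    exact AlC_Lk_nonneg hX b d
  · rw [if_neg hdb]
    refine le_trans ?_ (AlC_coef hX hu b d)
    have h1 := hX.row b
    have h2 : 0 ≤ hz (X b d) u := by
      unfold hz
      have h1 := hX.nn b d
      have h3 := hu.1
      positivity
    have h3 : 0 ≤ (1 - ∑ c, X b c) * hz (X b d) u := mul_nonneg (by linarith) h2
    linarith

end M

end Pool.Agent.AVH
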