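import Pool.Agent.AVH.AlA

/-! Sums over pairs and triples (MP_73ccd0_lc, average version).

Notation in the proofs: `ρ_b = ∑ d, X b d ≤ 1`; for a pair `(b, c)` and `d ∉ {b, c}` write
`p = X b d`, `q = X c d`. Basic fact (F): `sum_F`, `sum_F'`. -/

namespace Pool.Agent.AVH

open MeasureTheory Finset

section M

variable {V : Type} [Fintype V] [DecidableEq V] {X : V → V → ℝ}

/-- final sum, excess: (F) with `h b d = hz (X b d) u * z d`; `hz y u (1 - y) ≤ y`, and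
`∑_b X b d ≤ 1` -/
theorem fin_sum3 (hX : Wm X) {z : V → ℝ} (hz0 : ∀ d, 0 ≤ z d) {u : ℝ}
    (hu : u ∈ Set.Icc (0 : ℝ) 1) :
    ∑ b, ∑ c, X b c * ∑ d ∈ ({b, c} : Finset V)ᶜ, (hz (X b d) u + hz (X c d) u) * z d
      ≤ 2 * ∑ d, z d := by
  have hz' : ∀ b d, 0 ≤ hz (X b d) u * z d := by
    intro b d
    have h1 := hX.nn b d
    have h2 := hu.1
    have h3 := hz0 d
    unfold hz
    positivity
  have h1 := sum_F2 hX (fun b d => hz (X b d) u * z d)
    (fun b => by simp only [hz, hX.diag b, zero_mul]) hz'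
  have h2 : ∑ b, ∑ c, X b c * ∑ d ∈ ({b, c} : Finset V)ᶜ, (hz (X b d) u + hz (X c d) u) * z d
      = ∑ b, ∑ c, X b c * ∑ d ∈ ({b, c} : Finset V)ᶜ,
        ((fun b d => hz (X b d) u * z d) b d + (fun b d => hz (X b d) u * z d) c d) := by
    refine sum_congr rfl fun b _ => sum_congr rfl fun c _ => ?_
    congr 1
    refine sum_congr rfl fun d _ => ?_
    ring
  rw [h2]
  refine h1.trans ?_
  apply mul_le_mul_of_nonneg_left _ (by norm_num : (0 : ℝ) ≤ 2)
  have h3 : ∀ b d, hz (X b d) u * z d * (1 - X b d) ≤ X d b * z d := by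
    intro b d
    have ha := hX.nn b d
    have hb : X b d * u ≤ X b d := by nlinarith [hu.2]
    have hc : 0 ≤ X b d * u := mul_nonneg ha hu.1
    have he : hz (X b d) u * (1 - X b d) ≤ X b d := by
      have hf : (1 + X b d * u) * (1 - X b d) ≤ 1 := by nlinarith
      unfold hz
      calc X b d * (1 + X b d * u) * (1 - X b d) = X b d * ((1 + X b d * u) * (1 - X b d)) := by ring
        _ ≤ X b d * 1 := mul_le_mul_of_nonneg_left hf ha
        _ = X b d := mul_one _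
    calc hz (X b d) u * z d * (1 - X b d) = (hz (X b d) u * (1 - X b d)) * z d := by ring
      _ ≤ X b d * z d := mul_le_mul_of_nonneg_right he (hz0 d)
      _ = X d b * z d := by rw [hX.symm b d]
  calc ∑ b, ∑ d, hz (X b d) u * z d * (1 - X b d)
      ≤ ∑ b, ∑ d, X d b * z d := sum_le_sum fun b _ => sum_le_sum fun d _ => h3 b d
    _ = ∑ d, (∑ b, X d b) * z d := by
        rw [sum_comm]
        exact sum_congr rfl fun d _ => (sum_mul _ _ _).symm
    _ ≤ ∑ d, 1 * z d := sum_le_sum fun d _ => mul_le_mul_of_nonneg_right (hX.row d) (hz0 d)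
    _ = ∑ d, z d := sum_congr rfl fun d _ => one_mul _

/-- final sum, first level, with `psi u a = α a + β a^2` (`α, β ≥ 0`):
`(p + q + (p^2 + q^2) u) (α (p + q) + β (p + q)^2)`
`≤ 2 α (p^2 + q^2) + (4 β + 2 u α) (p^3 + q^3) + 4 u β (p^4 + q^4)`, and `sum_pk`, `Nk_diff` -/
theorem fin_sum1 (hX : Wm X) {α β : ℝ} (hα : 0 ≤ α) (hβ : 0 ≤ β) {u : ℝ}
    (hu : u ∈ Set.Icc (0 : ℝ) 1) :
    ∑ b, ∑ c, X b c * ∑ d ∈ ({b, c} : Finset V)ᶜ, (hz (X b d) u + hz (X c d) u) *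
        (α * (X d b + X d c) + β * (X d b + X d c) ^ 2)
      ≤ 4 * α * (Nk X 2 - Nk X 3) + (8 * β + 4 * u * α + 8 * u * β) * (Nk X 3 - Nk X 4) := by
  have hu0 := hu.1
  have hterm : ∀ b c d, (hz (X b d) u + hz (X c d) u) *
        (α * (X d b + X d c) + β * (X d b + X d c) ^ 2)
      ≤ 2 * α * (X b d ^ 2 + X c d ^ 2) + (4 * β + 2 * u * α) * (X b d ^ 3 + X c d ^ 3)
        + 4 * u * β * (X b d ^ 4 + X c d ^ 4) := by
    intro b c d
    rw [hX.symm d b, hX.symm d c]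
    have hp := hX.nn b d
    have hq := hX.nn c d
    set p := X b d with hpdef
    set q := X c d with hqdef
    have e1 : (p + q) ^ 2 ≤ 2 * (p ^ 2 + q ^ 2) := by nlinarith [sq_nonneg (p - q)]
    have e0 : 0 ≤ (p + q) * (p - q) ^ 2 := mul_nonneg (add_nonneg hp hq) (sq_nonneg _)
    have e2 : (p + q) ^ 3 ≤ 4 * (p ^ 3 + q ^ 3) := by nlinarith [e0]
    have e3 : (p ^ 2 + q ^ 2) * (p + q) ≤ 2 * (p ^ 3 + q ^ 3) := by nlinarith [e0]
    have e4 : (p ^ 2 + q ^ 2) * (p + q) ^ 2 ≤ 4 * (p ^ 4 + q ^ 4) := by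
      have h5 : (p ^ 2 + q ^ 2) * (p + q) ^ 2 ≤ (p ^ 2 + q ^ 2) * (2 * (p ^ 2 + q ^ 2)) :=
        mul_le_mul_of_nonneg_left e1 (by positivity)
      nlinarith [sq_nonneg (p ^ 2 - q ^ 2)]
    have huα : 0 ≤ u * α := mul_nonneg hu0 hα
    have huβ : 0 ≤ u * β := mul_nonneg hu0 hβ
    have f1 := mul_le_mul_of_nonneg_left e1 hα
    have f2 := mul_le_mul_of_nonneg_left e2 hβ
    have f3 := mul_le_mul_of_nonneg_left e3 huα
    have f4 := mul_le_mul_of_nonneg_left e4 huβ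
    unfold hz
    calc (p * (1 + p * u) + q * (1 + q * u)) * (α * (p + q) + β * (p + q) ^ 2)
        = α * (p + q) ^ 2 + β * (p + q) ^ 3 + u * α * ((p ^ 2 + q ^ 2) * (p + q))
          + u * β * ((p ^ 2 + q ^ 2) * (p + q) ^ 2) := by ring
      _ ≤ α * (2 * (p ^ 2 + q ^ 2)) + β * (4 * (p ^ 3 + q ^ 3)) + u * α * (2 * (p ^ 3 + q ^ 3))
          + u * β * (4 * (p ^ 4 + q ^ 4)) := by linarith
      _ = _ := by ring
  have h2 := sum_pk hX (k := 2) (by norm_num)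
  have h3 := sum_pk hX (k := 3) (by norm_num)
  have h4 := sum_pk hX (k := 4) (by norm_num)
  have h5 := Nk_diff hX 3
  have huα : 0 ≤ u * α := mul_nonneg hu0 hα
  have huβ : 0 ≤ u * β := mul_nonneg hu0 hβ
  calc ∑ b, ∑ c, X b c * ∑ d ∈ ({b, c} : Finset V)ᶜ, (hz (X b d) u + hz (X c d) u) *
        (α * (X d b + X d c) + β * (X d b + X d c) ^ 2)
      ≤ ∑ b, ∑ c, X b c * ∑ d ∈ ({b, c} : Finset V)ᶜ,
        (2 * α * (X b d ^ 2 + X c d ^ 2) + (4 * β + 2 * u * α) * (X b d ^ 3 + X c d ^ 3)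
        + 4 * u * β * (X b d ^ 4 + X c d ^ 4)) :=
        sum_le_sum fun b _ => sum_le_sum fun c _ => mul_le_mul_of_nonneg_left
          (sum_le_sum fun d _ => hterm b c d) (hX.nn b c)
    _ = 2 * α * (∑ b, ∑ c, X b c * ∑ d ∈ ({b, c} : Finset V)ᶜ, (X b d ^ 2 + X c d ^ 2))
        + (4 * β + 2 * u * α) *
          (∑ b, ∑ c, X b c * ∑ d ∈ ({b, c} : Finset V)ᶜ, (X b d ^ 3 + X c d ^ 3))
        + 4 * u * β * (∑ b, ∑ c, X b c * ∑ d ∈ ({b, c} : Finset V)ᶜ, (X b d ^ 4 + X c d ^ 4)) := by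
        rw [mul_sum, mul_sum, mul_sum, ← sum_add_distrib, ← sum_add_distrib]
        refine sum_congr rfl fun b _ => ?_
        rw [mul_sum, mul_sum, mul_sum, ← sum_add_distrib, ← sum_add_distrib]
        refine sum_congr rfl fun c _ => ?_
        rw [sum_add_distrib, sum_add_distrib, ← mul_sum, ← mul_sum, ← mul_sum]
        ring
    _ ≤ 2 * α * (2 * (Nk X 2 - Nk X 3)) + (4 * β + 2 * u * α) * (2 * (Nk X 3 - Nk X 4))
        + 4 * u * β * (2 * (Nk X 3 - Nk X 4)) := by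
        have g2 := mul_le_mul_of_nonneg_left h2 (by positivity : (0 : ℝ) ≤ 2 * α)
        have g3 := mul_le_mul_of_nonneg_left h3 (by nlinarith : (0 : ℝ) ≤ 4 * β + 2 * u * α)
        have h6 : ∑ b, ∑ c, X b c * ∑ d ∈ ({b, c} : Finset V)ᶜ, (X b d ^ 4 + X c d ^ 4)
            ≤ 2 * (Nk X 3 - Nk X 4) := by
          refine h4.trans ?_
          have h5' : Nk X 4 - Nk X 5 ≤ Nk X 3 - Nk X 4 := h5
          have e5 : Nk X (4 + 1) = Nk X 5 := rfl
          rw [e5]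
          linarith
        have g4 := mul_le_mul_of_nonneg_left h6 (by nlinarith : (0 : ℝ) ≤ 4 * u * β)
        have e3 : Nk X (2 + 1) = Nk X 3 := rfl
        have e4 : Nk X (3 + 1) = Nk X 4 := rfl
        rw [e3] at g2
        rw [e4] at g3
        linarith
    _ = 4 * α * (Nk X 2 - Nk X 3) + (8 * β + 4 * u * α + 8 * u * β) * (Nk X 3 - Nk X 4) := by ring

end M

end Pool.Agent.AVH
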