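import Pool.Agent.AVH.AlB
import Pool.Agent.AVH.AlC
import Pool.Agent.AVH.AlD

/-! Sums over pairs and triples (MP_73ccd0_lc, average version). -/
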