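import Pool.Agent.AVH.Mst

/-! The closure of the recursion (MP_73ccd0_lc, average version). -/

namespace Pool.Agent.AVH

open MeasureTheory Finset intervalIntegral

section M

variable {V : Type} [Fintype V] [DecidableEq V] {X : V → V → ℝ} {f : Finset V → V → ℝ → ℝ}

/-- induction on `n`; for `n = 0` there is no `b ∉ A`. Step: `Rec` with `BS = BB X n`
(`A ⊂ A'` gives `A'ᶜ.card ≤ n`), `main_step`, and
`psi t (∑ v ∈ A, X b v) ≤ (1 - r t) ∑ v ∈ A, X b v` (`psi_le`) -/
theorem bound (hX : Wm X) (hf : Rec X f) : ∀ (n : ℕ) (A : Finset V), Aᶜ.card ≤ n →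
    ∀ b, b ∉ A → ∀ t ∈ Set.Icc (0 : ℝ) 1, f A b t ≤ r t + BB X n A b t := by
  intro n
  induction n with
  | zero =>
    intro A hA b hb
    exfalso
    have h0 : Aᶜ = ∅ := Finset.card_eq_zero.mp (Nat.le_zero.mp hA)
    have h1 : b ∈ Aᶜ := Finset.mem_compl.mpr hb
    rw [h0] at h1
    simp at h1
  | succ n ih =>
    intro A hA b hb t ht
    have h1 := hf A b hb (BB X n) (fun A' d => BB_cont n A' d)
      (fun A' d u hu => BB_nonneg hX n A' d hu)
      (fun A' hAA' d hd u hu => ih A' (by
        have hlt := Finset.card_lt_card (Finset.compl_ssubset_compl.mpr hAA')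
        omega) d hd u hu) t ht
    have h2 := main_step hX n A b ht
    have h3 := psi_le (t := t) (a := ∑ v ∈ A, X b v) ht.1
      (Finset.sum_nonneg fun v _ => hX.nn b v)
      (le_trans (Finset.sum_le_univ_sum_of_nonneg fun v => hX.nn b v) (hX.row b))
    have h4 : BB X (n + 1) A b t =
        (1 - r t) * ∑ v ∈ A, X b v + (∑ v ∈ A, R2 X (n + 1) b v t + Z X (n + 1) b t) := by
      simp only [BB, Mm]
      rw [Finset.sum_add_distrib, Finset.mul_sum]
      ring
    rw [h4]
    linarith

/-- `Rec` with `BS = BB X n`, `n = Fintype.card V`, for `A = {b, c}`, and `main_step` -/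
theorem bound2 (hX : Wm X) (hf : Rec X f) {b c : V} (hbc : b ≠ c) {d : V}
    (hd : d ∉ ({b, c} : Finset V)) {t : ℝ} (ht : t ∈ Set.Icc (0 : ℝ) 1) :
    f {b, c} d t ≤ r t + BF X (Fintype.card V + 1) b c d t := by
  have h1 := hf {b, c} d hd (BB X (Fintype.card V)) (fun A' e => BB_cont _ A' e)
    (fun A' e u hu => BB_nonneg hX _ A' e hu)
    (fun A' _ e he u hu => bound hX hf (Fintype.card V) A' (Finset.card_le_univ _) e he u hu) t ht
  have h2 := main_step hX (Fintype.card V) {b, c} d ht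
  rw [Finset.sum_pair hbc] at h1 h2
  unfold BF
  linarith

end M

end Pool.Agent.AVH
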