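import Pool.Agent.RCRS.Setup

/-! The average version of the selectability of random order contention resolution for matchings
(MP_73ccd0_lc): definitions.

The process: every edge `e` of weight `x` is accepted at time `t` with probability
`(1 + x t) exp (-(x t + x^2 t^2 / 2))`, i.e. its ring time has hazard `x (1 + x t)`; every vertex
`v` of defect `δ` is killed with hazard `δ / (1 + t)`. -/

namespace Pool.Agent.AVH

open MeasureTheory Finset

/-- the density of the free vertices -/
noncomputable def r (t : ℝ) : ℝ := 1 / (1 + t)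

noncomputable def th (t : ℝ) : ℝ := Real.log (1 + t)

/-- the hazard of an edge of weight `x` at time `s` -/
def hz (x s : ℝ) : ℝ := x * (1 + x * s)

noncomputable def lam (y : ℝ) : ℝ := y + y ^ 2 / 2 - Real.log (1 + y)

/-- the gain of an edge of weight `x` at time `s` -/
noncomputable def gn (x s : ℝ) : ℝ := 2 * x * th s - lam (x * s)

/-- the first order response to the deletion of neighbours of total weight `a` -/
noncomputable def psi (t a : ℝ) : ℝ := r t * th t * a + (1 - r t - r t * th t) * a ^ 2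

section M

variable {V : Type} [Fintype V] [DecidableEq V]

/-- symmetric nonnegative matrix with zero diagonal and row sums at most one -/
structure Wm (X : V → V → ℝ) : Prop where
  symm : ∀ u v, X u v = X v u
  diag : ∀ v, X v v = 0
  nn : ∀ u v, 0 ≤ X u v
  row : ∀ v, ∑ u, X v u ≤ 1

variable (X : V → V → ℝ)

/-- the loss of a single vertex; `B d u` bounds the excess of the density of `d` -/
noncomputable def y1 (B : V → ℝ → ℝ) (b : V) (s : ℝ) : ℝ :=
  (s - th s) * ∑ d, X b d ^ 2
    + ∑ d ∈ ({b} : Finset V)ᶜ, ∫ u in (0 : ℝ)..s, hz (X b d) u * B d u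

/-- the loss of a pair -/
noncomputable def y2 (B : V → ℝ → ℝ) (b c : V) (s : ℝ) : ℝ :=
  (s - th s) * ∑ d ∈ ({b, c} : Finset V)ᶜ, (X b d ^ 2 + X c d ^ 2)
    + ∑ d ∈ ({b, c} : Finset V)ᶜ, ∫ u in (0 : ℝ)..s, (hz (X b d) u + hz (X c d) u) * B d u

/-- the kernel of the recursion -/
def Kk (b d : V) : ℝ := X b d + 2 * ∑ c, X b c * X c d

/-- the second order response of `b` to the deletion of `v`, after `n` steps -/
noncomputable def R2 : ℕ → V → V → ℝ → ℝ
  | 0, _, _, _ => 0
  | n + 1, b, v, t => ∫ s in (0 : ℝ)..t, r s ^ 2 *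
      ∫ u in (0 : ℝ)..s, ∑ d, Kk X b d * ((1 - r u) * X d v + R2 n d v u)

/-- the response of `b` to the deletion of `v`, after `n` steps -/
noncomputable def Mm (n : ℕ) (b v : V) (t : ℝ) : ℝ := (1 - r t) * X b v + R2 X n b v t

/-- the source of the excess, first part -/
noncomputable def qq (b : V) : ℝ :=
  (1 - ∑ d, X b d) * ∑ d, X b d ^ 2
    + ∑ c, X b c * ∑ d ∈ ({b, c} : Finset V)ᶜ, (X b d ^ 2 + X c d ^ 2)

/-- the source of the excess, second part -/
noncomputable def Tt (M : V → V → ℝ) (b : V) (u : ℝ) : ℝ :=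
  (1 - ∑ d, X b d) * ∑ d ∈ ({b} : Finset V)ᶜ, hz (X b d) u * M d b
    + ∑ c, X b c * ∑ d ∈ ({b, c} : Finset V)ᶜ, (hz (X b d) u + hz (X c d) u) * (M d b + M d c)

/-- the excess of the density of `b` without deletions, after `n` steps -/
noncomputable def Z : ℕ → V → ℝ → ℝ
  | 0, _, _ => 0
  | n + 1, b, t => ∫ s in (0 : ℝ)..t, r s ^ 2 * ((s - th s) * qq X b
      + ∫ u in (0 : ℝ)..s, (Tt X (fun d v => Mm X n d v u) b u + ∑ d, Kk X b d * Z n d u))

/-- the bound of the excess of the density of `d` after the deletion of `A` -/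
noncomputable def BB (n : ℕ) (A : Finset V) (d : V) (u : ℝ) : ℝ :=
  ∑ v ∈ A, Mm X n d v u + Z X n d u

/-- the refined bound of the excess of the density of `d` after the deletion of `{b, c}` -/
noncomputable def BF (n : ℕ) (b c d : V) (u : ℝ) : ℝ :=
  psi u (X d b + X d c) + (R2 X n d b u + R2 X n d c u) + Z X n d u

/-- sum of the `k`-th powers -/
def Nk (k : ℕ) : ℝ := ∑ u, ∑ d, X u d ^ k

/-- the recursion satisfied by the densities `f A b t` -/
def Rec (f : Finset V → V → ℝ → ℝ) : Prop :=
  ∀ (A : Finset V) (b : V), b ∉ A → ∀ BS : Finset V → V → ℝ → ℝ,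
    (∀ A' d, ContinuousOn (BS A' d) (Set.Icc 0 1)) →
    (∀ A' d, ∀ u ∈ Set.Icc (0 : ℝ) 1, 0 ≤ BS A' d u) →
    (∀ A' : Finset V, A ⊂ A' → ∀ d, d ∉ A' → ∀ u ∈ Set.Icc (0 : ℝ) 1,
      f A' d u ≤ r u + BS A' d u) →
    ∀ t ∈ Set.Icc (0 : ℝ) 1, f A b t ≤ r t + psi t (∑ v ∈ A, X b v)
      + ∫ s in (0 : ℝ)..t, r s ^ 2 * ((1 - ∑ d, X b d) * y1 X (BS (insert b A)) b s
        + ∑ c, X b c * y2 X (BS (insert b (insert c A))) b c s)

/-- the lower bound of the selection probability of a pair, with the bound `B` of the excess of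
the densities after its deletion -/
noncomputable def lowb (B : V → ℝ → ℝ) (b c : V) : ℝ :=
  X b c * (1 / 2 + ∫ s in (0 : ℝ)..1, r s ^ 2 * (gn (X b c) s - y2 X B b c s))

end M

section G

open Pool.Agent.RCRS

variable {V : Type} [Fintype V] [DecidableEq V] {G : SimpleGraph V} [Fintype G.edgeSet]
  [DecidableEq G.edgeSet] [DecidableRel G.Adj] (x : G.edgeSet → ℝ)

omit [Fintype V] [DecidableEq V] [Fintype G.edgeSet] [DecidableEq G.edgeSet]
  [DecidableRel G.Adj] in
/-- the edge between two adjacent vertices -/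
def ed {u v : V} (h : G.Adj u v) : G.edgeSet := ⟨s(u, v), (SimpleGraph.mem_edgeSet G).2 h⟩

/-- the weights as a matrix -/
noncomputable def xm (u v : V) : ℝ := if h : G.Adj u v then x (ed h) else 0

/-- acceptance probabilities of the edges -/
noncomputable def acc (e : G.edgeSet) : ℝ → ℝ :=
  cut fun t => (1 + x e * t) * Real.exp (-(x e * t + x e ^ 2 * t ^ 2 / 2))

/-- laws of all items -/
noncomputable def lawA : G.edgeSet ⊕ V → Measure ℝ := laws (acc x) x (lawV x r th)

/-- densities -/
noncomputable def denA : G.edgeSet ⊕ V → ℝ → ℝ :=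
  Sum.elim (fun e t => x e * acc x e t)
    (fun v t => 1 * cut (fun t => defect x v * (r t * Real.exp (-(defect x v * th t)))) t)

/-- hazards -/
noncomputable def hazA : G.edgeSet ⊕ V → ℝ → ℝ :=
  Sum.elim (fun e => cut fun t => hz (x e) t) (fun v => cut fun t => defect x v * r t)

variable (G) in
/-- the items that avoid `A` -/
def av (A : Finset V) : Finset (G.edgeSet ⊕ V) :=
  Finset.univ.filter fun g => Disjoint (ends G g) A

/-- the weight of the vertices of `A` seen from `b` -/
noncomputable def wA (A : Finset V) (b : V) : ℝ := ∑ v ∈ A, xm x b v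

/-- the probability that `b` is free at time `t` after the deletion of `A` -/
noncomputable def fr (A : Finset V) (b : V) (t : ℝ) : ℝ :=
  pf (ends G) (lawA x) (av G A) {b} t

end G

end Pool.Agent.AVH
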