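import Pool.Agent.AVH.Ti

/-! Continuity and signs of `y1`, `y2` (MP_73ccd0_lc, average version). -/

namespace Pool.Agent.AVH

open MeasureTheory Finset intervalIntegral

section M

variable {V : Type} [Fintype V] [DecidableEq V] {X : V → V → ℝ}

theorem le_one (hX : Wm X) (u v : V) : X u v ≤ 1 :=
  (Finset.single_le_sum (f := fun w => X u w) (fun w _ => hX.nn u w) (Finset.mem_univ v)).trans
    (hX.row u)

/-- `prim_cont`, `th_cont`, `hz_cont` -/
theorem y1_cont (hX : Wm X) {B : V → ℝ → ℝ} (hB : ∀ d, ContinuousOn (B d) (Set.Icc 0 1)) (b : V) :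
    ContinuousOn (y1 X B b) (Set.Icc 0 1) := by
  unfold y1
  refine ((continuousOn_id.sub th_cont).mul continuousOn_const).add ?_
  exact continuousOn_finsetSum _ fun d _ => prim_cont ((hz_cont _).continuousOn.mul (hB d))

theorem y2_cont (hX : Wm X) {B : V → ℝ → ℝ} (hB : ∀ d, ContinuousOn (B d) (Set.Icc 0 1))
    (b c : V) : ContinuousOn (y2 X B b c) (Set.Icc 0 1) := by
  unfold y2
  refine ((continuousOn_id.sub th_cont).mul continuousOn_const).add ?_
  exact continuousOn_finsetSum _ fun d _ =>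
    prim_cont (((hz_cont _).continuousOn.add (hz_cont _).continuousOn).mul (hB d))

theorem y1_nonneg (hX : Wm X) {B : V → ℝ → ℝ} (hB : ∀ d, ∀ u ∈ Set.Icc (0 : ℝ) 1, 0 ≤ B d u)
    (b : V) {s : ℝ} (hs : s ∈ Set.Icc (0 : ℝ) 1) : 0 ≤ y1 X B b s := by
  unfold y1
  refine add_nonneg (mul_nonneg (sth_nonneg hs.1) (Finset.sum_nonneg fun d _ => sq_nonneg _)) ?_
  refine Finset.sum_nonneg fun d _ => int_nonneg hs fun u hu => ?_
  exact mul_nonneg (hz_nonneg (hX.nn _ _) hu.1) (hB d u ⟨hu.1, hu.2.trans hs.2⟩)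

theorem y2_nonneg (hX : Wm X) {B : V → ℝ → ℝ} (hB : ∀ d, ∀ u ∈ Set.Icc (0 : ℝ) 1, 0 ≤ B d u)
    (b c : V) {s : ℝ} (hs : s ∈ Set.Icc (0 : ℝ) 1) : 0 ≤ y2 X B b c s := by
  unfold y2
  refine add_nonneg (mul_nonneg (sth_nonneg hs.1)
    (Finset.sum_nonneg fun d _ => add_nonneg (sq_nonneg _) (sq_nonneg _))) ?_
  refine Finset.sum_nonneg fun d _ => int_nonneg hs fun u hu => ?_
  exact mul_nonneg (add_nonneg (hz_nonneg (hX.nn _ _) hu.1) (hz_nonneg (hX.nn _ _) hu.1))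
    (hB d u ⟨hu.1, hu.2.trans hs.2⟩)

end M

end Pool.Agent.AVH
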