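import Pool.Agent.AVH.Fb
import Pool.Agent.AVH.Yc

/-! The selection probabilities (MP_73ccd0_lc, average version). -/

namespace Pool.Agent.AVH

open MeasureTheory Finset Pool.Agent.RCRS

section G

variable {V : Type} [Fintype V] [DecidableEq V] {G : SimpleGraph V} [Fintype G.edgeSet]
  [DecidableEq G.edgeSet] [DecidableRel G.Adj] {x : G.edgeSet → ℝ}

/-- **the selection probabilities**: `pair_ge` for `A = ∅` (`av_empty`, `wA = 0`), and
`∫ r^2 = 1/2` -/
theorem sel_ge (hx : IsFractionalMatching G x) {b c : V} (h : G.Adj b c) (B : V → ℝ → ℝ)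
    (hBc : ∀ d, ContinuousOn (B d) (Set.Icc 0 1))
    (hBn : ∀ d, ∀ u ∈ Set.Icc (0 : ℝ) 1, 0 ≤ B d u)
    (hB : ∀ d, d ∉ ({b, c} : Finset V) → ∀ u ∈ Set.Icc (0 : ℝ) 1,
      fr x {b, c} d u ≤ r u + B d u) :
    lowb (xm x) B b c ≤ ∫ t in Set.Ico (0 : ℝ) 1,
      denA x (Sum.inl (ed h)) t * pf (ends G) (lawA x) (Finset.univ.erase (Sum.inl (ed h)))
        (ends G (Sum.inl (ed h))) t := by
  classical
  have hX := wm hx
  have h01 : (1 : ℝ) ∈ Set.Icc (0 : ℝ) 1 := ⟨zero_le_one, le_rfl⟩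
  have hw : ∀ v : V, wA x (∅ : Finset V) v = 0 := fun v => by unfold wA; exact Finset.sum_empty
  have hset : insert b (insert c (∅ : Finset V)) = {b, c} := rfl
  have key : ∀ s ∈ Set.Ico (0 : ℝ) 1,
      xm x b c * (r s ^ 2 * (1 + gn (xm x b c) s - y2 (xm x) B b c s))
      ≤ denA x (Sum.inl (ed h)) s * pf (ends G) (lawA x) (Finset.univ.erase (Sum.inl (ed h)))
        (ends G (Sum.inl (ed h))) s := by
    intro s hs
    have h1 := pair_ge hx (A := ∅) (Finset.notMem_empty b) (Finset.notMem_empty c) h B hBc hBn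
      (by rw [hset]; exact hB) hs
    rw [hw, hw, av_empty] at h1
    rw [ends_ed h]
    have e : xm x b c * (r s ^ 2 * (1 + gn (xm x b c) s + th s * (0 + 0) - y2 (xm x) B b c s))
        = xm x b c * (r s ^ 2 * (1 + gn (xm x b c) s - y2 (xm x) B b c s)) := by ring
    rw [e] at h1
    exact h1
  have hx0 : 0 ≤ xm x b c := hX.nn b c
  have c1 : ContinuousOn (fun s => r s ^ 2) (Set.Icc 0 1) := r_cont.pow 2
  have c2 : ContinuousOn (fun s => r s ^ 2 * (gn (xm x b c) s - y2 (xm x) B b c s))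
      (Set.Icc 0 1) := c1.mul ((gn_cont _ hx0).sub (y2_cont hX hBc b c))
  have hlow : lowb (xm x) B b c = ∫ s in (0 : ℝ)..1,
      xm x b c * (r s ^ 2 * (1 + gn (xm x b c) s - y2 (xm x) B b c s)) := by
    unfold lowb
    rw [intervalIntegral.integral_const_mul]
    congr 1
    have h2 : (∫ s in (0 : ℝ)..1, r s ^ 2) = 1 / 2 := by
      rw [int_r2 zero_le_one]
      unfold r
      norm_num
    rw [← h2, ← intervalIntegral.integral_add (ii c1 h01) (ii c2 h01)]
    refine intervalIntegral.integral_congr fun s _ => ?_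
    show r s ^ 2 + r s ^ 2 * (gn (xm x b c) s - y2 (xm x) B b c s)
      = r s ^ 2 * (1 + gn (xm x b c) s - y2 (xm x) B b c s)
    ring
  rw [hlow, intervalIntegral.integral_of_le zero_le_one,
    MeasureTheory.integral_Ioc_eq_integral_Ioo, ← MeasureTheory.integral_Ico_eq_integral_Ioo]
  have c3 : ContinuousOn (fun s => xm x b c * (r s ^ 2 * (1 + gn (xm x b c) s
      - y2 (xm x) B b c s))) (Set.Icc 0 1) :=
    continuousOn_const.mul (c1.mul ((continuousOn_const.add (gn_cont _ hx0)).sub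
      (y2_cont hX hBc b c)))
  refine MeasureTheory.setIntegral_mono_on (c3.integrableOn_Icc.mono_set Set.Ico_subset_Icc_self)
    ?_ measurableSet_Ico key
  haveI : ∀ i, IsProbabilityMeasure (lawA x i) := fun i => law_prob hx i
  exact integrableOn_mul_pf (ends G) (lawA x) (den_int hx _) _ _

end G

end Pool.Agent.AVH
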