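import Pool.Agent.AVH.Clo
import Pool.Agent.AVH.Fc

/-! The lower bound of all selection probabilities (MP_73ccd0_lc, average version). -/

namespace Pool.Agent.AVH

open MeasureTheory Finset Pool.Agent.RCRS

section G

variable {V : Type} [Fintype V] [DecidableEq V] {G : SimpleGraph V} [Fintype G.edgeSet]
  [DecidableEq G.edgeSet] [DecidableRel G.Adj] {x : G.edgeSet → ℝ}

/-- the lower bound of all selection probabilities: `exists_scheme`, `sel_ge` with
`B = BF (xm x) n b c`, `bound2 (wm hx) (rec_fr hx)` -/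
theorem exists_lowb (hx : IsFractionalMatching G x) :
    ∃ S : Scheme G, ∀ {b c : V} (h : G.Adj b c),
      lowb (xm x) (BF (xm x) (Fintype.card V + 1) b c) b c ≤ S.selProb x (ed h) := by
  obtain ⟨S, hS⟩ := Pool.Agent.AVH.exists_scheme hx
  refine ⟨S, fun {b c} h => ?_⟩
  rw [hS]
  exact sel_ge hx h _ (fun d => BF_cont _ b c d) (fun d u hu => BF_nonneg (wm hx) _ b c d hu)
    (fun d hd u hu => bound2 (wm hx) (rec_fr hx) h.ne hd hu)

end G

end Pool.Agent.AVH
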