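import Pool.Agent.AVH.ItA

/-! Sums over the edges (MP_73ccd0_lc, average version). -/

namespace Pool.Agent.AVH

open MeasureTheory Finset Pool.Agent.RCRS

section G

variable {V : Type} [Fintype V] [DecidableEq V] {G : SimpleGraph V} [Fintype G.edgeSet]
  [DecidableEq G.edgeSet] [DecidableRel G.Adj] {x : G.edgeSet → ℝ}

/-- the edges at `v` correspond to the neighbours of `v` -/
theorem sum_edges_at (v : V) (F : G.edgeSet → ℝ) :
    (∑ e : G.edgeSet, if v ∈ (e : Sym2 V) then F e else 0)
      = ∑ u, if h : G.Adj v u then F (ed h) else 0 := by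
  have key : ∀ e : G.edgeSet, (if v ∈ (e : Sym2 V) then F e else 0)
      = ∑ u, if h : G.Adj v u then (if e = ed h then F e else 0) else 0 := by
    intro e
    by_cases hv : v ∈ (e : Sym2 V)
    · obtain ⟨w, hw⟩ := hv
      have hadj : G.Adj v w := by
        rw [← SimpleGraph.mem_edgeSet, ← hw]
        exact e.2
      have he : e = ed hadj := Subtype.ext hw
      have hv : v ∈ (e : Sym2 V) := ⟨w, hw⟩
      rw [if_pos hv, Finset.sum_eq_single w]
      · rw [dif_pos hadj, if_pos he]
      · intro u _ hu
        by_cases h : G.Adj v u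
        · rw [dif_pos h, if_neg]
          intro h1
          have h2 : (e : Sym2 V) = s(v, u) := congrArg Subtype.val h1
          rw [hw, Sym2.congr_right] at h2
          exact hu h2.symm
        · rw [dif_neg h]
      · intro h
        exact absurd (Finset.mem_univ _) h
    · rw [if_neg hv, Finset.sum_eq_zero]
      intro u _
      by_cases h : G.Adj v u
      · rw [dif_pos h, if_neg]
        intro h1
        apply hv
        rw [h1]
        exact Sym2.mem_mk_left v u
      · rw [dif_neg h]
  rw [Finset.sum_congr rfl fun e _ => key e, Finset.sum_comm]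
  refine Finset.sum_congr rfl fun u _ => ?_
  by_cases h : G.Adj v u
  · simp only [dif_pos h]
    rw [Finset.sum_ite_eq' Finset.univ (ed h) F, if_pos (Finset.mem_univ _)]
  · simp only [dif_neg h, Finset.sum_const_zero]

/-- `xm x` is symmetric, nonnegative, zero on the diagonal, with row sums at most one -/
theorem wm (hx : IsFractionalMatching G x) : Wm (xm x) := by
  refine ⟨fun u v => ?_, fun v => ?_, fun u v => ?_, fun v => ?_⟩
  · by_cases h : G.Adj u v
    · rw [xm_of h, xm_of h.symm, ed_symm]
    · have h' : ¬ G.Adj v u := fun h1 => h h1.symm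
      unfold xm
      rw [dif_neg h, dif_neg h']
  · unfold xm
    rw [dif_neg (G.loopless.irrefl v)]
  · unfold xm
    split_ifs with h
    · exact (hx.1 _).1
    · exact le_rfl
  · have h1 := hx.2 v
    rw [sum_edges_at v x] at h1
    exact h1

theorem defect_eq (v : V) : defect x v = 1 - ∑ u, xm x v u := by
  unfold defect
  rw [sum_edges_at v x]
  rfl

/-- sums over the edges as sums over the ordered pairs -/
theorem sum_edges (F : G.edgeSet → ℝ) :
    2 * ∑ e, F e = ∑ u, ∑ v, if h : G.Adj u v then F (ed h) else 0 := by
  rw [Finset.sum_congr rfl fun u _ => (sum_edges_at u F).symm, Finset.sum_comm, Finset.mul_sum]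
  refine Finset.sum_congr rfl fun e _ => ?_
  rw [← Finset.sum_filter, Finset.sum_const]
  have h1 : (Finset.univ.filter fun u => u ∈ (e : Sym2 V)) = ends G (Sum.inl e) := by
    ext u
    rw [ends_inl]
    simp
  rw [h1, ends_card_inl, nsmul_eq_mul]
  norm_num

end G

end Pool.Agent.AVH
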