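import Pool.Agent.AVH.Wtd
import Pool.Agent.AVH.ItB

/-! The average version on the edges (MP_73ccd0_lc, average version). -/

namespace Pool.Agent.AVH

open MeasureTheory Finset Pool.Agent.RCRS

section G

variable {V : Type} [Fintype V] [DecidableEq V] {G : SimpleGraph V} [Fintype G.edgeSet]
  [DecidableEq G.edgeSet] [DecidableRel G.Adj] {x : G.edgeSet → ℝ}

omit [Fintype V] [DecidableEq V] [Fintype G.edgeSet] [DecidableEq G.edgeSet] in
private theorem EdB_sum1 (W : V → V → ℝ) (w : G.edgeSet → ℝ) (x : G.edgeSet → ℝ)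
    (hW : ∀ {b c : V} (h : G.Adj b c), W b c = w (ed h)) (b c : V) :
    W b c * (xm x b c / 2) = if h : G.Adj b c then w (ed h) * (x (ed h) / 2) else 0 := by
  by_cases h : G.Adj b c
  · rw [dif_pos h, hW h]
    unfold xm
    rw [dif_pos h]
  · rw [dif_neg h]
    unfold xm
    rw [dif_neg h]
    ring

omit [Fintype V] [DecidableEq V] [Fintype G.edgeSet] [DecidableEq G.edgeSet] in
private theorem EdB_sum2 (x : G.edgeSet → ℝ) (b c : V) :
    xm x b c ^ 2 = if h : G.Adj b c then x (ed h) ^ 2 else 0 := by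
  unfold xm
  by_cases h : G.Adj b c
  · rw [dif_pos h, dif_pos h]
  · rw [dif_neg h, dif_neg h]
    norm_num

/-- **the average version**: `sum_edges`, `weighted` with `W b c = w (ed h)` on adjacent pairs and
`W b c = 1` on the other pairs (where `xm = 0`, `lowb = 0`) -/
theorem avg (hx : IsFractionalMatching G x) {n : ℕ} {p : G.edgeSet → ℝ}
    (hp : ∀ {b c : V} (h : G.Adj b c), lowb (xm x) (BF (xm x) n b c) b c ≤ p (ed h))
    {κ : ℝ} (h1 : 1 ≤ κ) (h2 : κ ≤ 5 / 4) (w : G.edgeSet → ℝ) (hw : ∀ e, 1 ≤ w e ∧ w e ≤ κ) :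
    1 / 2 * ∑ e, w e * x e + 4 / 17 * (5 / 4 - κ) * ∑ e, x e ^ 2 ≤ ∑ e, w e * p e := by
  classical
  set W : V → V → ℝ := fun b c => if h : G.Adj b c then w (ed h) else 1 with hWdef
  have hWof : ∀ {b c : V} (h : G.Adj b c), W b c = w (ed h) := by
    intro b c h
    rw [hWdef]
    exact dif_pos h
  have hW : ∀ b c, 1 ≤ W b c ∧ W b c ≤ κ := by
    intro b c
    by_cases h : G.Adj b c
    · rw [hWof h]
      exact hw _
    · rw [hWdef]
      have h3 : (if h : G.Adj b c then w (ed h) else 1) = 1 := dif_neg h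
      simp only [h3]
      exact ⟨le_rfl, h1⟩
  have h3 := weighted (wm hx) n h1 h2 W hW
  have e1 : ∑ b, ∑ c, W b c * (xm x b c / 2) = ∑ e, w e * x e := by
    have e2 : ∑ b, ∑ c, W b c * (xm x b c / 2)
        = ∑ b, ∑ c, if h : G.Adj b c then (fun e => w e * (x e / 2)) (ed h) else 0 :=
      Finset.sum_congr rfl fun b _ => Finset.sum_congr rfl fun c _ => EdB_sum1 W w x hWof b c
    rw [e2, ← sum_edges (fun e => w e * (x e / 2)), Finset.mul_sum]
    exact Finset.sum_congr rfl fun e _ => by ring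
  have e3 : Nk (xm x) 2 = 2 * ∑ e, x e ^ 2 := by
    unfold Nk
    have e2 : ∑ b, ∑ c, xm x b c ^ 2
        = ∑ b, ∑ c, if h : G.Adj b c then (fun e => x e ^ 2) (ed h) else 0 :=
      Finset.sum_congr rfl fun b _ => Finset.sum_congr rfl fun c _ => EdB_sum2 x b c
    rw [e2, ← sum_edges (fun e => x e ^ 2)]
  have e4 : ∑ b, ∑ c, W b c * lowb (xm x) (BF (xm x) n b c) b c ≤ 2 * ∑ e, w e * p e := by
    rw [sum_edges (fun e => w e * p e)]
    refine Finset.sum_le_sum fun b _ => Finset.sum_le_sum fun c _ => ?_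
    by_cases h : G.Adj b c
    · rw [dif_pos h, hWof h]
      exact mul_le_mul_of_nonneg_left (hp h) (by linarith [(hw (ed h)).1])
    · rw [dif_neg h]
      have h5 : xm x b c = 0 := by
        unfold xm
        rw [dif_neg h]
      unfold lowb
      rw [h5]
      simp
  rw [e1, e3] at h3
  linarith

end G

end Pool.Agent.AVH
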