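import Pool.Agent.AVH.Wtd
import Pool.Agent.AVH.ItB

/-! Edge transitive instances (MP_73ccd0_lc, average version). -/

namespace Pool.Agent.AVH

open MeasureTheory Finset Pool.Agent.RCRS

section G

variable {V : Type} [Fintype V] [DecidableEq V] {G : SimpleGraph V} [Fintype G.edgeSet]
  [DecidableEq G.edgeSet] [DecidableRel G.Adj] {x : G.edgeSet → ℝ}

/-- **transitive instances**: all pairs of positive weight have the same `x e` and the same lower
bound (`lowb_inv`, `lowb_swap`); `weighted` with `W = 1`, `κ = 1` gives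
`∑ X / 2 + 1/17 ∑ X^2 ≤ ∑ lowb` (ordered pairs), all terms of positive weight are equal -/
theorem edge_trans (hx : IsFractionalMatching G x) {n : ℕ} {p : G.edgeSet → ℝ}
    (hp0 : ∀ e, 0 ≤ p e)
    (hp : ∀ {b c : V} (h : G.Adj b c), lowb (xm x) (BF (xm x) n b c) b c ≤ p (ed h))
    (ht : ∀ b c b' c' : V, 0 < xm x b c → 0 < xm x b' c' → ∃ g : Equiv.Perm V,
      (∀ u v, xm x (g u) (g v) = xm x u v) ∧ s(g b, g c) = s(b', c')) (e : G.edgeSet) :
    x e / 2 + x e ^ 2 / 17 ≤ p e := by
  classical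
  induction e using Subtype.rec with | mk e he => ?_
  induction e using Sym2.ind with | h b c => ?_
  have hbc : G.Adj b c := (SimpleGraph.mem_edgeSet G).1 he
  change x (ed hbc) / 2 + x (ed hbc) ^ 2 / 17 ≤ p (ed hbc)
  rcases (hx.1 (ed hbc)).1.eq_or_lt with h0 | h0
  · rw [← h0]
    have := hp0 (ed hbc)
    norm_num
    exact this
  have hX := wm hx
  have hxm : xm x b c = x (ed hbc) := by
    unfold xm
    rw [dif_pos hbc]
  have hpos : 0 < xm x b c := by rw [hxm]; exact h0
  refine le_trans ?_ (hp hbc)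
  by_contra hlt
  rw [not_le, ← hxm] at hlt
  -- all pairs of positive weight look the same
  have hall : ∀ b' c', 0 < xm x b' c' → xm x b' c' = xm x b c ∧
      lowb (xm x) (BF (xm x) n b' c') b' c' = lowb (xm x) (BF (xm x) n b c) b c := by
    intro b' c' h
    obtain ⟨g, hg, hs⟩ := ht b c b' c' hpos h
    have e1 := lowb_inv (X := xm x) g hg n b c
    have e2 := hg b c
    rcases Sym2.eq_iff.1 hs with ⟨h1, h2⟩ | ⟨h1, h2⟩
    · rw [h1, h2] at e1 e2
      exact ⟨e2, e1⟩
    · rw [h1, h2] at e1 e2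
      refine ⟨(hX.symm b' c').trans e2, ?_⟩
      rw [← e1]
      exact lowb_swap hX n c' b'
  have hzero : ∀ b' c', ¬ 0 < xm x b' c' → xm x b' c' = 0 := fun b' c' h =>
    le_antisymm (not_lt.1 h) (hX.nn b' c')
  set F : V → V → ℝ := fun b' c' => xm x b' c' / 2 + xm x b' c' ^ 2 / 17
    - lowb (xm x) (BF (xm x) n b' c') b' c' with hF
  have hF0 : ∀ b' c', 0 ≤ F b' c' := by
    intro b' c'
    by_cases h : 0 < xm x b' c'
    · obtain ⟨h1, h2⟩ := hall b' c' h
      rw [hF]
      simp only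
      rw [h2, h1]
      linarith
    · have h1 := hzero b' c' h
      rw [hF]
      simp only
      unfold lowb
      rw [h1]
      simp
  have hFb : 0 < F b c := by
    rw [hF]
    simp only
    linarith
  have h3 := weighted hX n (le_refl (1 : ℝ)) (by norm_num) (fun _ _ => 1) (fun _ _ => ⟨le_rfl, le_rfl⟩)
  have h4 : ∑ b', ∑ c', F b' c' ≤ 0 := by
    have e1 : ∑ b', ∑ c', F b' c' = ∑ b', ∑ c', (1 : ℝ) * (xm x b' c' / 2)
        + 4 / 17 * (5 / 4 - 1) * Nk (xm x) 2
        - ∑ b', ∑ c', (1 : ℝ) * lowb (xm x) (BF (xm x) n b' c') b' c' := by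
      unfold Nk
      rw [Finset.mul_sum, ← Finset.sum_add_distrib, ← Finset.sum_sub_distrib]
      refine Finset.sum_congr rfl fun b' _ => ?_
      rw [Finset.mul_sum, ← Finset.sum_add_distrib, ← Finset.sum_sub_distrib]
      refine Finset.sum_congr rfl fun c' _ => ?_
      rw [hF]
      ring
    rw [e1]
    linarith
  have h5 : F b c ≤ ∑ c', F b c' :=
    Finset.single_le_sum (f := fun c' => F b c') (fun c' _ => hF0 b c') (Finset.mem_univ c)
  have h6 : ∑ c', F b c' ≤ ∑ b', ∑ c', F b' c' :=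
    Finset.single_le_sum (f := fun b' => ∑ c', F b' c')
      (fun b' _ => Finset.sum_nonneg fun c' _ => hF0 b' c') (Finset.mem_univ b)
  linarith

end G

end Pool.Agent.AVH
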