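import Pool.Agent.AVH.Wtd
import Pool.Agent.AVH.ItB

/-! Vertex transitive instances (MP_73ccd0_lc, average version). -/

namespace Pool.Agent.AVH

open MeasureTheory Finset Pool.Agent.RCRS

section G

variable {V : Type} [Fintype V] [DecidableEq V] {G : SimpleGraph V} [Fintype G.edgeSet]
  [DecidableEq G.edgeSet] [DecidableRel G.Adj] {x : G.edgeSet → ℝ}

/-- **vertex transitive instances**: `∑_c lowb v c`, `∑_c X v c`, `∑_c X v c ^ 2` do not depend on
`v`; `weighted` with `W = 1`, `κ = 1`; `sum_edges_at` -/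
theorem vert_trans (hx : IsFractionalMatching G x) {n : ℕ} {p : G.edgeSet → ℝ}
    (hp : ∀ {b c : V} (h : G.Adj b c), lowb (xm x) (BF (xm x) n b c) b c ≤ p (ed h))
    (ht : ∀ b b' : V, ∃ g : Equiv.Perm V, (∀ u v, xm x (g u) (g v) = xm x u v) ∧ g b = b')
    (v : V) :
    1 / 2 * (∑ e : G.edgeSet, if v ∈ (e : Sym2 V) then x e else 0)
      + 1 / 17 * (∑ e : G.edgeSet, if v ∈ (e : Sym2 V) then x e ^ 2 else 0)
      ≤ ∑ e : G.edgeSet, if v ∈ (e : Sym2 V) then p e else 0 := by
  have hWm : Wm (xm x) := wm hx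
  -- the weighted inequality
  have hw := weighted hWm n (κ := 1) le_rfl (by norm_num) (fun _ _ => (1 : ℝ))
    (fun _ _ => ⟨le_rfl, le_rfl⟩)
  -- the three vertex sums
  set D : V → ℝ := fun b => ∑ c, (xm x b c / 2 + 1 / 17 * xm x b c ^ 2
    - lowb (xm x) (BF (xm x) n b c) b c) with hD
  have hinv : ∀ b b' : V, D b = D b' := by
    intro b b'
    obtain ⟨g, hg, hgb⟩ := ht b b'
    simp only [hD]
    rw [← hgb]
    conv_rhs => rw [← Equiv.sum_comp g]
    refine Finset.sum_congr rfl fun c _ => ?_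
    rw [hg, lowb_inv g hg]
  have hsum : ∑ b, D b ≤ 0 := by
    have h1 : ∑ b, D b = (∑ b, ∑ c, (1 : ℝ) * (xm x b c / 2)
        + 4 / 17 * (5 / 4 - 1) * Nk (xm x) 2)
        - ∑ b, ∑ c, (1 : ℝ) * lowb (xm x) (BF (xm x) n b c) b c := by
      simp only [hD, Nk, Finset.sum_sub_distrib, Finset.sum_add_distrib, one_mul,
        Finset.mul_sum]
      norm_num
    rw [h1]
    linarith
  have hDv : D v ≤ 0 := by
    by_contra hcon
    push Not at hcon
    have : 0 < ∑ b, D b := Finset.sum_pos (fun b _ => by rw [hinv b v]; exact hcon) ⟨v, by simp⟩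
    linarith
  rw [sum_edges_at v x, sum_edges_at v (fun e => x e ^ 2), sum_edges_at v p]
  have e1 : (∑ u, if h : G.Adj v u then x (ed h) else 0) = ∑ u, xm x v u := rfl
  have e2 : (∑ u, if h : G.Adj v u then x (ed h) ^ 2 else 0) = ∑ u, xm x v u ^ 2 := by
    refine Finset.sum_congr rfl fun u _ => ?_
    by_cases h : G.Adj v u
    · simp [xm, h]
    · simp [xm, h]
  have e3 : ∑ u, lowb (xm x) (BF (xm x) n v u) v u
      ≤ ∑ u, if h : G.Adj v u then p (ed h) else 0 := by
    refine Finset.sum_le_sum fun u _ => ?_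
    by_cases h : G.Adj v u
    · simp only [h, dif_pos]
      exact hp h
    · have h0 : xm x v u = 0 := by simp [xm, h]
      simp [lowb, h0, h]
  rw [e1, e2]
  refine le_trans ?_ e3
  have : D v = 1 / 2 * ∑ u, xm x v u + 1 / 17 * ∑ u, xm x v u ^ 2
      - ∑ u, lowb (xm x) (BF (xm x) n v u) v u := by
    simp only [hD, Finset.sum_sub_distrib, Finset.sum_add_distrib, Finset.mul_sum]
    congr 2
    refine Finset.sum_congr rfl fun u _ => ?_
    ring
  linarith

end G

end Pool.Agent.AVH
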