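import Pool.Agent.AVH.FaA

/-! Lower bound of the probability that a vertex is free, in terms of `fr` (MP_73ccd0_lc, average version). Main tool: `RCRS.pf_ge`. -/

namespace Pool.Agent.AVH

open MeasureTheory Finset Pool.Agent.RCRS

section G

variable {V : Type} [Fintype V] [DecidableEq V] {G : SimpleGraph V} [Fintype G.edgeSet]
  [DecidableEq G.edgeSet] [DecidableRel G.Adj] {x : G.edgeSet → ℝ}

/-- `pf_ge` for `W = {b}` and the items which avoid `A` without the loop at `b` (`sum_loop`,
`av_loop`) -/
theorem pf_loop_ge (hx : IsFractionalMatching G x) {A : Finset V} {b : V} (hb : b ∉ A)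
    {s : ℝ} (hs : s ∈ Set.Icc (0 : ℝ) 1) :
    Real.exp (-∑ d ∈ (insert b A)ᶜ, ∫ u in (0 : ℝ)..s,
        hz (xm x b d) u * fr x (insert b A) d u)
      ≤ pf (ends G) (lawA x) ((av G A).erase (Sum.inr b)) {b} s := by
  have : ∀ i, IsProbabilityMeasure (lawA x i) := fun i => law_prob hx i
  have key := pf_ge (ends G) (lawA x) (denA x) (hazA x) (ring_all hx)
    ((av G A).erase (Sum.inr b)) {b} hs.1 hs.2
  rw [av_loop, sum_loop hb (fun g => ∫ t in Set.Ico 0 s,
    hazA x g t * pf (ends G) (lawA x) (av G (insert b A)) (ends G g \ {b}) t)] at key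
  refine le_trans (le_of_eq ?_) key
  congr 2
  refine Finset.sum_congr rfl fun d hd => ?_
  by_cases h : G.Adj b d
  · rw [dif_pos h]
    have h1 : ends G (Sum.inl (ed h)) \ {b} = {d} := by
      rw [ends_ed h]
      ext v
      simp only [Finset.mem_sdiff, Finset.mem_insert, Finset.mem_singleton]
      constructor
      · rintro ⟨h1 | h1, h2⟩
        · exact absurd h1 h2
        · exact h1
      · rintro rfl
        exact ⟨Or.inr rfl, h.ne'⟩
    rw [h1, intervalIntegral.integral_of_le hs.1, integral_Ioc_eq_integral_Ioo,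
      ← integral_Ico_eq_integral_Ioo]
    refine setIntegral_congr_fun measurableSet_Ico fun u hu => ?_
    have hu1 : u ∈ Set.Ico (0 : ℝ) 1 := ⟨hu.1, hu.2.trans_le hs.2⟩
    have h2 : hazA x (Sum.inl (ed h)) u = hz (xm x b d) u := by
      show cut (fun t => hz (x (ed h)) t) u = _
      rw [cut_of_mem hu1, xm_of h]
    simp only [h2]
    rfl
  · rw [dif_neg h]
    have h0 : xm x b d = 0 := by unfold xm; rw [dif_neg h]
    simp [hz, h0]

end G

end Pool.Agent.AVH
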