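import Pool.Agent.AVH.ItA

/-! Sums over the items at a vertex. Items are the edges `Sum.inl e` (ends: the two vertices) and the loops `Sum.inr v` (ends: `{v}`); `av G A` is the set of the items which avoid `A` (MP_73ccd0_lc, average version). -/

namespace Pool.Agent.AVH

open MeasureTheory Finset Pool.Agent.RCRS

section G

variable {V : Type} [Fintype V] [DecidableEq V] {G : SimpleGraph V} [Fintype G.edgeSet]
  [DecidableEq G.edgeSet] [DecidableRel G.Adj] {x : G.edgeSet → ℝ}

private noncomputable def ItC_E (G : SimpleGraph V) [DecidableRel G.Adj] (b c : V) :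
    G.edgeSet ⊕ V := if h : G.Adj b c then Sum.inl (ed h) else Sum.inr b

private noncomputable def ItC_T (G : SimpleGraph V) [DecidableRel G.Adj] (A : Finset V) (b : V) :
    Finset (G.edgeSet ⊕ V) := by
  classical
  exact (((insert b A)ᶜ).filter (fun c => G.Adj b c)).image (ItC_E G b)

omit [Fintype G.edgeSet] [DecidableEq G.edgeSet] in
private theorem ItC_mem {A : Finset V} {b : V} (g : G.edgeSet ⊕ V) :
    g ∈ ItC_T G A b ↔ ∃ c, c ∉ A ∧ ∃ h : G.Adj b c, g = Sum.inl (ed h) := by
  classical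
  unfold ItC_T
  rw [mem_image]
  constructor
  · rintro ⟨c, hc, rfl⟩
    rw [mem_filter, mem_compl, mem_insert, not_or] at hc
    refine ⟨c, hc.1.2, hc.2, ?_⟩
    unfold ItC_E
    rw [dif_pos hc.2]
  · rintro ⟨c, hc, h, rfl⟩
    refine ⟨c, ?_, ?_⟩
    · rw [mem_filter, mem_compl, mem_insert, not_or]
      exact ⟨⟨fun hh => G.ne_of_adj h hh.symm, hc⟩, h⟩
    · unfold ItC_E
      rw [dif_pos h]

omit [Fintype G.edgeSet] [DecidableEq G.edgeSet] in
private theorem ItC_sum {A : Finset V} {b : V} (F : G.edgeSet ⊕ V → ℝ) :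
    ∑ c ∈ (insert b A)ᶜ, (if h : G.Adj b c then F (Sum.inl (ed h)) else 0)
      = ∑ g ∈ ItC_T G A b, F g := by
  classical
  unfold ItC_T
  rw [sum_image, sum_filter]
  · refine sum_congr rfl fun c _ => ?_
    unfold ItC_E
    by_cases h : G.Adj b c
    · rw [dif_pos h, if_pos h, dif_pos h]
    · rw [dif_neg h, if_neg h]
  · intro c hc d hd h
    have hc' : G.Adj b c := (mem_filter.1 (mem_coe.1 hc)).2
    have hd' : G.Adj b d := (mem_filter.1 (mem_coe.1 hd)).2
    unfold ItC_E at h
    rw [dif_pos hc', dif_pos hd', Sum.inl.injEq] at h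
    have h2 : s(b, c) = s(b, d) := congrArg Subtype.val h
    exact Sym2.congr_right.1 h2

omit [Fintype V] [DecidableEq V] [Fintype G.edgeSet] [DecidableEq G.edgeSet]
  [DecidableRel G.Adj] in
private theorem ItC_edge {b : V} (e : G.edgeSet) (h : b ∈ (e : Sym2 V)) :
    ∃ c, ∃ h : G.Adj b c, e = ed h := by
  obtain ⟨c, hc⟩ := Sym2.mem_iff_exists.1 h
  have h1 : G.Adj b c := by
    have h2 := e.2
    rw [hc] at h2
    exact (SimpleGraph.mem_edgeSet G).1 h2
  exact ⟨c, h1, Subtype.ext hc⟩

private theorem ItC_at {A : Finset V} {b : V} (hb : b ∉ A) :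
    (av G A).filter (fun g => b ∈ ends G g) = insert (Sum.inr b) (ItC_T G A b) := by
  ext g
  rw [mem_filter, mem_insert, ItC_mem]
  unfold av
  rw [mem_filter]
  rcases g with e | v
  · constructor
    · rintro ⟨⟨-, h1⟩, h2⟩
      have h3 : b ∈ (e : Sym2 V) := by
        unfold ends at h2
        exact Sym2.mem_toFinset.1 h2
      obtain ⟨c, h, rfl⟩ := ItC_edge e h3
      right
      refine ⟨c, ?_, h, rfl⟩
      rw [ends_ed, disjoint_insert_left] at h1
      exact disjoint_singleton_left.1 h1.2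
    · rintro (h | ⟨c, hc, h, he⟩)
      · exact absurd h Sum.inl_ne_inr
      · rw [he, ends_ed]
        refine ⟨⟨mem_univ _, ?_⟩, mem_insert_self _ _⟩
        rw [disjoint_insert_left, disjoint_singleton_left]
        exact ⟨hb, hc⟩
  · constructor
    · rintro ⟨⟨-, h1⟩, h2⟩
      left
      unfold ends at h2
      rw [mem_singleton.1 h2]
    · rintro (h | ⟨c, hc, h, he⟩)
      · rw [Sum.inr.injEq] at h
        subst h
        refine ⟨⟨mem_univ _, ?_⟩, ?_⟩
        · unfold ends
          exact disjoint_singleton_left.2 hb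
        · unfold ends
          exact mem_singleton_self _
      · exact absurd he Sum.inr_ne_inl

omit [Fintype G.edgeSet] [DecidableEq G.edgeSet] in
private theorem ItC_not {A : Finset V} {b : V} : (Sum.inr b : G.edgeSet ⊕ V) ∉ ItC_T G A b := by
  rw [ItC_mem]
  rintro ⟨c, hc, h, he⟩
  exact absurd he Sum.inr_ne_inl

/-- the items at `b` which avoid `A` (`b ∉ A`): the loop at `b` and the edges `b c`, `c ∉ A` -/
theorem sum_at {A : Finset V} {b : V} (hb : b ∉ A) (F : G.edgeSet ⊕ V → ℝ) :
    ∑ g ∈ (av G A).filter (fun g => b ∈ ends G g), F g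
      = F (Sum.inr b) + ∑ c ∈ (insert b A)ᶜ, if h : G.Adj b c then F (Sum.inl (ed h)) else 0 := by
  rw [ItC_sum, ItC_at hb, sum_insert ItC_not]

/-- the items other than the loop at `b` which avoid `A` and meet `{b}`: the edges `b d`,
`d ∉ A ∪ {b}` -/
theorem sum_loop {A : Finset V} {b : V} (hb : b ∉ A) (F : G.edgeSet ⊕ V → ℝ) :
    ∑ g ∈ ((av G A).erase (Sum.inr b)).filter
        (fun g => ¬ Disjoint (ends G g) ({b} : Finset V)), F g
      = ∑ d ∈ (insert b A)ᶜ, if h : G.Adj b d then F (Sum.inl (ed h)) else 0 := by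
  rw [ItC_sum]
  refine sum_congr ?_ fun _ _ => rfl
  have h := congrArg (fun S => S.erase (Sum.inr b)) (ItC_at (G := G) hb)
  rw [erase_insert ItC_not] at h
  rw [← h]
  ext g
  simp only [mem_filter, mem_erase, disjoint_singleton_right, not_not, ne_eq]
  tauto

end G

end Pool.Agent.AVH
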