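import Pool.Agent.AVH.ItA

/-! Sums over the items at a pair. Items are the edges `Sum.inl e` (ends: the two vertices) and the loops `Sum.inr v` (ends: `{v}`); `av G A` is the set of the items which avoid `A` (MP_73ccd0_lc, average version). -/

namespace Pool.Agent.AVH

open MeasureTheory Finset Pool.Agent.RCRS

section G

variable {V : Type} [Fintype V] [DecidableEq V] {G : SimpleGraph V} [Fintype G.edgeSet]
  [DecidableEq G.edgeSet] [DecidableRel G.Adj] {x : G.edgeSet → ℝ}

/-- the edges at `b` correspond to the neighbours of `b` -/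
private theorem ItD_at (b : V) (F : G.edgeSet → ℝ) :
    (∑ e : G.edgeSet, if b ∈ (e : Sym2 V) then F e else 0)
      = ∑ d, if h : G.Adj b d then F (ed h) else 0 := by
  classical
  have h1 : ∀ e : G.edgeSet, (if b ∈ (e : Sym2 V) then F e else 0)
      = ∑ d, if (∃ h : G.Adj b d, ed h = e) then F e else 0 := by
    intro e
    by_cases hb : b ∈ (e : Sym2 V)
    · rw [if_pos hb]
      obtain ⟨d0, hd0⟩ := Sym2.mem_iff_exists.1 hb
      have h2 : ∀ d, (∃ h : G.Adj b d, ed h = e) ↔ d = d0 := by
        intro d
        constructor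
        · rintro ⟨h, he⟩
          have h3 : s(b, d) = (e : Sym2 V) := congrArg Subtype.val he
          rw [hd0] at h3
          exact Sym2.congr_right.1 h3
        · rintro rfl
          have hadj : G.Adj b d := by
            have h3 := e.2
            rw [hd0] at h3
            exact h3
          exact ⟨hadj, Subtype.ext hd0.symm⟩
      simp only [h2]
      rw [Finset.sum_ite_eq']
      simp
    · rw [if_neg hb]
      symm
      apply Finset.sum_eq_zero
      intro d _
      rw [if_neg]
      rintro ⟨h, rfl⟩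
      exact hb (Sym2.mem_mk_left b d)
  rw [Finset.sum_congr rfl (fun e _ => h1 e), Finset.sum_comm]
  refine Finset.sum_congr rfl fun d _ => ?_
  by_cases h : G.Adj b d
  · rw [dif_pos h]
    have h2 : ∀ e : G.edgeSet, (∃ h : G.Adj b d, ed h = e) ↔ e = ed h := by
      intro e
      constructor
      · rintro ⟨_, he⟩
        exact he.symm
      · rintro rfl
        exact ⟨h, rfl⟩
    simp only [h2]
    rw [Finset.sum_ite_eq']
    simp
  · rw [dif_neg h]
    apply Finset.sum_eq_zero
    intro e _
    rw [if_neg]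
    rintro ⟨h', _⟩
    exact h h'

/-- the edges at `b` other than `b c` which avoid `A` -/
private theorem ItD_half {A : Finset V} {b c : V} (hb : b ∉ A) (h : G.Adj b c)
    (F : G.edgeSet ⊕ V → ℝ) :
    (∑ e : G.edgeSet, if b ∈ (e : Sym2 V) then
        (if e ≠ ed h ∧ Disjoint (ends G (Sum.inl e)) A then F (Sum.inl e) else 0) else 0)
      = ∑ d ∈ (insert b (insert c A))ᶜ, (if h : G.Adj b d then F (Sum.inl (ed h)) else 0) := by
  classical
  rw [ItD_at b (fun e => if e ≠ ed h ∧ Disjoint (ends G (Sum.inl e)) A then F (Sum.inl e) else 0)]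
  have e0 : ((insert b (insert c A))ᶜ : Finset V)
      = Finset.univ.filter (fun d => d ∉ insert b (insert c A)) := by
    ext d
    simp
  rw [e0, Finset.sum_filter]
  refine Finset.sum_congr rfl fun d _ => ?_
  by_cases hd : G.Adj b d
  · rw [dif_pos hd, dif_pos hd]
    have h1 : (ed hd ≠ ed h ∧ Disjoint (ends G (Sum.inl (ed hd))) A)
        ↔ d ∉ insert b (insert c A) := by
      have h2 : ed hd = ed h ↔ d = c := by
        constructor
        · intro he
          have h3 : s(b, d) = s(b, c) := congrArg Subtype.val he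
          exact Sym2.congr_right.1 h3
        · rintro rfl
          rfl
      have h3 : d ≠ b := hd.ne'
      rw [ends_ed hd, ne_eq, h2, Finset.disjoint_left]
      simp only [Finset.mem_insert, Finset.mem_singleton, not_or]
      constructor
      · rintro ⟨h4, h5⟩
        exact ⟨h3, h4, h5 (Or.inr rfl)⟩
      · rintro ⟨_, h4, h5⟩
        refine ⟨h4, ?_⟩
        rintro a (rfl | rfl)
        · exact hb
        · exact h5
    simp only [h1]
  · rw [dif_neg hd, dif_neg hd]
    simp

/-- the items other than `b c` which avoid `A` and meet `{b, c}`: the loops at `b` and `c`, the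
edges `b d` and `c d`, `d ∉ A ∪ {b, c}` -/
theorem sum_pair {A : Finset V} {b c : V} (hb : b ∉ A) (hc : c ∉ A) (h : G.Adj b c)
    (F : G.edgeSet ⊕ V → ℝ) :
    ∑ g ∈ ((av G A).erase (Sum.inl (ed h))).filter
        (fun g => ¬ Disjoint (ends G g) ({b, c} : Finset V)), F g
      = F (Sum.inr b) + F (Sum.inr c)
        + ∑ d ∈ (insert b (insert c A))ᶜ, ((if h : G.Adj b d then F (Sum.inl (ed h)) else 0)
          + (if h : G.Adj c d then F (Sum.inl (ed h)) else 0)) := by
  classical
  have hbc : b ≠ c := h.ne
  -- all items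
  have e0 : ∑ g ∈ ((av G A).erase (Sum.inl (ed h))).filter
        (fun g => ¬ Disjoint (ends G g) ({b, c} : Finset V)), F g
      = ∑ g, if (g ≠ Sum.inl (ed h) ∧ Disjoint (ends G g) A ∧
          ¬ Disjoint (ends G g) ({b, c} : Finset V)) then F g else 0 := by
    rw [← Finset.sum_filter]
    refine Finset.sum_congr ?_ fun _ _ => rfl
    ext g
    simp only [av, Finset.mem_filter, Finset.mem_erase, Finset.mem_univ, true_and]
    tauto
  rw [e0, Fintype.sum_sum_type]
  have e1 : (∑ v : V, if ((Sum.inr v : G.edgeSet ⊕ V) ≠ Sum.inl (ed h) ∧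
        Disjoint (ends G (Sum.inr v)) A ∧ ¬ Disjoint (ends G (Sum.inr v)) ({b, c} : Finset V))
        then F (Sum.inr v) else 0) = F (Sum.inr b) + F (Sum.inr c) := by
    have h1 : ∀ v : V, ((Sum.inr v : G.edgeSet ⊕ V) ≠ Sum.inl (ed h) ∧
        Disjoint (ends G (Sum.inr v)) A ∧ ¬ Disjoint (ends G (Sum.inr v)) ({b, c} : Finset V))
        ↔ v ∈ ({b, c} : Finset V) := by
      intro v
      have h2 : ∀ B : Finset V, Disjoint (ends G (Sum.inr v)) B ↔ v ∉ B := by
        intro B
        rw [Finset.disjoint_left]
        constructor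
        · intro h3
          exact h3 ((ends_inr v v).2 rfl)
        · intro h3 a ha
          rw [ends_inr] at ha
          rw [ha]
          exact h3
      rw [h2, h2, not_not]
      constructor
      · rintro ⟨_, _, h3⟩
        exact h3
      · intro h3
        refine ⟨by simp, ?_, h3⟩
        rw [Finset.mem_insert, Finset.mem_singleton] at h3
        rcases h3 with rfl | rfl
        · exact hb
        · exact hc
    simp only [h1]
    rw [Finset.sum_ite_mem, Finset.univ_inter, Finset.sum_pair hbc]
  have e2 : (∑ e : G.edgeSet, if ((Sum.inl e : G.edgeSet ⊕ V) ≠ Sum.inl (ed h) ∧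
        Disjoint (ends G (Sum.inl e)) A ∧ ¬ Disjoint (ends G (Sum.inl e)) ({b, c} : Finset V))
        then F (Sum.inl e) else 0)
      = (∑ e : G.edgeSet, if b ∈ (e : Sym2 V) then
          (if e ≠ ed h ∧ Disjoint (ends G (Sum.inl e)) A then F (Sum.inl e) else 0) else 0)
        + ∑ e : G.edgeSet, if c ∈ (e : Sym2 V) then
          (if e ≠ ed h ∧ Disjoint (ends G (Sum.inl e)) A then F (Sum.inl e) else 0) else 0 := by
    rw [← Finset.sum_add_distrib]
    refine Finset.sum_congr rfl fun e _ => ?_
    have h1 : ¬ Disjoint (ends G (Sum.inl e)) ({b, c} : Finset V)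
        ↔ (b ∈ (e : Sym2 V) ∨ c ∈ (e : Sym2 V)) := by
      rw [Finset.not_disjoint_iff]
      constructor
      · rintro ⟨a, ha, ha2⟩
        rw [ends_inl] at ha
        rw [Finset.mem_insert, Finset.mem_singleton] at ha2
        rcases ha2 with rfl | rfl
        · exact Or.inl ha
        · exact Or.inr ha
      · rintro (ha | ha)
        · exact ⟨b, (ends_inl e b).2 ha, by simp⟩
        · exact ⟨c, (ends_inl e c).2 ha, by simp⟩
    have h2 : (Sum.inl e : G.edgeSet ⊕ V) ≠ Sum.inl (ed h) ↔ e ≠ ed h := by simp
    simp only [h1, h2]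
    have h3 : b ∈ (e : Sym2 V) → c ∈ (e : Sym2 V) → e = ed h := by
      intro h4 h5
      exact Subtype.ext ((Sym2.mem_and_mem_iff hbc).1 ⟨h4, h5⟩)
    by_cases h4 : b ∈ (e : Sym2 V) <;> by_cases h5 : c ∈ (e : Sym2 V) <;>
      by_cases h6 : e = ed h <;> simp [h4, h5, h6]
    exact absurd (h3 h4 h5) h6
  have e3 := ItD_half (F := F) hb h
  have e4 := ItD_half (F := F) hc h.symm
  rw [ed_symm h] at e4
  have e5 : (insert c (insert b A) : Finset V) = insert b (insert c A) := Finset.insert_comm _ _ _
  rw [e5] at e4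
  rw [e2, e3, e4, e1, Finset.sum_add_distrib]
  ring

end G

end Pool.Agent.AVH
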