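import Pool.Agent.AVH.Law
import Pool.Agent.AVH.Itm

/-! The probabilities `fr` (MP_73ccd0_lc, average version). -/

namespace Pool.Agent.AVH

open MeasureTheory Finset Pool.Agent.RCRS

section G

variable {V : Type} [Fintype V] [DecidableEq V] {G : SimpleGraph V} [Fintype G.edgeSet]
  [DecidableEq G.edgeSet] [DecidableRel G.Adj] {x : G.edgeSet → ℝ}

theorem fr_nonneg (hx : IsFractionalMatching G x) (A : Finset V) (b : V) (t : ℝ) :
    0 ≤ fr x A b t := by
  have : ∀ i, IsProbabilityMeasure (lawA x i) := fun i => law_prob hx i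
  exact pf_nonneg (ends G) (lawA x) (av G A) {b} t

theorem fr_le_one (hx : IsFractionalMatching G x) (A : Finset V) (b : V) (t : ℝ) :
    fr x A b t ≤ 1 := by
  have : ∀ i, IsProbabilityMeasure (lawA x i) := fun i => law_prob hx i
  exact pf_le_one (ends G) (lawA x) (av G A) {b} t

theorem fr_meas (hx : IsFractionalMatching G x) (A : Finset V) (b : V) :
    Measurable (fr x A b) := by
  have : ∀ i, IsProbabilityMeasure (lawA x i) := fun i => law_prob hx i
  exact measurable_pf (ends G) (lawA x) (av G A) {b}

/-- bounded measurable functions times continuous functions are integrable -/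
theorem fr_ii (hx : IsFractionalMatching G x) (A : Finset V) (b : V) {f : ℝ → ℝ}
    (hf : ContinuousOn f (Set.Icc 0 1)) {t : ℝ} (ht : t ∈ Set.Icc (0 : ℝ) 1) :
    IntervalIntegrable (fun u => f u * fr x A b u) volume 0 t := by
  rw [intervalIntegrable_iff_integrableOn_Ioc_of_le ht.1]
  have h1 : IntegrableOn f (Set.Ioc 0 t) :=
    ((hf.mono (Set.Icc_subset_Icc_right ht.2)).integrableOn_Icc).mono_set Set.Ioc_subset_Icc_self
  refine Integrable.mul_bdd (c := 1) h1 (fr_meas hx A b).aestronglyMeasurable
    (Filter.Eventually.of_forall fun u => ?_)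
  rw [Real.norm_eq_abs, abs_of_nonneg (fr_nonneg hx A b u)]
  exact fr_le_one hx A b u

/-- the probability that nothing is used is one -/
theorem pf_empty (hx : IsFractionalMatching G x) (I : Finset (G.edgeSet ⊕ V)) (t : ℝ) :
    pf (ends G) (lawA x) I ∅ t = 1 := by
  have : ∀ i, IsProbabilityMeasure (lawA x i) := fun i => law_prob hx i
  unfold pf
  have h : {ρ : (G.edgeSet ⊕ V) → ℝ | ∀ w ∈ (∅ : Finset V), free (ends G) I ρ w t} = Set.univ := by
    ext ρ
    simp
  rw [h]
  exact probReal_univ

end G

end Pool.Agent.AVH
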