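import Pool.Agent.AVH.FaA

/-! Lower bound of the probability that both ends of an edge are free, in terms of `fr` (MP_73ccd0_lc, average version). Main tool: `RCRS.pf_ge`. -/

namespace Pool.Agent.AVH

open MeasureTheory Finset Pool.Agent.RCRS

section G

variable {V : Type} [Fintype V] [DecidableEq V] {G : SimpleGraph V} [Fintype G.edgeSet]
  [DecidableEq G.edgeSet] [DecidableRel G.Adj] {x : G.edgeSet → ℝ}

omit [DecidableEq V] [Fintype V] [Fintype G.edgeSet] [DecidableEq G.edgeSet] [DecidableRel G.Adj] in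
private theorem FaB_ico (f : ℝ → ℝ) {s : ℝ} (hs : 0 ≤ s) :
    ∫ t in Set.Ico 0 s, f t = ∫ t in (0 : ℝ)..s, f t := by
  rw [intervalIntegral.integral_of_le hs, MeasureTheory.integral_Ico_eq_integral_Ioo,
    MeasureTheory.integral_Ioc_eq_integral_Ioo]

private theorem FaB_loop (hx : IsFractionalMatching G x) (A' : Finset V) {b c v : V}
    (hv : v ∈ ({b, c} : Finset V)) {s : ℝ} (hs : s ∈ Set.Icc (0 : ℝ) 1) :
    ∫ t in Set.Ico 0 s, hazA x (Sum.inr v) t *
      pf (ends G) (lawA x) (av G A') (ends G (Sum.inr v) \ {b, c}) t = defect x v * th s := by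
  have h1 : ends G (Sum.inr v) \ ({b, c} : Finset V) = ∅ := by
    rw [Finset.sdiff_eq_empty_iff_subset]
    intro w hw
    rw [ends_inr] at hw
    rw [hw]
    exact hv
  have h2 : ∀ t, hazA x (Sum.inr v) t * pf (ends G) (lawA x) (av G A') (ends G (Sum.inr v) \ {b, c}) t
      = cut (fun t => defect x v * r t) t := by
    intro t
    rw [h1, pf_empty hx, mul_one]
    rfl
  simp_rw [h2]
  rw [integral_cut _ hs.2, integral_const_mul, FaB_ico _ hs.1, int_r hs.1]

private theorem FaB_edge (A' : Finset V) {b c v d : V}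
    (hv : v ∈ ({b, c} : Finset V)) (hd : d ∉ ({b, c} : Finset V)) {s : ℝ}
    (hs : s ∈ Set.Icc (0 : ℝ) 1) :
    (if h : G.Adj v d then ∫ t in Set.Ico 0 s, hazA x (Sum.inl (ed h)) t *
      pf (ends G) (lawA x) (av G A') (ends G (Sum.inl (ed h)) \ {b, c}) t else 0)
      = ∫ u in (0 : ℝ)..s, hz (xm x v d) u * fr x A' d u := by
  split_ifs with h
  · have h1 : ends G (Sum.inl (ed h)) \ ({b, c} : Finset V) = {d} := by
      rw [ends_ed h]
      ext w
      simp only [Finset.mem_sdiff, Finset.mem_insert, Finset.mem_singleton] at *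
      constructor
      · rintro ⟨h2 | h2, h3⟩
        · exact absurd (by rw [h2]; exact hv) h3
        · exact h2
      · rintro rfl
        exact ⟨Or.inr rfl, hd⟩
    rw [h1, ← FaB_ico _ hs.1]
    refine setIntegral_congr_fun measurableSet_Ico fun t ht => ?_
    have h2 : hazA x (Sum.inl (ed h)) t = hz (xm x v d) t := by
      rw [xm_of h]
      exact cut_of_mem ⟨ht.1, ht.2.trans_le hs.2⟩
    show hazA x (Sum.inl (ed h)) t * _ = _
    rw [h2]
    rfl
  · have h1 : xm x v d = 0 := by
      unfold xm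
      rw [dif_neg h]
    have h2 : ∀ u, hz (xm x v d) u * fr x A' d u = 0 := by
      intro u
      rw [h1]
      unfold hz
      ring
    simp_rw [h2]
    rw [intervalIntegral.integral_zero]

/-- `pf_ge` for `W = {b, c}` and the items which avoid `A` without `b c`: by `sum_pair`, `av_pair`
the exponent is the sum of: the loops, `∫ hazA (inr b) * pf .. ∅ = defect x b * th s`; the edges
`b d`, `c d` with `ends \ {b, c} = {d}`, `∫ hz * fr (A ∪ {b, c}) d`. (`∫ in Ico 0 s` is the
interval integral, `cut` is the identity there.) Where `G.Adj b d` fails, `xm x b d = 0` and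
`hz 0 u = 0`. -/
theorem pf_pair_ge (hx : IsFractionalMatching G x) {A : Finset V} {b c : V} (hb : b ∉ A)
    (hc : c ∉ A) (h : G.Adj b c) {s : ℝ} (hs : s ∈ Set.Icc (0 : ℝ) 1) :
    Real.exp (-((defect x b + defect x c) * th s
      + ∑ d ∈ (insert b (insert c A))ᶜ, ∫ u in (0 : ℝ)..s,
        (hz (xm x b d) u + hz (xm x c d) u) * fr x (insert b (insert c A)) d u))
      ≤ pf (ends G) (lawA x) ((av G A).erase (Sum.inl (ed h))) {b, c} s := by
  have hpr : ∀ i, IsProbabilityMeasure (lawA x i) := law_prob hx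
  have key := pf_ge (ends G) (lawA x) (denA x) (hazA x) (ring_all hx)
    ((av G A).erase (Sum.inl (ed h))) {b, c} hs.1 hs.2
  rw [av_pair h] at key
  have key2 := sum_pair hb hc h (fun g => ∫ t in Set.Ico 0 s, hazA x g t *
    pf (ends G) (lawA x) (av G (insert b (insert c A))) (ends G g \ {b, c}) t)
  rw [key2] at key
  refine le_trans (le_of_eq ?_) key
  congr 2
  rw [FaB_loop hx _ (by simp) hs, FaB_loop hx _ (by simp) hs, ← add_mul]
  congr 1
  refine Finset.sum_congr rfl fun d hd => ?_
  rw [Finset.mem_compl, Finset.mem_insert, Finset.mem_insert] at hd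
  push Not at hd
  have hd2 : d ∉ ({b, c} : Finset V) := by
    rw [Finset.mem_insert, Finset.mem_singleton]
    push Not
    exact ⟨hd.1, hd.2.1⟩
  rw [FaB_edge _ (by simp) hd2 hs, FaB_edge _ (by simp) hd2 hs,
    ← intervalIntegral.integral_add (fr_ii hx _ _ (hz_cont _).continuousOn hs)
      (fr_ii hx _ _ (hz_cont _).continuousOn hs)]
  refine intervalIntegral.integral_congr fun u _ => ?_
  show _ = _
  ring

end G

end Pool.Agent.AVH
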