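import Pool.Agent.AVH.Fa

/-! The integrand of a loop (MP_73ccd0_lc, average version). -/

namespace Pool.Agent.AVH

open MeasureTheory Finset Pool.Agent.RCRS

section G

variable {V : Type} [Fintype V] [DecidableEq V] {G : SimpleGraph V} [Fintype G.edgeSet]
  [DecidableEq G.edgeSet] [DecidableRel G.Adj] {x : G.edgeSet → ℝ}

/-- **the integrand of a loop**: `denA (inr b) s = (1 - ρ_b) r exp (-(1 - ρ_b) th)`, by
`pf_loop_ge` the exponent of `pf` is at most `th (ρ_b - a_b) + (s - th) ∑ X b d^2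
+ ∑_{d ≠ b} ∫ hz (X b d) B d`, so the product is at least
`(1 - ρ_b) r^2 exp (th a_b - y1)`. -/
theorem loop_ge (hx : IsFractionalMatching G x) {A : Finset V} {b : V} (hb : b ∉ A)
    (B : V → ℝ → ℝ)
    (hBc : ∀ d, ContinuousOn (B d) (Set.Icc 0 1))
    (hBn : ∀ d, ∀ u ∈ Set.Icc (0 : ℝ) 1, 0 ≤ B d u)
    (hB : ∀ d, d ∉ insert b A → ∀ u ∈ Set.Icc (0 : ℝ) 1, fr x (insert b A) d u ≤ r u + B d u)
    {s : ℝ} (hs : s ∈ Set.Ico (0 : ℝ) 1) :
    (1 - ∑ d, xm x b d) * (r s ^ 2 * (1 + th s * wA x A b - y1 (xm x) B b s))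
      ≤ denA x (Sum.inr b) s * pf (ends G) (lawA x) ((av G A).erase (Sum.inr b)) {b} s := by
  classical
  have hX := wm hx
  have hs' : s ∈ Set.Icc (0 : ℝ) 1 := ⟨hs.1, hs.2.le⟩
  have hs0 : (0 : ℝ) ≤ s := hs.1
  have hdef : defect x b = 1 - ∑ d, xm x b d := defect_eq b
  have hd0 : 0 ≤ defect x b := defect_nonneg hx b
  -- the density
  have hden : denA x (Sum.inr b) s
      = defect x b * (r s * Real.exp (-(defect x b * th s))) := by
    unfold denA
    rw [Sum.elim_inr, one_mul, cut_of_mem hs]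
  -- each integral
  have hint : ∀ d ∈ (insert b A)ᶜ, (∫ u in (0 : ℝ)..s, hz (xm x b d) u * fr x (insert b A) d u)
      ≤ xm x b d * th s + xm x b d ^ 2 * (s - th s)
        + ∫ u in (0 : ℝ)..s, hz (xm x b d) u * B d u := by
    intro d hd
    have hd' : d ∉ insert b A := Finset.mem_compl.1 hd
    have hr : ContinuousOn (fun u => hz (xm x b d) u * r u) (Set.Icc 0 1) :=
      (hz_cont _).continuousOn.mul r_cont
    have hBB : ContinuousOn (fun u => hz (xm x b d) u * B d u) (Set.Icc 0 1) :=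
      (hz_cont _).continuousOn.mul (hBc d)
    rw [← int_hz_r hs0, ← intervalIntegral.integral_add (ii hr hs') (ii hBB hs')]
    refine intervalIntegral.integral_mono_on hs0 (fr_ii hx _ _ (hz_cont _).continuousOn hs')
      ((ii hr hs').add (ii hBB hs')) ?_
    intro u hu
    have hu1 : u ∈ Set.Icc (0 : ℝ) 1 := ⟨hu.1, hu.2.trans hs.2.le⟩
    have h1 := hB d hd' u hu1
    have h2 : 0 ≤ hz (xm x b d) u := hz_nonneg (hX.nn b d) hu.1
    calc hz (xm x b d) u * fr x (insert b A) d u ≤ hz (xm x b d) u * (r u + B d u) :=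
          mul_le_mul_of_nonneg_left h1 h2
      _ = hz (xm x b d) u * r u + hz (xm x b d) u * B d u := by ring
  have hBint : ∀ d, 0 ≤ ∫ u in (0 : ℝ)..s, hz (xm x b d) u * B d u := by
    intro d
    refine int_nonneg hs' ?_
    intro u hu
    exact mul_nonneg (hz_nonneg (hX.nn b d) hu.1) (hBn d u ⟨hu.1, hu.2.trans hs.2.le⟩)
  have hsum1 : ∑ d ∈ (insert b A)ᶜ, xm x b d = ∑ d, xm x b d - wA x A b := by
    have h1 := Finset.sum_add_sum_compl (insert b A) (fun d => xm x b d)
    rw [Finset.sum_insert hb, hX.diag b, zero_add] at h1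
    unfold wA
    linarith
  have hsum2 : ∑ d ∈ (insert b A)ᶜ, xm x b d ^ 2 ≤ ∑ d, xm x b d ^ 2 :=
    Finset.sum_le_sum_of_subset_of_nonneg (Finset.subset_univ _) (fun _ _ _ => sq_nonneg _)
  have hsub : (insert b A)ᶜ ⊆ ({b} : Finset V)ᶜ := by
    intro d hd
    rw [Finset.mem_compl] at hd ⊢
    intro h
    exact hd (Finset.mem_insert.2 (Or.inl (Finset.mem_singleton.1 h)))
  have hsum3 : ∑ d ∈ (insert b A)ᶜ, ∫ u in (0 : ℝ)..s, hz (xm x b d) u * B d u
      ≤ ∑ d ∈ ({b} : Finset V)ᶜ, ∫ u in (0 : ℝ)..s, hz (xm x b d) u * B d u :=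
    Finset.sum_le_sum_of_subset_of_nonneg hsub (fun d _ _ => hBint d)
  have hth : 0 ≤ s - th s := sth_nonneg hs0
  have hexp : ∑ d ∈ (insert b A)ᶜ, (∫ u in (0 : ℝ)..s, hz (xm x b d) u * fr x (insert b A) d u)
      ≤ (∑ d, xm x b d - wA x A b) * th s + y1 (xm x) B b s := by
    refine (Finset.sum_le_sum hint).trans ?_
    rw [Finset.sum_add_distrib, Finset.sum_add_distrib, ← Finset.sum_mul, ← Finset.sum_mul, hsum1]
    unfold y1
    have := mul_le_mul_of_nonneg_right hsum2 hth
    linarith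
  have hpf := pf_loop_ge hx hb hs'
  have hr0 : 0 < r s := r_pos hs0
  have hden0 : 0 ≤ defect x b * (r s * Real.exp (-(defect x b * th s))) :=
    mul_nonneg hd0 (mul_nonneg hr0.le (Real.exp_pos _).le)
  rw [hden, ← hdef]
  have hstep : defect x b * (r s * Real.exp (-(defect x b * th s)))
      * Real.exp (-((∑ d, xm x b d - wA x A b) * th s + y1 (xm x) B b s))
      = defect x b * (r s ^ 2 * Real.exp (th s * wA x A b - y1 (xm x) B b s)) := by
    have e1 : Real.exp (-(defect x b * th s))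
        * Real.exp (-((∑ d, xm x b d - wA x A b) * th s + y1 (xm x) B b s))
        = r s * Real.exp (th s * wA x A b - y1 (xm x) B b s) := by
      rw [← exp_neg_th hs0, ← Real.exp_add, ← Real.exp_add]
      congr 1
      rw [hdef]
      ring
    calc defect x b * (r s * Real.exp (-(defect x b * th s)))
        * Real.exp (-((∑ d, xm x b d - wA x A b) * th s + y1 (xm x) B b s))
        = defect x b * r s * (Real.exp (-(defect x b * th s))
        * Real.exp (-((∑ d, xm x b d - wA x A b) * th s + y1 (xm x) B b s))) := by ring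
      _ = _ := by rw [e1]; ring
  calc defect x b * (r s ^ 2 * (1 + th s * wA x A b - y1 (xm x) B b s))
      ≤ defect x b * (r s ^ 2 * Real.exp (th s * wA x A b - y1 (xm x) B b s)) := by
        refine mul_le_mul_of_nonneg_left (mul_le_mul_of_nonneg_left ?_ (sq_nonneg _)) hd0
        have := Real.add_one_le_exp (th s * wA x A b - y1 (xm x) B b s)
        linarith
    _ = defect x b * (r s * Real.exp (-(defect x b * th s)))
      * Real.exp (-((∑ d, xm x b d - wA x A b) * th s + y1 (xm x) B b s)) := hstep.symm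
    _ ≤ defect x b * (r s * Real.exp (-(defect x b * th s)))
      * Real.exp (-∑ d ∈ (insert b A)ᶜ, ∫ u in (0 : ℝ)..s,
        hz (xm x b d) u * fr x (insert b A) d u) := by
        refine mul_le_mul_of_nonneg_left (Real.exp_le_exp.2 ?_) hden0
        linarith
    _ ≤ _ := mul_le_mul_of_nonneg_left hpf hden0

end G

end Pool.Agent.AVH
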