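import Pool.Agent.AVH.Fa

/-! The integrand of an edge (MP_73ccd0_lc, average version). -/

namespace Pool.Agent.AVH

open MeasureTheory Finset Pool.Agent.RCRS

section G

variable {V : Type} [Fintype V] [DecidableEq V] {G : SimpleGraph V} [Fintype G.edgeSet]
  [DecidableEq G.edgeSet] [DecidableRel G.Adj] {x : G.edgeSet → ℝ}

/-- **the integrand of an edge.** Write `X = xm x`, `ρ_b = ∑ X b d`, `a_b = wA x A b`,
`A' = A ∪ {b, c}`. By `pf_pair_ge` and `fr A' d ≤ r + B d` the exponent of `pf` is at most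
`(1 - ρ_b) th + (1 - ρ_c) th + ∑_{d ∉ A'} ∫ (hz (X b d) + hz (X c d)) (r + B d)`, and
(`int_hz_r`) `∫ hz (X b d) r = X b d th + (X b d)^2 (s - th)`,
`∑_{d ∉ A'} X b d = ρ_b - a_b - X b c`. So it is at most
`2 th - 2 X b c th - th (a_b + a_c) + (s - th) ∑_{d ∉ A'} (X b d^2 + X c d^2)
+ ∑_{d ∉ A'} ∫ (hz + hz) B d ≤ 2 th - 2 X b c th - th (a_b + a_c) + y2 X B b c s`
(the sums in `y2` run over all `d ∉ {b, c}`, all terms are nonnegative). With `exp (-th) = r` and
`denA = X b c (1 + X b c s) exp (-(X b c s + (X b c)^2 s^2/2)) = X b c exp (- lam (X b c s))`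
the product is at least `X b c r^2 exp (gn + th (a_b + a_c) - y2)`, and `exp z ≥ 1 + z`. -/
theorem pair_ge (hx : IsFractionalMatching G x) {A : Finset V} {b c : V} (hb : b ∉ A)
    (hc : c ∉ A) (h : G.Adj b c) (B : V → ℝ → ℝ)
    (hBc : ∀ d, ContinuousOn (B d) (Set.Icc 0 1))
    (hBn : ∀ d, ∀ u ∈ Set.Icc (0 : ℝ) 1, 0 ≤ B d u)
    (hB : ∀ d, d ∉ insert b (insert c A) → ∀ u ∈ Set.Icc (0 : ℝ) 1,
      fr x (insert b (insert c A)) d u ≤ r u + B d u)
    {s : ℝ} (hs : s ∈ Set.Ico (0 : ℝ) 1) :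
    xm x b c * (r s ^ 2 * (1 + gn (xm x b c) s + th s * (wA x A b + wA x A c)
        - y2 (xm x) B b c s))
      ≤ denA x (Sum.inl (ed h)) s *
        pf (ends G) (lawA x) ((av G A).erase (Sum.inl (ed h))) {b, c} s := by
  have hW := wm hx
  have hs' : s ∈ Set.Icc (0 : ℝ) 1 := ⟨hs.1, hs.2.le⟩
  have hbc : b ≠ c := h.ne
  have hX0 : 0 ≤ xm x b c := hW.nn b c
  have hterm : ∀ d ∈ (insert b (insert c A))ᶜ,
      ∫ u in (0 : ℝ)..s, (hz (xm x b d) u + hz (xm x c d) u) * fr x (insert b (insert c A)) d u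
      ≤ th s * (xm x b d + xm x c d) + ((s - th s) * (xm x b d ^ 2 + xm x c d ^ 2)
        + ∫ u in (0 : ℝ)..s, (hz (xm x b d) u + hz (xm x c d) u) * B d u) := by
    intro d hd
    rw [Finset.mem_compl] at hd
    have hc2 : ContinuousOn (fun u => hz (xm x b d) u + hz (xm x c d) u) (Set.Icc 0 1) :=
      ((hz_cont (xm x b d)).add (hz_cont (xm x c d))).continuousOn
    have i1 : IntervalIntegrable (fun u => (hz (xm x b d) u + hz (xm x c d) u) *
        fr x (insert b (insert c A)) d u) volume 0 s := fr_ii hx _ _ hc2 hs'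
    have i2 : IntervalIntegrable (fun u => hz (xm x b d) u * r u) volume 0 s :=
      ii ((hz_cont _).continuousOn.mul r_cont) hs'
    have i3 : IntervalIntegrable (fun u => hz (xm x c d) u * r u) volume 0 s :=
      ii ((hz_cont _).continuousOn.mul r_cont) hs'
    have i4 : IntervalIntegrable (fun u => (hz (xm x b d) u + hz (xm x c d) u) * B d u)
        volume 0 s := ii (hc2.mul (hBc d)) hs'
    have e1 : th s * (xm x b d + xm x c d) + ((s - th s) * (xm x b d ^ 2 + xm x c d ^ 2)
        + ∫ u in (0 : ℝ)..s, (hz (xm x b d) u + hz (xm x c d) u) * B d u)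
        = ∫ u in (0 : ℝ)..s, (hz (xm x b d) u * r u + hz (xm x c d) u * r u
          + (hz (xm x b d) u + hz (xm x c d) u) * B d u) := by
      rw [intervalIntegral.integral_add (i2.add i3) i4, intervalIntegral.integral_add i2 i3,
        int_hz_r hs.1, int_hz_r hs.1]
      ring
    rw [e1]
    refine intervalIntegral.integral_mono_on hs.1 i1 ((i2.add i3).add i4) fun u hu => ?_
    have h1 := hB d hd u ⟨hu.1, hu.2.trans hs'.2⟩
    have h2 : 0 ≤ hz (xm x b d) u + hz (xm x c d) u :=
      add_nonneg (hz_nonneg (hW.nn _ _) hu.1) (hz_nonneg (hW.nn _ _) hu.1)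
    calc (hz (xm x b d) u + hz (xm x c d) u) * fr x (insert b (insert c A)) d u
        ≤ (hz (xm x b d) u + hz (xm x c d) u) * (r u + B d u) := mul_le_mul_of_nonneg_left h1 h2
      _ = _ := by ring
  have hbA : b ∉ insert c A := by
    rw [Finset.mem_insert]
    push Not
    exact ⟨hbc, hb⟩
  have hsum1 : ∑ d ∈ (insert b (insert c A))ᶜ, xm x b d
      = (∑ d, xm x b d) - xm x b c - wA x A b := by
    have h1 := Finset.sum_add_sum_compl (insert b (insert c A)) (fun d => xm x b d)
    rw [Finset.sum_insert hbA, Finset.sum_insert hc, hW.diag b] at h1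
    unfold wA
    linarith
  have hsum2 : ∑ d ∈ (insert b (insert c A))ᶜ, xm x c d
      = (∑ d, xm x c d) - xm x b c - wA x A c := by
    have h1 := Finset.sum_add_sum_compl (insert b (insert c A)) (fun d => xm x c d)
    rw [Finset.sum_insert hbA, Finset.sum_insert hc, hW.diag c, hW.symm c b] at h1
    unfold wA
    linarith
  have hloss : ∑ d ∈ (insert b (insert c A))ᶜ, ((s - th s) * (xm x b d ^ 2 + xm x c d ^ 2)
        + ∫ u in (0 : ℝ)..s, (hz (xm x b d) u + hz (xm x c d) u) * B d u)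
      ≤ y2 (xm x) B b c s := by
    unfold y2
    rw [Finset.mul_sum, ← Finset.sum_add_distrib]
    refine Finset.sum_le_sum_of_subset_of_nonneg ?_ ?_
    · intro d hd
      rw [Finset.mem_compl, Finset.mem_insert, Finset.mem_insert] at hd
      rw [Finset.mem_compl, Finset.mem_insert, Finset.mem_singleton]
      push Not at hd ⊢
      exact ⟨hd.1, hd.2.1⟩
    · intro d _ _
      refine add_nonneg (mul_nonneg (sth_nonneg hs.1) (by positivity)) ?_
      refine int_nonneg hs' fun u hu => ?_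
      exact mul_nonneg (add_nonneg (hz_nonneg (hW.nn _ _) hu.1) (hz_nonneg (hW.nn _ _) hu.1))
        (hBn d u ⟨hu.1, hu.2.trans hs'.2⟩)
  have hE : (defect x b + defect x c) * th s
      + ∑ d ∈ (insert b (insert c A))ᶜ, ∫ u in (0 : ℝ)..s,
        (hz (xm x b d) u + hz (xm x c d) u) * fr x (insert b (insert c A)) d u
      ≤ 2 * th s - 2 * xm x b c * th s - th s * (wA x A b + wA x A c) + y2 (xm x) B b c s := by
    have h1 := Finset.sum_le_sum hterm
    rw [Finset.sum_add_distrib, ← Finset.mul_sum,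
      Finset.sum_add_distrib (f := fun d => xm x b d), hsum1, hsum2] at h1
    rw [defect_eq, defect_eq]
    linarith
  have hpf := (Real.exp_le_exp.2 (neg_le_neg hE)).trans (pf_pair_ge hx hb hc h hs')
  have hden : denA x (Sum.inl (ed h)) s = xm x b c * Real.exp (-lam (xm x b c * s)) := by
    show x (ed h) * acc x (ed h) s = _
    unfold acc
    rw [cut_of_mem hs, ← xm_of (x := x) h]
    have h1 : 0 < 1 + xm x b c * s := by
      have h2 : 0 ≤ xm x b c * s := mul_nonneg hX0 hs.1
      linarith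
    unfold lam
    rw [show -(xm x b c * s + (xm x b c * s) ^ 2 / 2 - Real.log (1 + xm x b c * s))
      = Real.log (1 + xm x b c * s) + -(xm x b c * s + xm x b c ^ 2 * s ^ 2 / 2) by ring,
      Real.exp_add, Real.exp_log h1]
  have hr : r s ^ 2 = Real.exp (-(2 * th s)) := by
    rw [← exp_neg_th hs.1, ← Real.exp_nat_mul]
    congr 1
    push_cast
    ring
  rw [hden]
  calc xm x b c * (r s ^ 2 * (1 + gn (xm x b c) s + th s * (wA x A b + wA x A c)
        - y2 (xm x) B b c s))
      ≤ xm x b c * (r s ^ 2 * Real.exp (gn (xm x b c) s + th s * (wA x A b + wA x A c)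
        - y2 (xm x) B b c s)) := by
        refine mul_le_mul_of_nonneg_left (mul_le_mul_of_nonneg_left ?_ (sq_nonneg _)) hX0
        have h1 := Real.add_one_le_exp (gn (xm x b c) s + th s * (wA x A b + wA x A c)
          - y2 (xm x) B b c s)
        linarith
    _ = xm x b c * Real.exp (-lam (xm x b c * s)) * Real.exp (-(2 * th s - 2 * xm x b c * th s
        - th s * (wA x A b + wA x A c) + y2 (xm x) B b c s)) := by
        rw [hr, mul_assoc, ← Real.exp_add, ← Real.exp_add]
        congr 2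
        unfold gn
        ring
    _ ≤ _ := mul_le_mul_of_nonneg_left hpf (mul_nonneg hX0 (Real.exp_nonneg _))

end G

end Pool.Agent.AVH
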