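import Pool.Agent.AVH.Fb
import Pool.Agent.AVH.Yc

/-! The upper bound of the densities (MP_73ccd0_lc, average version). -/

namespace Pool.Agent.AVH

open MeasureTheory Finset Pool.Agent.RCRS

section G

variable {V : Type} [Fintype V] [DecidableEq V] {G : SimpleGraph V} [Fintype G.edgeSet]
  [DecidableEq G.edgeSet] [DecidableRel G.Adj] {x : G.edgeSet → ℝ}

/-- `RCRS.pf_le` for the items which avoid `A`, with `sum_at`, `ends_ed` -/
theorem fr_le (hx : IsFractionalMatching G x) {A : Finset V} {b : V} (hb : b ∉ A)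
    {t : ℝ} (ht : t ∈ Set.Icc (0 : ℝ) 1) :
    fr x A b t ≤ 1 - ((∫ s in Set.Ico (0 : ℝ) t, denA x (Sum.inr b) s *
          pf (ends G) (lawA x) ((av G A).erase (Sum.inr b)) {b} s)
        + ∑ c ∈ (insert b A)ᶜ, if h : G.Adj b c then ∫ s in Set.Ico (0 : ℝ) t,
            denA x (Sum.inl (ed h)) s *
              pf (ends G) (lawA x) ((av G A).erase (Sum.inl (ed h))) {b, c} s else 0) := by
  have : ∀ i, IsProbabilityMeasure (lawA x i) := law_prob hx
  have h1 := pf_le (ends G) (lawA x) (denA x) (hazA x) (ring_all hx) (av G A) b ht.2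
  refine h1.trans (le_of_eq ?_)
  rw [sum_at hb]
  congr 2
  refine Finset.sum_congr rfl fun c _ => ?_
  by_cases h : G.Adj b c
  · rw [dif_pos h, dif_pos h, ends_ed h]
  · rw [dif_neg h, dif_neg h]

end G

end Pool.Agent.AVH
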