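import Pool.Agent.AVH.FcA

/-! The recursion of the densities (MP_73ccd0_lc, average version). -/

namespace Pool.Agent.AVH

open MeasureTheory Finset Pool.Agent.RCRS

private lemma FcB_ico {t : ℝ} (ht : 0 ≤ t) (f : ℝ → ℝ) :
    ∫ s in Set.Ico (0 : ℝ) t, f s = ∫ s in (0 : ℝ)..t, f s := by
  rw [intervalIntegral.integral_of_le ht, integral_Ico_eq_integral_Ioo,
    ← integral_Ioc_eq_integral_Ioo]

private lemma FcB_int {f : ℝ → ℝ} (hf : ContinuousOn f (Set.Icc 0 1)) {t : ℝ} (ht : t ≤ 1) :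
    IntegrableOn f (Set.Ico 0 t) :=
  ((hf.mono (Set.Icc_subset_Icc_right ht)).integrableOn_Icc).mono_set Set.Ico_subset_Icc_self

section G

variable {V : Type} [Fintype V] [DecidableEq V] {G : SimpleGraph V} [Fintype G.edgeSet]
  [DecidableEq G.edgeSet] [DecidableRel G.Adj] {x : G.edgeSet → ℝ}

omit [Fintype V] [DecidableEq V] [Fintype G.edgeSet] [DecidableEq G.edgeSet] in
private lemma FcB_xm_zero {b c : V} (h : ¬ G.Adj b c) : xm x b c = 0 := by
  unfold xm
  rw [dif_neg h]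

/-- **the recursion.** Write `X = xm x`, `a = ∑ v ∈ A, X b v = wA x A b`. By `fr_le`, `loop_ge`
(with `B = BS (insert b A)`), `pair_ge` (with `B = BS (insert b (insert c A))`, for `c ∉ A ∪ {b}`
with `G.Adj b c`; both sides are zero if `b`, `c` are not adjacent), dropping the nonnegative terms
`gn`, `th * wA x A c`:
`fr ≤ 1 - ∫ r^2 [(1 - ρ) (1 + th a - y1) + ∑_{c ∉ A ∪ {b}} X b c (1 + th a - y2)]`
`= 1 - ∫ r^2 (1 - a) (1 + th a) + ∫ r^2 [(1 - ρ) y1 + ∑_{c ∉ A ∪ {b}} X b c y2]`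
as `(1 - ρ) + ∑_{c ∉ A ∪ {b}} X b c = 1 - a`. By `int_r2`, `int_r2th` the first two terms are
`1 - (1 - a) ((1 - r) + a (1 - r - r th)) = r + psi t a`. The sum over `c` is extended to all `c`
(`y2_nonneg`). Integrability: `den_int`, `RCRS.integrableOn_mul_pf` (left), continuity on the unit
interval (right: `y1_cont`, `y2_cont`). -/
theorem rec_fr (hx : IsFractionalMatching G x) : Rec (xm x) (fr x) := by
  intro A b hb BS hBSc hBSn hBS t ht
  have : ∀ i, IsProbabilityMeasure (lawA x i) := law_prob hx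
  have W := wm hx
  have hρ : 0 ≤ 1 - ∑ d, xm x b d := by
    have := W.row b
    linarith
  have hw : ∀ c, 0 ≤ wA x A c := fun c => Finset.sum_nonneg fun v _ => W.nn c v
  obtain ⟨a, ha⟩ : ∃ a, a = wA x A b := ⟨_, rfl⟩
  obtain ⟨Y1, hY1⟩ : ∃ Y1 : ℝ → ℝ, Y1 = y1 (xm x) (BS (insert b A)) b := ⟨_, rfl⟩
  obtain ⟨Y2, hY2⟩ : ∃ Y2 : V → ℝ → ℝ,
    Y2 = fun c => y2 (xm x) (BS (insert b (insert c A))) b c := ⟨_, rfl⟩
  have c1 : ContinuousOn Y1 (Set.Icc 0 1) := by
    rw [hY1]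
    exact y1_cont W (hBSc _) b
  have c2 : ∀ c, ContinuousOn (Y2 c) (Set.Icc 0 1) := fun c => by
    rw [hY2]
    exact y2_cont W (hBSc _) b c
  have n2 : ∀ c, ∀ s ∈ Set.Icc (0 : ℝ) 1, 0 ≤ Y2 c s := fun c s hs => by
    rw [hY2]
    exact y2_nonneg W (hBSn _) b c hs
  have cr := r_cont
  have cth := th_cont
  have cL0 : ContinuousOn (fun s => (1 - ∑ d, xm x b d) * (r s ^ 2 * (1 + th s * a - Y1 s)))
      (Set.Icc 0 1) := by fun_prop
  have cL : ∀ c, ContinuousOn (fun s => xm x b c * (r s ^ 2 * (1 + th s * a - Y2 c s)))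
      (Set.Icc 0 1) := fun c => by
    have := c2 c
    fun_prop
  have hden : ∀ i, IntegrableOn (denA x i) (Set.Ico 0 t) := fun i =>
    (den_int hx i).mono_set (Set.Ico_subset_Ico_right ht.2)
  -- the loop
  have hl : ∫ s in (0 : ℝ)..t, (1 - ∑ d, xm x b d) * (r s ^ 2 * (1 + th s * a - Y1 s)) ≤
      ∫ s in Set.Ico (0 : ℝ) t, denA x (Sum.inr b) s *
          pf (ends G) (lawA x) ((av G A).erase (Sum.inr b)) {b} s := by
    rw [← FcB_ico ht.1]
    refine setIntegral_mono_on (FcB_int cL0 ht.2)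
      (integrableOn_mul_pf (ends G) (lawA x) (hden _) _ _) measurableSet_Ico fun s hs => ?_
    have h1 := loop_ge hx hb (BS (insert b A)) (hBSc _) (hBSn _)
      (fun d hd u hu => hBS (insert b A) (Finset.ssubset_insert hb) d hd u hu)
      (s := s) ⟨hs.1, hs.2.trans_le ht.2⟩
    rw [ha, hY1]
    exact h1
  -- the edges
  have he : ∀ c ∈ (insert b A)ᶜ,
      ∫ s in (0 : ℝ)..t, xm x b c * (r s ^ 2 * (1 + th s * a - Y2 c s)) ≤
      (if h : G.Adj b c then ∫ s in Set.Ico (0 : ℝ) t,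
            denA x (Sum.inl (ed h)) s *
              pf (ends G) (lawA x) ((av G A).erase (Sum.inl (ed h))) {b, c} s else 0) := by
    intro c hc
    rw [Finset.mem_compl, Finset.mem_insert, not_or] at hc
    by_cases h : G.Adj b c
    · rw [dif_pos h, ← FcB_ico ht.1]
      refine setIntegral_mono_on (FcB_int (cL c) ht.2)
        (integrableOn_mul_pf (ends G) (lawA x) (hden _) _ _) measurableSet_Ico fun s hs => ?_
      have hbc : b ∉ insert c A := by
        rw [Finset.mem_insert, not_or]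
        exact ⟨h.ne, hb⟩
      have hs1 : s ≤ 1 := hs.2.le.trans ht.2
      have h1 := pair_ge hx hb hc.2 h (BS (insert b (insert c A))) (hBSc _) (hBSn _)
        (fun d hd u hu => hBS (insert b (insert c A))
          (Finset.ssubset_of_subset_of_ssubset (Finset.subset_insert c A)
            (Finset.ssubset_insert hbc)) d hd u hu)
        (s := s) ⟨hs.1, hs.2.trans_le ht.2⟩
      refine le_trans ?_ h1
      rw [ha, hY2]
      have h2 : 0 ≤ gn (xm x b c) s := gn_nonneg (W.nn b c) (le_one W b c) hs.1 hs1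
      have h3 : 0 ≤ th s * wA x A c := mul_nonneg (th_nonneg hs.1) (hw c)
      refine mul_le_mul_of_nonneg_left ?_ (W.nn b c)
      refine mul_le_mul_of_nonneg_left ?_ (sq_nonneg _)
      linarith
    · rw [dif_neg h, FcB_xm_zero h]
      simp
  have hfr := fr_le hx hb ht
  have hS := Finset.sum_le_sum he
  have hsumI : ∫ s in (0 : ℝ)..t, ((1 - ∑ d, xm x b d) * (r s ^ 2 * (1 + th s * a - Y1 s))
        + ∑ c ∈ (insert b A)ᶜ, xm x b c * (r s ^ 2 * (1 + th s * a - Y2 c s))) =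
      (∫ s in (0 : ℝ)..t, (1 - ∑ d, xm x b d) * (r s ^ 2 * (1 + th s * a - Y1 s)))
        + ∑ c ∈ (insert b A)ᶜ,
          ∫ s in (0 : ℝ)..t, xm x b c * (r s ^ 2 * (1 + th s * a - Y2 c s)) := by
    rw [intervalIntegral.integral_add (ii cL0 ht)
      (ii (continuousOn_finsetSum _ fun c _ => cL c) ht),
      intervalIntegral.integral_finsetSum fun c _ => ii (cL c) ht]
  have cY : ContinuousOn (fun s => (1 - ∑ d, xm x b d) * Y1 s + ∑ c, xm x b c * Y2 c s)
      (Set.Icc 0 1) :=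
    (continuousOn_const.mul c1).add
      (continuousOn_finsetSum _ fun c _ => continuousOn_const.mul (c2 c))
  have crY : ContinuousOn (fun s => r s ^ 2 * ((1 - ∑ d, xm x b d) * Y1 s + ∑ c, xm x b c * Y2 c s))
      (Set.Icc 0 1) := (cr.pow 2).mul cY
  have cf1 : ContinuousOn (fun s => (1 - a) * r s ^ 2) (Set.Icc 0 1) := by fun_prop
  have cf2 : ContinuousOn (fun s => (1 - a) * a * (r s ^ 2 * th s)) (Set.Icc 0 1) := by fun_prop
  have hrow : (1 - ∑ d, xm x b d) + ∑ c ∈ (insert b A)ᶜ, xm x b c = 1 - a := by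
    have h1 : ∑ d, xm x b d = ∑ d ∈ insert b A, xm x b d + ∑ c ∈ (insert b A)ᶜ, xm x b c :=
      (Finset.sum_add_sum_compl _ _).symm
    rw [h1, Finset.sum_insert hb, W.diag b, ha]
    unfold wA
    ring
  have hmono : ∫ s in (0 : ℝ)..t, ((1 - a) * r s ^ 2 + (1 - a) * a * (r s ^ 2 * th s)
        - r s ^ 2 * ((1 - ∑ d, xm x b d) * Y1 s + ∑ c, xm x b c * Y2 c s)) ≤
      ∫ s in (0 : ℝ)..t, ((1 - ∑ d, xm x b d) * (r s ^ 2 * (1 + th s * a - Y1 s))
        + ∑ c ∈ (insert b A)ᶜ, xm x b c * (r s ^ 2 * (1 + th s * a - Y2 c s))) := by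
    refine int_mono ((cf1.add cf2).sub crY)
      (cL0.add (continuousOn_finsetSum _ fun c _ => cL c)) ht fun s hs => ?_
    have hs1 : s ∈ Set.Icc (0 : ℝ) 1 := ⟨hs.1, hs.2.trans ht.2⟩
    have h1 : ∑ c ∈ (insert b A)ᶜ, xm x b c * (r s ^ 2 * (1 + th s * a - Y2 c s)) =
        r s ^ 2 * (1 + th s * a) * ∑ c ∈ (insert b A)ᶜ, xm x b c
          - r s ^ 2 * ∑ c ∈ (insert b A)ᶜ, xm x b c * Y2 c s := by
      rw [Finset.mul_sum, Finset.mul_sum, ← Finset.sum_sub_distrib]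
      refine Finset.sum_congr rfl fun c _ => by ring
    have h2 : ∑ c ∈ (insert b A)ᶜ, xm x b c * Y2 c s ≤ ∑ c, xm x b c * Y2 c s :=
      Finset.sum_le_sum_of_subset_of_nonneg (Finset.subset_univ _)
        fun c _ _ => mul_nonneg (W.nn b c) (n2 c s hs1)
    have h3 := mul_le_mul_of_nonneg_left h2 (sq_nonneg (r s))
    have h4 : ∑ c ∈ (insert b A)ᶜ, xm x b c = 1 - a - (1 - ∑ d, xm x b d) := by
      rw [← hrow]; ring
    show (1 - a) * r s ^ 2 + (1 - a) * a * (r s ^ 2 * th s)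
        - r s ^ 2 * ((1 - ∑ d, xm x b d) * Y1 s + ∑ c, xm x b c * Y2 c s) ≤
      (1 - ∑ d, xm x b d) * (r s ^ 2 * (1 + th s * a - Y1 s))
        + ∑ c ∈ (insert b A)ᶜ, xm x b c * (r s ^ 2 * (1 + th s * a - Y2 c s))
    rw [h1, h4]
    linear_combination h3
  have cf12 : ContinuousOn (fun s => (1 - a) * r s ^ 2 + (1 - a) * a * (r s ^ 2 * th s))
      (Set.Icc 0 1) := cf1.add cf2
  have hval : ∫ s in (0 : ℝ)..t, ((1 - a) * r s ^ 2 + (1 - a) * a * (r s ^ 2 * th s)
        - r s ^ 2 * ((1 - ∑ d, xm x b d) * Y1 s + ∑ c, xm x b c * Y2 c s)) =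
      (1 - a) * (1 - r t) + (1 - a) * a * (1 - r t - r t * th t)
        - ∫ s in (0 : ℝ)..t, r s ^ 2 * ((1 - ∑ d, xm x b d) * Y1 s + ∑ c, xm x b c * Y2 c s) := by
    rw [intervalIntegral.integral_sub (ii cf12 ht) (ii crY ht),
      intervalIntegral.integral_add (ii cf1 ht) (ii cf2 ht),
      intervalIntegral.integral_const_mul, intervalIntegral.integral_const_mul,
      int_r2 ht.1, int_r2th ht.1]
  have hwa : ∑ v ∈ A, xm x b v = a := by rw [ha]; rfl
  have hgoal : fr x A b t ≤ r t + psi t a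
      + ∫ s in (0 : ℝ)..t, r s ^ 2 * ((1 - ∑ d, xm x b d) * Y1 s + ∑ c, xm x b c * Y2 c s) := by
    rw [hval, hsumI] at hmono
    have hpsi : 1 - ((1 - a) * (1 - r t) + (1 - a) * a * (1 - r t - r t * th t)) =
        r t + psi t a := by
      unfold psi
      ring
    linarith
  rw [hwa]
  rw [hY1, hY2] at hgoal
  exact hgoal

end G

end Pool.Agent.AVH
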