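import Pool.Agent.AVH.Nra

/-! The sums of the gains (MP_73ccd0_lc, average version). -/

namespace Pool.Agent.AVH

open MeasureTheory Finset intervalIntegral

section M

variable {V : Type} [Fintype V] [DecidableEq V] {X : V → V → ℝ}

/-- the gain of a pair -/
noncomputable def gain (X : V → V → ℝ) (b c : V) : ℝ :=
  X b c * ∫ s in (0 : ℝ)..1, r s ^ 2 * gn (X b c) s

/-- the loss of a pair -/
noncomputable def loss (X : V → V → ℝ) (n : ℕ) (b c : V) : ℝ :=
  X b c * ∫ s in (0 : ℝ)..1, r s ^ 2 * y2 X (BF X n b c) b c s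

private theorem FiA_one : (1 : ℝ) ∈ Set.Icc (0 : ℝ) 1 := ⟨zero_le_one, le_refl 1⟩

theorem lowb_eq (hX : Wm X) (n : ℕ) (b c : V) :
    lowb X (BF X n b c) b c = X b c / 2 + gain X b c - loss X n b c := by
  unfold lowb gain loss
  have h1 : IntervalIntegrable (fun s => r s ^ 2 * gn (X b c) s) volume 0 1 :=
    ii ((r_cont.pow 2).mul (gn_cont _ (hX.nn b c))) FiA_one
  have h2 : IntervalIntegrable (fun s => r s ^ 2 * y2 X (BF X n b c) b c s) volume 0 1 :=
    ii ((r_cont.pow 2).mul (y2_cont hX (fun d => BF_cont n b c d) b c)) FiA_one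
  have h3 : (∫ s in (0 : ℝ)..1, r s ^ 2 * (gn (X b c) s - y2 X (BF X n b c) b c s))
      = (∫ s in (0 : ℝ)..1, r s ^ 2 * gn (X b c) s)
        - ∫ s in (0 : ℝ)..1, r s ^ 2 * y2 X (BF X n b c) b c s := by
    rw [← intervalIntegral.integral_sub h1 h2]
    congr 1
    ext s
    ring
  rw [h3]
  ring

theorem gain_nonneg (hX : Wm X) (b c : V) : 0 ≤ gain X b c := by
  refine mul_nonneg (hX.nn b c) (int_nonneg FiA_one ?_)
  intro s hs
  exact mul_nonneg (sq_nonneg _) (gn_nonneg (hX.nn b c) (le_one hX b c) hs.1 hs.2)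

theorem loss_nonneg (hX : Wm X) (n : ℕ) (b c : V) : 0 ≤ loss X n b c := by
  refine mul_nonneg (hX.nn b c) (int_nonneg FiA_one ?_)
  intro s hs
  exact mul_nonneg (sq_nonneg _)
    (y2_nonneg hX (fun d u hu => BF_nonneg hX n b c d hu) b c hs)

private theorem FiA_pair (hX : Wm X) (b c : V) :
    (1 - Real.log 2) * X b c ^ 2 - (3 / 2 - 2 * Real.log 2) * X b c ^ 3 ≤ gain X b c := by
  have hx := hX.nn b c
  have h1 : IntervalIntegrable (fun s => (2 * X b c) * (r s ^ 2 * th s)) volume 0 1 :=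
    ii (((r_cont.pow 2).mul th_cont).const_mul _) FiA_one
  have h2 : IntervalIntegrable (fun s => (X b c ^ 2) * (r s ^ 2 * s ^ 2)) volume 0 1 :=
    ii (((r_cont.pow 2).mul (continuous_pow 2).continuousOn).const_mul _) FiA_one
  have h3 : (∫ s in (0 : ℝ)..1, ((2 * X b c) * (r s ^ 2 * th s)
        - (X b c ^ 2) * (r s ^ 2 * s ^ 2)))
      = (2 * X b c) * (1 / 2 - Real.log 2 / 2) - X b c ^ 2 * (3 / 2 - 2 * Real.log 2) := by
    rw [intervalIntegral.integral_sub h1 h2, intervalIntegral.integral_const_mul,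
      intervalIntegral.integral_const_mul, c_gain1, c_gain2]
  have h4 : (∫ s in (0 : ℝ)..1, ((2 * X b c) * (r s ^ 2 * th s)
        - (X b c ^ 2) * (r s ^ 2 * s ^ 2))) ≤ ∫ s in (0 : ℝ)..1, r s ^ 2 * gn (X b c) s := by
    refine int_mono ?_ ?_ FiA_one ?_
    · exact (((r_cont.pow 2).mul th_cont).const_mul _).sub
        (((r_cont.pow 2).mul (continuous_pow 2).continuousOn).const_mul _)
    · exact (r_cont.pow 2).mul (gn_cont _ hx)
    · intro s hs
      have h5 : lam (X b c * s) ≤ (X b c * s) ^ 2 := lam_le (mul_nonneg hx hs.1)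
      have h6 : 0 ≤ r s ^ 2 := sq_nonneg _
      unfold gn
      nlinarith [mul_le_mul_of_nonneg_left h5 h6]
  have h7 := mul_le_mul_of_nonneg_left h4 hx
  rw [h3] at h7
  unfold gain
  refine le_trans (le_of_eq ?_) h7
  ring

/-- `gn x s = 2 x th s - lam (x s) ≥ 2 x th s - x^2 s^2`, `c_gain1`, `c_gain2` -/
theorem gain_sum (hX : Wm X) :
    (1 - Real.log 2) * Nk X 2 - (3 / 2 - 2 * Real.log 2) * Nk X 3 ≤ ∑ b, ∑ c, gain X b c := by
  unfold Nk
  rw [Finset.mul_sum, Finset.mul_sum, ← Finset.sum_sub_distrib]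
  refine Finset.sum_le_sum ?_
  intro b _
  rw [Finset.mul_sum, Finset.mul_sum, ← Finset.sum_sub_distrib]
  exact Finset.sum_le_sum (fun c _ => FiA_pair hX b c)

end M

end Pool.Agent.AVH
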