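import Pool.Agent.AVH.FiA

/-! The sum of the losses (MP_73ccd0_lc, average version). -/

namespace Pool.Agent.AVH

open MeasureTheory Finset intervalIntegral

section M

variable {V : Type} [Fintype V] [DecidableEq V] {X : V → V → ℝ}

private theorem FiB_lin {f g : ℝ → ℝ} (hf : ContinuousOn f (Set.Icc 0 1))
    (hg : ContinuousOn g (Set.Icc 0 1)) {t : ℝ} (ht : t ∈ Set.Icc (0 : ℝ) 1) (a : ℝ) :
    ∫ s in (0 : ℝ)..t, (a * f s + g s) = a * (∫ s in (0 : ℝ)..t, f s) + ∫ s in (0 : ℝ)..t, g s := by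
  rw [intervalIntegral.integral_add ((ii hf ht).const_mul a) (ii hg ht),
    intervalIntegral.integral_const_mul]

private theorem FiB_lin2 {f g : ℝ → ℝ} (hf : ContinuousOn f (Set.Icc 0 1))
    (hg : ContinuousOn g (Set.Icc 0 1)) {t : ℝ} (ht : t ∈ Set.Icc (0 : ℝ) 1) (a b : ℝ) :
    ∫ s in (0 : ℝ)..t, (a * f s + b * g s)
      = a * (∫ s in (0 : ℝ)..t, f s) + b * ∫ s in (0 : ℝ)..t, g s := by
  have k : ContinuousOn (fun s => b * g s) (Set.Icc 0 1) := continuousOn_const.mul hg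
  rw [FiB_lin hf k ht a, intervalIntegral.integral_const_mul]

private theorem FiB_lin5 {f1 f2 f3 f4 f5 : ℝ → ℝ} (h1 : ContinuousOn f1 (Set.Icc 0 1))
    (h2 : ContinuousOn f2 (Set.Icc 0 1)) (h3 : ContinuousOn f3 (Set.Icc 0 1))
    (h4 : ContinuousOn f4 (Set.Icc 0 1)) (h5 : ContinuousOn f5 (Set.Icc 0 1))
    {t : ℝ} (ht : t ∈ Set.Icc (0 : ℝ) 1) (a1 a2 a3 a4 a5 : ℝ) :
    ∫ s in (0 : ℝ)..t, (a1 * f1 s + (a2 * f2 s + (a3 * f3 s + (a4 * f4 s + a5 * f5 s))))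
      = a1 * (∫ s in (0 : ℝ)..t, f1 s) + (a2 * (∫ s in (0 : ℝ)..t, f2 s)
        + (a3 * (∫ s in (0 : ℝ)..t, f3 s) + (a4 * (∫ s in (0 : ℝ)..t, f4 s)
        + a5 * ∫ s in (0 : ℝ)..t, f5 s))) := by
  have k4 : ContinuousOn (fun s => a4 * f4 s + a5 * f5 s) (Set.Icc 0 1) :=
    (continuousOn_const.mul h4).add (continuousOn_const.mul h5)
  have k3 : ContinuousOn (fun s => a3 * f3 s + (a4 * f4 s + a5 * f5 s)) (Set.Icc 0 1) :=
    (continuousOn_const.mul h3).add k4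
  have k2 : ContinuousOn (fun s => a2 * f2 s + (a3 * f3 s + (a4 * f4 s + a5 * f5 s)))
      (Set.Icc 0 1) := (continuousOn_const.mul h2).add k3
  rw [FiB_lin h1 k2 ht a1, FiB_lin h2 k3 ht a2, FiB_lin h3 k4 ht a3, FiB_lin2 h4 h5 ht a4 a5]

private theorem FiB_lin7 {f1 f2 f3 f4 f5 f6 f7 : ℝ → ℝ} (h1 : ContinuousOn f1 (Set.Icc 0 1))
    (h2 : ContinuousOn f2 (Set.Icc 0 1)) (h3 : ContinuousOn f3 (Set.Icc 0 1))
    (h4 : ContinuousOn f4 (Set.Icc 0 1)) (h5 : ContinuousOn f5 (Set.Icc 0 1))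
    (h6 : ContinuousOn f6 (Set.Icc 0 1)) (h7 : ContinuousOn f7 (Set.Icc 0 1))
    {t : ℝ} (ht : t ∈ Set.Icc (0 : ℝ) 1) (a1 a2 a3 a4 a5 a6 a7 : ℝ) :
    ∫ s in (0 : ℝ)..t, (a1 * f1 s + (a2 * f2 s + (a3 * f3 s + (a4 * f4 s + (a5 * f5 s
        + (a6 * f6 s + a7 * f7 s))))))
      = a1 * (∫ s in (0 : ℝ)..t, f1 s) + (a2 * (∫ s in (0 : ℝ)..t, f2 s)
        + (a3 * (∫ s in (0 : ℝ)..t, f3 s) + (a4 * (∫ s in (0 : ℝ)..t, f4 s)
        + (a5 * (∫ s in (0 : ℝ)..t, f5 s) + (a6 * (∫ s in (0 : ℝ)..t, f6 s)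
        + a7 * ∫ s in (0 : ℝ)..t, f7 s))))) := by
  have k6 : ContinuousOn (fun s => a6 * f6 s + a7 * f7 s) (Set.Icc 0 1) :=
    (continuousOn_const.mul h6).add (continuousOn_const.mul h7)
  have k5 : ContinuousOn (fun s => a5 * f5 s + (a6 * f6 s + a7 * f7 s)) (Set.Icc 0 1) :=
    (continuousOn_const.mul h5).add k6
  have k4 : ContinuousOn (fun s => a4 * f4 s + (a5 * f5 s + (a6 * f6 s + a7 * f7 s)))
      (Set.Icc 0 1) := (continuousOn_const.mul h4).add k5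
  have k3 : ContinuousOn (fun s => a3 * f3 s + (a4 * f4 s + (a5 * f5 s + (a6 * f6 s
      + a7 * f7 s)))) (Set.Icc 0 1) := (continuousOn_const.mul h3).add k4
  have k2 : ContinuousOn (fun s => a2 * f2 s + (a3 * f3 s + (a4 * f4 s + (a5 * f5 s
      + (a6 * f6 s + a7 * f7 s))))) (Set.Icc 0 1) := (continuousOn_const.mul h2).add k3
  rw [FiB_lin h1 k2 ht a1, FiB_lin h2 k3 ht a2, FiB_lin h3 k4 ht a3, FiB_lin h4 k5 ht a4,
    FiB_lin h5 k6 ht a5, FiB_lin2 h6 h7 ht a6 a7]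

/-- the integrand of the second part of the loss of a pair -/
private noncomputable def FiB_F (X : V → V → ℝ) (n : ℕ) (b c d : V) (u : ℝ) : ℝ :=
  (hz (X b d) u + hz (X c d) u) * BF X n b c d u

private theorem FiB_F_cont (n : ℕ) (b c d : V) :
    ContinuousOn (FiB_F X n b c d) (Set.Icc 0 1) := by
  unfold FiB_F
  exact (((hz_cont _).add (hz_cont _)).continuousOn).mul (BF_cont n b c d)

/-- the sum of the integrands -/
private noncomputable def FiB_G (X : V → V → ℝ) (n : ℕ) (u : ℝ) : ℝ :=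
  ∑ b, ∑ c, X b c * ∑ d ∈ ({b, c} : Finset V)ᶜ, FiB_F X n b c d u

private theorem FiB_G_cont (n : ℕ) : ContinuousOn (FiB_G X n) (Set.Icc 0 1) := by
  unfold FiB_G
  refine continuousOn_finsetSum _ fun b _ => continuousOn_finsetSum _ fun c _ => ?_
  exact continuousOn_const.mul (continuousOn_finsetSum _ fun d _ => FiB_F_cont n b c d)

private theorem FiB_swap (n : ℕ) {s : ℝ} (hs : s ∈ Set.Icc (0 : ℝ) 1) :
    ∑ b, ∑ c, X b c * ∑ d ∈ ({b, c} : Finset V)ᶜ, ∫ u in (0 : ℝ)..s, FiB_F X n b c d u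
      = ∫ u in (0 : ℝ)..s, FiB_G X n u := by
  unfold FiB_G
  rw [intervalIntegral.integral_finsetSum]
  · refine Finset.sum_congr rfl fun b _ => ?_
    rw [intervalIntegral.integral_finsetSum]
    · refine Finset.sum_congr rfl fun c _ => ?_
      rw [intervalIntegral.integral_const_mul, intervalIntegral.integral_finsetSum]
      intro d _
      exact ii (FiB_F_cont n b c d) hs
    · intro c _
      exact ii (continuousOn_const.mul (continuousOn_finsetSum _ fun d _ => FiB_F_cont n b c d)) hs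
  · intro b _
    refine ii (continuousOn_finsetSum _ fun c _ => ?_) hs
    exact continuousOn_const.mul (continuousOn_finsetSum _ fun d _ => FiB_F_cont n b c d)

/-- the bound of the sum of the integrands -/
private noncomputable def FiB_H (X : V → V → ℝ) (u : ℝ) : ℝ :=
  (4 * (Nk X 2 - Nk X 3)) * (r u * th u) + ((8 * (Nk X 3 - Nk X 4)) * (1 - r u - r u * th u)
    + ((4 * (Nk X 3 - Nk X 4)) * (u * (r u * th u))
    + ((8 * (Nk X 3 - Nk X 4)) * (u * (1 - r u - r u * th u))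
    + Nk X 2 * (6 * ph u + 2 * ze u))))

private theorem FiB_rth : ContinuousOn (fun u => r u * th u) (Set.Icc 0 1) := r_cont.mul th_cont

private theorem FiB_c2 : ContinuousOn (fun u => 1 - r u - r u * th u) (Set.Icc 0 1) :=
  (continuousOn_const.sub r_cont).sub FiB_rth

private theorem FiB_pz : ContinuousOn (fun u => 6 * ph u + 2 * ze u) (Set.Icc 0 1) :=
  ((continuous_const.mul ph_cont).add (continuous_const.mul ze_cont)).continuousOn

omit [DecidableEq V] in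
private theorem FiB_H_cont : ContinuousOn (FiB_H X) (Set.Icc 0 1) := by
  unfold FiB_H
  exact (continuousOn_const.mul FiB_rth).add ((continuousOn_const.mul FiB_c2).add
    ((continuousOn_const.mul (continuousOn_id.mul FiB_rth)).add
    ((continuousOn_const.mul (continuousOn_id.mul FiB_c2)).add (continuousOn_const.mul FiB_pz))))

private theorem FiB_GH (hX : Wm X) (n : ℕ) {u : ℝ} (hu : u ∈ Set.Icc (0 : ℝ) 1) :
    FiB_G X n u ≤ FiB_H X u := by
  have hα : 0 ≤ r u * th u := mul_nonneg (r_pos hu.1).le (th_nonneg hu.1)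
  have hβ : 0 ≤ 1 - r u - r u * th u := psi_c2_nonneg hu.1
  have h1 := fin_sum1 hX hα hβ hu
  have h2 := fin_sum2 hX (M := fun d b => R2 X n d b u) (fun d v => R2_nonneg hX n d v hu) hu
  have h2' := R2_Lk hX n hu
  have h3 := fin_sum3 hX (z := fun d => Z X n d u) (fun d => Z_nonneg hX n d hu) hu
  have h3' := Z_sum hX n hu
  have h4 : FiB_G X n u = (∑ b, ∑ c, X b c * ∑ d ∈ ({b, c} : Finset V)ᶜ,
        (hz (X b d) u + hz (X c d) u) *
          ((r u * th u) * (X d b + X d c) + (1 - r u - r u * th u) * (X d b + X d c) ^ 2))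
      + (∑ b, ∑ c, X b c * ∑ d ∈ ({b, c} : Finset V)ᶜ,
        (hz (X b d) u + hz (X c d) u) * (R2 X n d b u + R2 X n d c u))
      + (∑ b, ∑ c, X b c * ∑ d ∈ ({b, c} : Finset V)ᶜ,
        (hz (X b d) u + hz (X c d) u) * Z X n d u) := by
    unfold FiB_G
    rw [← Finset.sum_add_distrib, ← Finset.sum_add_distrib]
    refine Finset.sum_congr rfl fun b _ => ?_
    rw [← Finset.sum_add_distrib, ← Finset.sum_add_distrib]
    refine Finset.sum_congr rfl fun c _ => ?_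
    rw [← mul_add, ← mul_add, ← Finset.sum_add_distrib, ← Finset.sum_add_distrib]
    congr 1
    refine Finset.sum_congr rfl fun d _ => ?_
    unfold FiB_F BF psi
    ring
  rw [h4]
  unfold FiB_H
  linarith

omit [DecidableEq V] in
private theorem FiB_H_int {s : ℝ} (hs : s ∈ Set.Icc (0 : ℝ) 1) :
    ∫ u in (0 : ℝ)..s, FiB_H X u = 2 * (Nk X 2 - Nk X 3) * th s ^ 2
      + (Nk X 3 - Nk X 4) * (4 * s ^ 2 + 4 * s - 4 * ((1 + s) * th s) - 2 * th s ^ 2)
      + Nk X 2 * ∫ u in (0 : ℝ)..s, (6 * ph u + 2 * ze u) := by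
  unfold FiB_H
  have k3 : ContinuousOn (fun u : ℝ => u * (r u * th u)) (Set.Icc 0 1) :=
    continuousOn_id.mul FiB_rth
  have k4 : ContinuousOn (fun u : ℝ => u * (1 - r u - r u * th u)) (Set.Icc 0 1) :=
    continuousOn_id.mul FiB_c2
  rw [FiB_lin5 FiB_rth FiB_c2 k3 k4 FiB_pz hs, int_rth hs.1, int_c2 hs.1, int_c3 hs.1,
    int_c4 hs.1]
  ring

/-- the sum of the losses at time `s` -/
private noncomputable def FiB_Y (X : V → V → ℝ) (n : ℕ) (s : ℝ) : ℝ :=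
  ∑ b, ∑ c, X b c * y2 X (BF X n b c) b c s

private theorem FiB_Y_le (hX : Wm X) (n : ℕ) {s : ℝ} (hs : s ∈ Set.Icc (0 : ℝ) 1) :
    FiB_Y X n s ≤ (s - th s) * (2 * (Nk X 2 - Nk X 3)) + (2 * (Nk X 2 - Nk X 3) * th s ^ 2
      + (Nk X 3 - Nk X 4) * (4 * s ^ 2 + 4 * s - 4 * ((1 + s) * th s) - 2 * th s ^ 2)
      + Nk X 2 * ∫ u in (0 : ℝ)..s, (6 * ph u + 2 * ze u)) := by
  have h1 : FiB_Y X n s = (s - th s) * (∑ b, ∑ c, X b c * ∑ d ∈ ({b, c} : Finset V)ᶜ,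
      (X b d ^ 2 + X c d ^ 2)) + ∫ u in (0 : ℝ)..s, FiB_G X n u := by
    rw [← FiB_swap n hs, Finset.mul_sum, ← Finset.sum_add_distrib]
    unfold FiB_Y
    refine Finset.sum_congr rfl fun b _ => ?_
    rw [Finset.mul_sum, ← Finset.sum_add_distrib]
    refine Finset.sum_congr rfl fun c _ => ?_
    unfold y2 FiB_F
    ring
  have h2 := sum_pk hX (k := 2) (by norm_num)
  have h3 : (s - th s) * (∑ b, ∑ c, X b c * ∑ d ∈ ({b, c} : Finset V)ᶜ,
      (X b d ^ 2 + X c d ^ 2)) ≤ (s - th s) * (2 * (Nk X 2 - Nk X 3)) :=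
    mul_le_mul_of_nonneg_left h2 (sth_nonneg hs.1)
  have h4 : ∫ u in (0 : ℝ)..s, FiB_G X n u ≤ ∫ u in (0 : ℝ)..s, FiB_H X u :=
    int_mono (FiB_G_cont n) FiB_H_cont hs
      (fun u hu => FiB_GH hX n ⟨hu.1, hu.2.trans hs.2⟩)
  rw [FiB_H_int hs] at h4
  rw [h1]
  linarith

private theorem FiB_loss (hX : Wm X) (n : ℕ) :
    ∑ b, ∑ c, loss X n b c = ∫ s in (0 : ℝ)..1, r s ^ 2 * FiB_Y X n s := by
  have h1 : (1 : ℝ) ∈ Set.Icc (0 : ℝ) 1 := ⟨by norm_num, le_rfl⟩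
  have hc : ∀ b c : V, ContinuousOn (fun s => X b c * (r s ^ 2 * y2 X (BF X n b c) b c s))
      (Set.Icc 0 1) := fun b c =>
    continuousOn_const.mul ((r_cont.pow 2).mul (y2_cont hX (fun d => BF_cont n b c d) b c))
  have h2 : ∀ s, r s ^ 2 * FiB_Y X n s
      = ∑ b, ∑ c, X b c * (r s ^ 2 * y2 X (BF X n b c) b c s) := by
    intro s
    unfold FiB_Y
    rw [Finset.mul_sum]
    refine Finset.sum_congr rfl fun b _ => ?_
    rw [Finset.mul_sum]
    refine Finset.sum_congr rfl fun c _ => ?_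
    ring
  simp only [h2]
  rw [intervalIntegral.integral_finsetSum]
  · refine Finset.sum_congr rfl fun b _ => ?_
    rw [intervalIntegral.integral_finsetSum]
    · refine Finset.sum_congr rfl fun c _ => ?_
      rw [intervalIntegral.integral_const_mul]
      rfl
    · intro c _
      exact ii (hc b c) h1
  · intro b _
    exact ii (continuousOn_finsetSum _ fun c _ => hc b c) h1

/-- **the sum of the losses** (`L = log 2`): with `y2` written out,
`∑_b ∑_c X b c y2 ≤ (s - th) 2 (N2 - N3) + ∫_0^s [4 r th (N2 - N3) + (8 (1 - r - r th) + 4 u r th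
+ 8 u (1 - r - r th)) (N3 - N4) + N2 (6 ph + 2 ze)] du` by `sum_pk`, `fin_sum1` (`α = r th`,
`β = 1 - r - r th`), `fin_sum2` + `R2_Lk`, `fin_sum3` + `Z_sum`. Integrals: `int_rth`, `int_c2`,
`int_c3`, `int_c4`, with
`8 (s - th - th^2/2) + 4 ((1+s) th - s - th^2/2) + 8 (s^2/2 - s th + th^2/2)
= 4 s^2 + 4 s - 4 th - 4 s th - 2 th^2 = 4 s^2 + 4 s - 4 (1 + s) th - 2 th^2`;
then against `r^2`: `c_loss1`: `2 (3/2 L - 1) = 3 L - 2`; `4 ∫ r^2 th^2/2 = 2 (1 - L - L^2/2)`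
(`int_r2th2` at 1: `2 - (L^2 + 2 L + 2)/2`); `∫ r^2 (4 s^2 + 4 s - 4 (1+s) th - 2 th^2)
= 4 (3/2 - 2 L) + 4 (L - 1/2) - 2 L^2 - 2 (1 - L - L^2/2) = 2 - 2 L - L^2`
(`∫ r^2 s^2 = c_gain2`, `∫ r^2 s = ∫ (r - r^2) = L - 1/2`, `∫ r th = L^2/2`), and
`2 (1 - L - L^2/2) = 2 - 2 L - L^2` too; `ps_ok` for the last part. -/
theorem loss_sum (hX : Wm X) (n : ℕ) :
    ∑ b, ∑ c, loss X n b c ≤ (3 * Real.log 2 - 2) * (Nk X 2 - Nk X 3)
      + (2 - 2 * Real.log 2 - Real.log 2 ^ 2) * (Nk X 2 - Nk X 4) + 161 / 5000 * Nk X 2 := by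
  have h1 : (1 : ℝ) ∈ Set.Icc (0 : ℝ) 1 := ⟨by norm_num, le_rfl⟩
  rw [FiB_loss hX n]
  have hr2 : ContinuousOn (fun s => r s ^ 2) (Set.Icc 0 1) := r_cont.pow 2
  have k1 : ContinuousOn (fun s => r s ^ 2 * (s - th s)) (Set.Icc 0 1) :=
    hr2.mul (continuousOn_id.sub th_cont)
  have k2 : ContinuousOn (fun s => r s ^ 2 * th s ^ 2) (Set.Icc 0 1) := hr2.mul (th_cont.pow 2)
  have k3 : ContinuousOn (fun s => r s ^ 2 * s ^ 2) (Set.Icc 0 1) :=
    hr2.mul (continuousOn_id.pow 2)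
  have k7 : ContinuousOn (fun s => r s ^ 2 * ∫ u in (0 : ℝ)..s, (6 * ph u + 2 * ze u))
      (Set.Icc 0 1) := hr2.mul (prim_cont FiB_pz)
  have kY : ContinuousOn (fun s => r s ^ 2 * FiB_Y X n s) (Set.Icc 0 1) := by
    refine hr2.mul ?_
    unfold FiB_Y
    exact continuousOn_finsetSum _ fun b _ => continuousOn_finsetSum _ fun c _ =>
      continuousOn_const.mul (y2_cont hX (fun d => BF_cont n b c d) b c)
  set P := Nk X 2 - Nk X 3 with hP
  set Q := Nk X 3 - Nk X 4 with hQ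
  have kU : ContinuousOn (fun s => (2 * P) * (r s ^ 2 * (s - th s))
      + ((2 * P - 2 * Q) * (r s ^ 2 * th s ^ 2) + ((4 * Q) * (r s ^ 2 * s ^ 2)
      + ((4 * Q) * r s + ((-(4 * Q)) * r s ^ 2 + ((-(4 * Q)) * (r s * th s)
      + Nk X 2 * (r s ^ 2 * ∫ u in (0 : ℝ)..s, (6 * ph u + 2 * ze u)))))))) (Set.Icc 0 1) :=
    (continuousOn_const.mul k1).add ((continuousOn_const.mul k2).add
      ((continuousOn_const.mul k3).add ((continuousOn_const.mul r_cont).add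
      ((continuousOn_const.mul hr2).add ((continuousOn_const.mul FiB_rth).add
      (continuousOn_const.mul k7))))))
  have h2 := int_mono kY kU h1 (fun s hs => by
    have hs0 : (0 : ℝ) ≤ s := hs.1
    have h3 := mul_le_mul_of_nonneg_left (FiB_Y_le hX n hs) (sq_nonneg (r s))
    have h4 : r s * (1 + s) = 1 := by
      unfold r
      exact one_div_mul_cancel (by linarith)
    refine h3.trans (le_of_eq ?_)
    rw [← hP, ← hQ]
    have e1 : r s ^ 2 * s = r s - r s ^ 2 := by linear_combination (r s) * h4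
    have e2 : r s ^ 2 * ((1 + s) * th s) = r s * th s := by linear_combination (r s * th s) * h4
    linear_combination (4 * Q) * e1 - (4 * Q) * e2)
  refine h2.trans ?_
  rw [FiB_lin7 k1 k2 k3 r_cont hr2 FiB_rth k7 h1, c_loss1, int_r2th2 zero_le_one, c_gain2,
    int_r zero_le_one, int_r2 zero_le_one, int_rth zero_le_one]
  have e1 : th 1 = Real.log 2 := by
    unfold th
    norm_num
  have e2 : r 1 = 1 / 2 := by
    unfold r
    norm_num
  rw [e1, e2]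
  have h5 : Nk X 2 * (∫ s in (0 : ℝ)..1, r s ^ 2 * ∫ u in (0 : ℝ)..s, (6 * ph u + 2 * ze u))
      ≤ Nk X 2 * (161 / 5000) := mul_le_mul_of_nonneg_left ps_ok (Nk_nonneg hX 2)
  have e3 : Nk X 2 - Nk X 4 = P + Q := by
    rw [hP, hQ]
    ring
  rw [e3]
  nlinarith [h5]

end M

end Pool.Agent.AVH
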