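import Pool.Agent.AVH.Tl

/-! Items: ends and the items which avoid a set (MP_73ccd0_lc, average version). -/

namespace Pool.Agent.AVH

open MeasureTheory Finset Pool.Agent.RCRS

section G

variable {V : Type} [Fintype V] [DecidableEq V] {G : SimpleGraph V} [Fintype G.edgeSet]
  [DecidableEq G.edgeSet] [DecidableRel G.Adj] {x : G.edgeSet → ℝ}

theorem ends_ed {b c : V} (h : G.Adj b c) : ends G (Sum.inl (ed h)) = {b, c} := by
  ext v
  simp [ends, ed, Sym2.mem_toFinset]

theorem ed_symm {b c : V} (h : G.Adj b c) : ed h.symm = ed h :=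
  Subtype.ext Sym2.eq_swap

theorem xm_of {b c : V} (h : G.Adj b c) : xm x b c = x (ed h) := by
  rw [xm, dif_pos h]

private theorem ItA_aux {A B : Finset V} {g0 : G.edgeSet ⊕ V} (hB : ends G g0 = B)
    (hne : B.Nonempty) :
    ((av G A).erase g0).filter (fun g => Disjoint (ends G g) B) = av G (B ∪ A) := by
  ext g
  simp only [av, mem_filter, mem_erase, mem_univ, true_and, disjoint_union_right]
  constructor
  · rintro ⟨⟨_, h1⟩, h2⟩
    exact ⟨h2, h1⟩
  · rintro ⟨h2, h1⟩
    refine ⟨⟨?_, h1⟩, h2⟩
    rintro rfl
    rw [hB, disjoint_self_iff_empty] at h2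
    exact hne.ne_empty h2

/-- the remaining items after the deletion of `{b, c}` -/
theorem av_pair {A : Finset V} {b c : V} (h : G.Adj b c) :
    ((av G A).erase (Sum.inl (ed h))).filter (fun g => Disjoint (ends G g) ({b, c} : Finset V))
      = av G (insert b (insert c A)) := by
  rw [ItA_aux (ends_ed h) (insert_nonempty _ _), insert_union, singleton_union]

theorem av_loop {A : Finset V} {b : V} :
    ((av G A).erase (Sum.inr b)).filter (fun g => Disjoint (ends G g) ({b} : Finset V))
      = av G (insert b A) := by
  rw [ItA_aux (G := G) (g0 := Sum.inr b) (B := {b}) rfl (singleton_nonempty _), singleton_union]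

theorem av_empty : av G ∅ = Finset.univ := by
  ext g
  simp [av]

end G

end Pool.Agent.AVH
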