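import Pool.Agent.AVH.Ti

/-! The ring laws of all items and the scheme (MP_73ccd0_lc, average version).

Model: `Pool/Agent/RCRS/Laws.lean` (`ringLaw_mixture`, `ringLaw_edge`, `ringLaw_loop`) and
`Pool/Agent/RCRS/Setup.lean` (`ringLaws`, `exists_scheme`). -/

namespace Pool.Agent.AVH

open MeasureTheory Finset Pool.Agent.RCRS

section G

variable {V : Type} [Fintype V] [DecidableEq V] {G : SimpleGraph V} [Fintype G.edgeSet]
  [DecidableEq G.edgeSet] [DecidableRel G.Adj] {x : G.edgeSet → ℝ}

/-- `r` with its primitive `th` is a profile (derivative: `th_deriv`) -/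
theorem prof : Profile r th where
  meas := r_meas
  nonneg := fun t ht => (r_pos ht.1).le
  le_one := fun t ht => r_le_one ht.1
  measN := th_meas
  cont := th_cont
  zero := th_zero
  deriv := ⟨∅, Set.countable_empty, fun t ht => th_deriv (by linarith [ht.1.1])⟩

theorem acc_meas (e : G.edgeSet) : Measurable (acc x e) := by
  unfold acc
  refine measurable_cut (Continuous.measurable ?_)
  fun_prop

theorem acc_nonneg (hx : IsFractionalMatching G x) (e : G.edgeSet) (t : ℝ) : 0 ≤ acc x e t := by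
  unfold acc cut
  by_cases ht : t ∈ Set.Ico (0 : ℝ) 1
  · rw [Set.indicator_of_mem ht]
    have h1 : 0 ≤ x e * t := mul_nonneg (hx.1 e).1 ht.1
    have h2 := (Real.exp_pos (-(x e * t + x e ^ 2 * t ^ 2 / 2))).le
    exact mul_nonneg (by linarith) h2
  · rw [Set.indicator_of_notMem ht]

/-- `(1 + y) exp (-(y + y^2/2)) ≤ 1` as `1 + y ≤ exp y` -/
theorem acc_le_one (hx : IsFractionalMatching G x) (e : G.edgeSet) (t : ℝ) : acc x e t ≤ 1 := by
  unfold acc cut
  by_cases ht : t ∈ Set.Ico (0 : ℝ) 1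
  · rw [Set.indicator_of_mem ht]
    have h1 : 0 ≤ x e * t := mul_nonneg (hx.1 e).1 ht.1
    have h2 : 1 + x e * t ≤ Real.exp (x e * t + x e ^ 2 * t ^ 2 / 2) := by
      have h3 := Real.add_one_le_exp (x e * t)
      have h4 : Real.exp (x e * t) ≤ Real.exp (x e * t + x e ^ 2 * t ^ 2 / 2) :=
        Real.exp_le_exp.2 (by have : 0 ≤ x e ^ 2 * t ^ 2 / 2 := by positivity
                              linarith)
      linarith
    calc (1 + x e * t) * Real.exp (-(x e * t + x e ^ 2 * t ^ 2 / 2))
        ≤ Real.exp (x e * t + x e ^ 2 * t ^ 2 / 2) *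
          Real.exp (-(x e * t + x e ^ 2 * t ^ 2 / 2)) :=
          mul_le_mul_of_nonneg_right h2 (Real.exp_pos _).le
      _ = 1 := by rw [← Real.exp_add, add_neg_cancel, Real.exp_zero]
  · rw [Set.indicator_of_notMem ht]; norm_num

/-- the primitive of the hazard -/
private theorem law_int_hz (y : ℝ) {τ : ℝ} (hτ : 0 ≤ τ) :
    ∫ t in Set.Ico 0 τ, hz y t = y * τ + y ^ 2 * τ ^ 2 / 2 := by
  rw [integral_Ico_eq_integral_Ioc, ← intervalIntegral.integral_of_le hτ]
  have hd : ∀ t ∈ Set.uIcc 0 τ, HasDerivAt (fun t => y * t + y ^ 2 * t ^ 2 / 2) (hz y t) t := by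
    intro t _
    have h1 : HasDerivAt (fun t : ℝ => y * t) (y * 1) t := (hasDerivAt_id t).const_mul y
    have h2 : HasDerivAt (fun t : ℝ => y ^ 2 * t ^ 2 / 2) (y ^ 2 * (2 * t) / 2) t := by
      have := (((hasDerivAt_pow 2 t).const_mul (y ^ 2)).div_const 2)
      simpa using this
    refine (h1.add h2).congr_deriv ?_
    unfold hz
    ring
  rw [intervalIntegral.integral_eq_sub_of_hasDerivAt hd ((hz_cont y).intervalIntegrable _ _)]
  simp

/-- the primitive of the density -/
private theorem law_int_den (y : ℝ) {τ : ℝ} (hτ : 0 ≤ τ) :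
    ∫ t in Set.Ico 0 τ, y * ((1 + y * t) * Real.exp (-(y * t + y ^ 2 * t ^ 2 / 2))) =
      1 - Real.exp (-(y * τ + y ^ 2 * τ ^ 2 / 2)) := by
  rw [integral_Ico_eq_integral_Ioc, ← intervalIntegral.integral_of_le hτ]
  have hd : ∀ t ∈ Set.uIcc 0 τ, HasDerivAt (fun t => -Real.exp (-(y * t + y ^ 2 * t ^ 2 / 2)))
      (y * ((1 + y * t) * Real.exp (-(y * t + y ^ 2 * t ^ 2 / 2)))) t := by
    intro t _
    have h1 : HasDerivAt (fun t : ℝ => y * t) (y * 1) t := (hasDerivAt_id t).const_mul y
    have h2 : HasDerivAt (fun t : ℝ => y ^ 2 * t ^ 2 / 2) (y ^ 2 * (2 * t) / 2) t := by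
      have := (((hasDerivAt_pow 2 t).const_mul (y ^ 2)).div_const 2)
      simpa using this
    have h3 : HasDerivAt (fun t : ℝ => -(y * t + y ^ 2 * t ^ 2 / 2))
        (-(y * 1 + y ^ 2 * (2 * t) / 2)) t := (h1.add h2).neg
    refine h3.exp.neg.congr_deriv ?_
    ring
  rw [intervalIntegral.integral_eq_sub_of_hasDerivAt hd
    (Continuous.intervalIntegrable (by fun_prop) _ _)]
  simp
  ring

/-- `ringLaw_mixture`: the derivative of `- exp (-(x t + x^2 t^2/2))` is
`x (1 + x t) exp (-(x t + x^2 t^2/2))`, the primitive of `hz x` is `x t + x^2 t^2/2`;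
`ringLaw_edge` is the model of the proof -/
theorem ring_edge (hx : IsFractionalMatching G x) (e : G.edgeSet) :
    RingLaw (mixture (x e) (acc x e)) (fun t => x e * acc x e t) (cut fun t => hz (x e) t) := by
  refine ringLaw_mixture (hx.1 e).1 (acc_meas e) (acc_nonneg hx e) (acc_le_one hx e)
    (measurable_cut (hz_cont (x e)).measurable) ?_ ?_ ?_
  · intro t
    unfold cut
    by_cases ht : t ∈ Set.Ico (0 : ℝ) 1
    · rw [Set.indicator_of_mem ht]
      exact hz_nonneg (hx.1 e).1 ht.1
    · rw [Set.indicator_of_notMem ht]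
  · have h2 : IntegrableOn (fun t => hz (x e) t) (Set.Ico 0 1) :=
      ((hz_cont (x e)).integrableOn_Icc).mono_set Set.Ico_subset_Icc_self
    refine h2.congr_fun (fun t ht => ?_) measurableSet_Ico
    rw [cut_of_mem ht]
  · intro τ hτ
    rw [integral_cut _ hτ.2, law_int_hz _ hτ.1, ← law_int_den _ hτ.1]
    refine setIntegral_congr_fun measurableSet_Ico fun t ht => ?_
    show x e * acc x e t = _
    unfold acc
    rw [cut_of_mem ⟨ht.1, ht.2.trans_le hτ.2⟩]

theorem law_prob (hx : IsFractionalMatching G x) (i : G.edgeSet ⊕ V) :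
    IsProbabilityMeasure (lawA x i) := by
  rcases i with e | v
  · exact mixture_prob (hx.1 e).1 (hx.1 e).2 (acc_meas e)
  · exact lawV_prob prof v

/-- edges: `ring_edge`; loops: `ringLaw_loop prof (defect_nonneg hx v) (defect_le_one hx v)` -/
theorem ring_all (hx : IsFractionalMatching G x) (i : G.edgeSet ⊕ V) :
    RingLaw (lawA x i) (denA x i) (hazA x i) := by
  rcases i with e | v
  · exact ring_edge hx e
  · exact ringLaw_loop prof (defect_nonneg hx v) (defect_le_one hx v)

/-- the densities are bounded and measurable -/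
theorem den_int (hx : IsFractionalMatching G x) (i : G.edgeSet ⊕ V) :
    IntegrableOn (denA x i) (Set.Ico 0 1) :=
  (ring_all hx i).φ_int

theorem den_nonneg (hx : IsFractionalMatching G x) (i : G.edgeSet ⊕ V) (t : ℝ) :
    0 ≤ denA x i t :=
  (ring_all hx i).φ_nonneg t

/-- the scheme; `RCRS.exists_scheme` is the model, then `prob_sel` with `A = univ`, `s = 1` -/
theorem exists_scheme (hx : IsFractionalMatching G x) :
    ∃ S : Scheme G, ∀ e, S.selProb x e = ∫ t in Set.Ico (0 : ℝ) 1,
      denA x (Sum.inl e) t * pf (ends G) (lawA x) (Finset.univ.erase (Sum.inl e))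
        (ends G (Sum.inl e)) t := by
  haveI : ∀ v, IsProbabilityMeasure (lawV x r th v) := fun v => lawV_prob prof v
  haveI : ∀ i, IsProbabilityMeasure (lawA x i) := fun i => law_prob hx i
  haveI : ∀ i, SigmaFinite (laws (acc x) x (lawV x r th) i) := fun i =>
    (inferInstance : SigmaFinite (lawA x i))
  refine ⟨scheme (acc x) (fun e => acc_meas e) (lawV x r th), fun e => ?_⟩
  have h1 := scheme_selProb (fun e => acc_meas (x := x) e) x hx.1 (lawV x r th) e
  have h2 := prob_sel (ends G) (lawA x) (denA x) (hazA x) (ring_all hx) Finset.univ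
    (Sum.inl e) (Finset.mem_univ _) le_rfl
  exact h1.trans h2

end G

end Pool.Agent.AVH
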