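import Pool.Agent.AVH.Edg

/-! The main theorem (MP_73ccd0_lc, average version). -/

namespace Pool.Agent.AVH

open MeasureTheory Finset Pool.Agent.RCRS

section G

variable {V : Type} [Fintype V] [DecidableEq V] {G : SimpleGraph V} [Fintype G.edgeSet]
  [DecidableEq G.edgeSet] {x : G.edgeSet → ℝ}

/-- an automorphism of the graph which preserves the weights preserves the matrix -/
theorem xm_iso [DecidableRel G.Adj] (g : G ≃g G)
    (hg : ∀ e : G.edgeSet, x (g.mapEdgeSet e) = x e) (u v : V) :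
    xm x (g u) (g v) = xm x u v := by
  unfold xm
  by_cases h : G.Adj u v
  · have h' : G.Adj (g u) (g v) := g.map_adj_iff.2 h
    rw [dif_pos h, dif_pos h', ← hg (ed h)]
    rfl
  · have h' : ¬ G.Adj (g u) (g v) := fun h' => h (g.map_adj_iff.1 h')
    rw [dif_neg h, dif_neg h']

theorem main (hx : IsFractionalMatching G x) :
    ∃ S : Scheme G,
      (∀ (κ : ℝ) (w : G.edgeSet → ℝ), 1 ≤ κ → κ ≤ 5 / 4 → (∀ e, 1 ≤ w e ∧ w e ≤ κ) →
        1 / 2 * ∑ e, w e * x e + 4 / 17 * (5 / 4 - κ) * ∑ e, x e ^ 2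
          ≤ ∑ e, w e * S.selProb x e) ∧
      ((∀ e f : G.edgeSet, 0 < x e → 0 < x f → ∃ g : G ≃g G,
          (∀ e' : G.edgeSet, x (g.mapEdgeSet e') = x e') ∧ g.mapEdgeSet e = f) →
        ∀ e, x e / 2 + x e ^ 2 / 17 ≤ S.selProb x e) ∧
      ((∀ u v : V, ∃ g : G ≃g G, (∀ e' : G.edgeSet, x (g.mapEdgeSet e') = x e') ∧ g u = v) →
        ∀ v : V, 1 / 2 * (∑ e : G.edgeSet, if v ∈ (e : Sym2 V) then x e else 0)
            + 1 / 17 * (∑ e : G.edgeSet, if v ∈ (e : Sym2 V) then x e ^ 2 else 0)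
          ≤ ∑ e : G.edgeSet, if v ∈ (e : Sym2 V) then S.selProb x e else 0) := by
  classical
  obtain ⟨S, hS⟩ := exists_lowb hx
  have hp0 : ∀ e, 0 ≤ S.selProb x e := by
    intro e
    unfold Scheme.selProb
    refine div_nonneg (Finset.sum_nonneg fun π _ => Finset.sum_nonneg fun X _ => ?_)
      (Nat.cast_nonneg _)
    refine mul_nonneg (Finset.prod_nonneg fun f _ => ?_) measureReal_nonneg
    split_ifs
    · exact (hx.1 f).1
    · linarith [(hx.1 f).2]
  refine ⟨S, ?_, ?_, ?_⟩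
  · intro κ w h1 h2 hw
    exact avg hx (fun {b c} h => hS h) h1 h2 w hw
  · intro ht e
    refine edge_trans hx hp0 (fun {b c} h => hS h) ?_ e
    intro b c b' c' h h'
    have ha : G.Adj b c := by
      by_contra hn
      simp [xm, hn] at h
    have ha' : G.Adj b' c' := by
      by_contra hn
      simp [xm, hn] at h'
    rw [xm_of ha] at h
    rw [xm_of ha'] at h'
    obtain ⟨g, hg, hgf⟩ := ht (ed ha) (ed ha') h h'
    refine ⟨g.toEquiv, fun u v => xm_iso g hg u v, ?_⟩
    have := congrArg Subtype.val hgf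
    exact this
  · intro ht v
    refine vert_trans hx (fun {b c} h => hS h) ?_ v
    intro b b'
    obtain ⟨g, hg, hgf⟩ := ht b b'
    exact ⟨g.toEquiv, fun u v => xm_iso g hg u v, hgf⟩

end G

end Pool.Agent.AVH
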