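import Pool.Agent.AVH.Yc

/-! The kernel inequality (MP_73ccd0_lc, average version). -/

namespace Pool.Agent.AVH

open MeasureTheory Finset intervalIntegral

section M

variable {V : Type} [Fintype V] [DecidableEq V] {X : V → V → ℝ}

omit [DecidableEq V] in
private theorem MsA_le_one (hX : Wm X) (v w : V) : X v w ≤ 1 :=
  (Finset.single_le_sum (fun i _ => hX.nn v i) (Finset.mem_univ w)).trans (hX.row v)

private theorem MsA_compl (S : Finset V) (g : V → ℝ) :
    ∑ d ∈ Sᶜ, g d = ∑ d, if d ∈ S then 0 else g d := by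
  have h : Sᶜ = Finset.univ.filter (fun d => ¬ d ∈ S) := by
    ext d
    simp
  rw [h, Finset.sum_filter]
  apply Finset.sum_congr rfl
  intro d _
  by_cases hd : d ∈ S
  · rw [if_neg (not_not.mpr hd), if_pos hd]
  · rw [if_pos hd, if_neg hd]

/-- **the kernel inequality**: the coefficient of `w d` (`d ≠ b`) is
`hz (X b d) u ((1 - ρ_b) + ∑_{c ≠ d} X b c) + ∑_{c ≠ d} X b c hz (X c d) u
= hz (X b d) u (1 - X b d) + ∑_{c ≠ d} X b c hz (X c d) u ≤ X b d + 2 ∑_c X b c X c d`
because `(1 + y u) (1 - y) ≤ 1` and `hz y u ≤ 2 y`; the coefficient of `w b` is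
`∑_{c} X b c * (hz + hz) [b ∉ {b, c}] = 0`. -/
theorem ker_le (hX : Wm X) (b : V) {u : ℝ} (hu : u ∈ Set.Icc (0 : ℝ) 1) (w : V → ℝ)
    (hw : ∀ d, 0 ≤ w d) :
    (1 - ∑ d, X b d) * ∑ d ∈ ({b} : Finset V)ᶜ, hz (X b d) u * w d
      + ∑ c, X b c * ∑ d ∈ ({b, c} : Finset V)ᶜ, (hz (X b d) u + hz (X c d) u) * w d
      ≤ ∑ d, Kk X b d * w d := by
  obtain ⟨hu0, hu1⟩ := hu
  have hz_le : ∀ v d, hz (X v d) u ≤ 2 * X v d := by
    intro v d
    have h0 := hX.nn v d
    have h1 := MsA_le_one hX v d
    unfold hz
    have h2 : X v d * u ≤ 1 * 1 := mul_le_mul h1 hu1 hu0 zero_le_one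
    nlinarith
  have hz_sub : ∀ v d, (1 - X v d) * hz (X v d) u ≤ X v d := by
    intro v d
    have h0 := hX.nn v d
    have h1 := MsA_le_one hX v d
    unfold hz
    have h2 : X v d * u ≤ X v d * 1 := mul_le_mul_of_nonneg_left hu1 h0
    have h3 : (1 - X v d) * (1 + X v d * u) ≤ 1 := by
      have h4 : (1 - X v d) * (X v d * u) ≤ (1 - X v d) * (X v d * 1) :=
        mul_le_mul_of_nonneg_left h2 (by linarith)
      nlinarith
    calc (1 - X v d) * (X v d * (1 + X v d * u)) = X v d * ((1 - X v d) * (1 + X v d * u)) := by ring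
      _ ≤ X v d * 1 := mul_le_mul_of_nonneg_left h3 h0
      _ = X v d := mul_one _
  rw [MsA_compl, Finset.mul_sum]
  simp_rw [MsA_compl, Finset.mul_sum]
  rw [Finset.sum_comm (f := fun c d => X b c * (if d ∈ ({b, c} : Finset V) then 0
    else (hz (X b d) u + hz (X c d) u) * w d)), ← Finset.sum_add_distrib]
  apply Finset.sum_le_sum
  intro d _
  have hK : 0 ≤ Kk X b d := by
    unfold Kk
    have h1 : 0 ≤ ∑ c, X b c * X c d := Finset.sum_nonneg (fun c _ => mul_nonneg (hX.nn _ _) (hX.nn _ _))
    linarith [hX.nn b d]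
  by_cases hdb : d = b
  · subst hdb
    have h1 : ∑ c, X d c * (if d ∈ ({d, c} : Finset V) then 0
        else (hz (X d d) u + hz (X c d) u) * w d) = 0 := by
      apply Finset.sum_eq_zero
      intro c _
      rw [if_pos (by simp), mul_zero]
    rw [h1, if_pos (by simp)]
    have := mul_nonneg hK (hw d)
    linarith
  · rw [if_neg (by simpa using hdb)]
    have h1 : ∑ c, X b c * (if d ∈ ({b, c} : Finset V) then 0
        else (hz (X b d) u + hz (X c d) u) * w d) ≤
        ∑ c, (X b c * (if c = d then 0 else hz (X b d) u * w d) + 2 * (X b c * X c d) * w d) := by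
      apply Finset.sum_le_sum
      intro c _
      have h0 := hX.nn b c
      have h0' := hX.nn c d
      by_cases hcd : c = d
      · rw [if_pos hcd, if_pos (by rw [hcd]; simp)]
        have : 0 ≤ 2 * (X b c * X c d) * w d := by
          have := hw d
          positivity
        linarith
      · rw [if_neg hcd, if_neg (by
          rw [Finset.mem_insert, Finset.mem_singleton]
          rintro (h | h)
          · exact hdb h
          · exact hcd h.symm)]
        have h2 : X b c * (hz (X c d) u * w d) ≤ X b c * (2 * X c d * w d) := by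
          apply mul_le_mul_of_nonneg_left _ h0
          exact mul_le_mul_of_nonneg_right (hz_le c d) (hw d)
        linarith
    have h2 : ∑ c, (X b c * (if c = d then 0 else hz (X b d) u * w d) + 2 * (X b c * X c d) * w d) =
        (∑ c, X b c - X b d) * (hz (X b d) u * w d) + 2 * (∑ c, X b c * X c d) * w d := by
      rw [Finset.sum_add_distrib]
      congr 1
      · have h3 : ∀ c, X b c * (if c = d then 0 else hz (X b d) u * w d) =
            X b c * (hz (X b d) u * w d) - (if c = d then X b c * (hz (X b d) u * w d) else 0) := by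
          intro c
          split_ifs <;> ring
        simp_rw [h3]
        rw [Finset.sum_sub_distrib, Finset.sum_ite_eq' Finset.univ d, if_pos (Finset.mem_univ d),
          ← Finset.sum_mul]
        ring
      · rw [Finset.mul_sum, Finset.sum_mul]
    rw [h2] at h1
    unfold Kk
    have h3 : (1 - X b d) * hz (X b d) u * w d ≤ X b d * w d :=
      mul_le_mul_of_nonneg_right (hz_sub b d) (hw d)
    linarith

end M

end Pool.Agent.AVH
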