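import Pool.Agent.AVH.Rz
import Pool.Agent.AVH.MsA

/-! The integrand of the main step (MP_73ccd0_lc, average version). -/

namespace Pool.Agent.AVH

open MeasureTheory Finset intervalIntegral

section M

variable {V : Type} [Fintype V] [DecidableEq V] {X : V → V → ℝ}

omit [Fintype V] in
private lemma MsB_sum_insert (A : Finset V) (b : V) (f : V → ℝ) (hf : 0 ≤ f b) :
    ∑ v ∈ insert b A, f v ≤ f b + ∑ v ∈ A, f v := by
  by_cases h : b ∈ A
  · rw [Finset.insert_eq_of_mem h]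
    linarith
  · rw [Finset.sum_insert h]

omit [DecidableEq V] in
private lemma MsB_alg (w : V → ℝ) (k : ℝ) (S T : V → ℝ) :
    ∑ c, w c * (k * S c + T c) = k * ∑ c, w c * S c + ∑ c, w c * T c := by
  rw [Finset.mul_sum, ← Finset.sum_add_distrib]
  exact Finset.sum_congr rfl fun c _ => by ring

/-- **the integrand of the main step.** Let `M d v = Mm X n d v`. For `v ∈ insert b A` the sum
in `BB X n (insert b A) d` is at most `M d b + ∑_{v ∈ A} M d v`, in
`BB X n (insert b (insert c A)) d` at most `M d b + M d c + ∑_{v ∈ A} M d v`. So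
`(1 - ρ) y1 + ∑ X b c y2 ≤ (s - th s) qq X b + ∫_0^s (Tt X M b u + [kernel of ker_le applied to
w d = ∑_{v ∈ A} M d v u + Z X n d u])`. -/
theorem step_pt (hX : Wm X) (n : ℕ) (A : Finset V) (b : V) {s : ℝ}
    (hs : s ∈ Set.Icc (0 : ℝ) 1) :
    (1 - ∑ d, X b d) * y1 X (BB X n (insert b A)) b s
        + ∑ c, X b c * y2 X (BB X n (insert b (insert c A))) b c s
      ≤ ((s - th s) * qq X b + ∫ u in (0 : ℝ)..s,
          (Tt X (fun d v => Mm X n d v u) b u + ∑ d, Kk X b d * Z X n d u))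
        + ∑ v ∈ A, ∫ u in (0 : ℝ)..s, ∑ d, Kk X b d * ((1 - r u) * X d v + R2 X n d v u) := by
  have hρ : 0 ≤ 1 - ∑ d, X b d := by
    have := hX.row b
    linarith
  have cF1 : ∀ d, ContinuousOn (fun u => hz (X b d) u * BB X n (insert b A) d u)
      (Set.Icc 0 1) := fun d => (hz_cont _).continuousOn.mul (BB_cont _ _ _)
  have cF2 : ∀ c d, ContinuousOn (fun u => (hz (X b d) u + hz (X c d) u) *
      BB X n (insert b (insert c A)) d u) (Set.Icc 0 1) := fun c d =>
    ((hz_cont _).continuousOn.add (hz_cont _).continuousOn).mul (BB_cont _ _ _)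
  have cS1 : ContinuousOn (fun u => ∑ d ∈ ({b} : Finset V)ᶜ,
      hz (X b d) u * BB X n (insert b A) d u) (Set.Icc 0 1) :=
    continuousOn_finsetSum _ fun d _ => cF1 d
  have cS2 : ∀ c, ContinuousOn (fun u => ∑ d ∈ ({b, c} : Finset V)ᶜ,
      (hz (X b d) u + hz (X c d) u) * BB X n (insert b (insert c A)) d u) (Set.Icc 0 1) :=
    fun c => continuousOn_finsetSum _ fun d _ => cF2 c d
  have cL1 : ContinuousOn (fun u => (1 - ∑ d, X b d) * ∑ d ∈ ({b} : Finset V)ᶜ,
      hz (X b d) u * BB X n (insert b A) d u) (Set.Icc 0 1) := continuousOn_const.mul cS1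
  have cL2c : ∀ c, ContinuousOn (fun u => X b c * ∑ d ∈ ({b, c} : Finset V)ᶜ,
      (hz (X b d) u + hz (X c d) u) * BB X n (insert b (insert c A)) d u) (Set.Icc 0 1) :=
    fun c => continuousOn_const.mul (cS2 c)
  have cL2 : ContinuousOn (fun u => ∑ c, X b c * ∑ d ∈ ({b, c} : Finset V)ᶜ,
      (hz (X b d) u + hz (X c d) u) * BB X n (insert b (insert c A)) d u) (Set.Icc 0 1) :=
    continuousOn_finsetSum _ fun c _ => cL2c c
  have e1 : (1 - ∑ d, X b d) * y1 X (BB X n (insert b A)) b s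
        + ∑ c, X b c * y2 X (BB X n (insert b (insert c A))) b c s =
      (s - th s) * qq X b + ∫ u in (0 : ℝ)..s,
        ((1 - ∑ d, X b d) * (∑ d ∈ ({b} : Finset V)ᶜ, hz (X b d) u * BB X n (insert b A) d u)
        + ∑ c, X b c * ∑ d ∈ ({b, c} : Finset V)ᶜ,
          (hz (X b d) u + hz (X c d) u) * BB X n (insert b (insert c A)) d u) := by
    rw [intervalIntegral.integral_add (ii cL1 hs) (ii cL2 hs),
      intervalIntegral.integral_const_mul,
      intervalIntegral.integral_finsetSum fun d _ => ii (cF1 d) hs,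
      intervalIntegral.integral_finsetSum fun c _ => ii (cL2c c) hs]
    have e2 : ∀ c, ∫ u in (0 : ℝ)..s, X b c * ∑ d ∈ ({b, c} : Finset V)ᶜ,
          (hz (X b d) u + hz (X c d) u) * BB X n (insert b (insert c A)) d u =
        X b c * ∑ d ∈ ({b, c} : Finset V)ᶜ, ∫ u in (0 : ℝ)..s,
          (hz (X b d) u + hz (X c d) u) * BB X n (insert b (insert c A)) d u := fun c => by
      rw [intervalIntegral.integral_const_mul,
        intervalIntegral.integral_finsetSum fun d _ => ii (cF2 c d) hs]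
    rw [Finset.sum_congr rfl fun c _ => e2 c]
    unfold y1 y2 qq
    rw [MsB_alg]
    ring
  have cT : ContinuousOn (fun u => Tt X (fun d v => Mm X n d v u) b u) (Set.Icc 0 1) :=
    Tt_cont (fun d v => Mm_cont n d v) b
  have cKZ : ContinuousOn (fun u => ∑ d, Kk X b d * Z X n d u) (Set.Icc 0 1) :=
    continuousOn_finsetSum _ fun d _ => continuousOn_const.mul (Z_cont n d)
  have cTZ : ContinuousOn (fun u => Tt X (fun d v => Mm X n d v u) b u
      + ∑ d, Kk X b d * Z X n d u) (Set.Icc 0 1) := cT.add cKZ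
  have cM : ∀ v, ContinuousOn (fun u => ∑ d, Kk X b d * ((1 - r u) * X d v + R2 X n d v u))
      (Set.Icc 0 1) := fun v =>
    continuousOn_finsetSum _ fun d _ => continuousOn_const.mul (Mm_cont n d v)
  have cMs : ContinuousOn (fun u => ∑ v ∈ A, ∑ d, Kk X b d * ((1 - r u) * X d v + R2 X n d v u))
      (Set.Icc 0 1) := continuousOn_finsetSum _ fun v _ => cM v
  rw [e1, add_assoc]
  have e3 : (∫ u in (0 : ℝ)..s,
          (Tt X (fun d v => Mm X n d v u) b u + ∑ d, Kk X b d * Z X n d u))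
        + ∑ v ∈ A, ∫ u in (0 : ℝ)..s, ∑ d, Kk X b d * ((1 - r u) * X d v + R2 X n d v u) =
      ∫ u in (0 : ℝ)..s, ((Tt X (fun d v => Mm X n d v u) b u + ∑ d, Kk X b d * Z X n d u)
        + ∑ v ∈ A, ∑ d, Kk X b d * ((1 - r u) * X d v + R2 X n d v u)) := by
    rw [intervalIntegral.integral_add (ii cTZ hs) (ii cMs hs),
      intervalIntegral.integral_finsetSum fun v _ => ii (cM v) hs]
  rw [e3]
  refine add_le_add le_rfl ?_
  refine int_mono (cL1.add cL2) (cTZ.add cMs) hs fun u hu => ?_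
  have hu1 : u ∈ Set.Icc (0 : ℝ) 1 := ⟨hu.1, hu.2.trans hs.2⟩
  obtain ⟨w, hw⟩ : ∃ w : V → ℝ, w = fun d => ∑ v ∈ A, Mm X n d v u + Z X n d u := ⟨_, rfl⟩
  have hM : ∀ d v, 0 ≤ Mm X n d v u := fun d v => Mm_nonneg hX n d v hu1
  have hw0 : ∀ d, 0 ≤ w d := fun d => by
    rw [hw]
    exact add_nonneg (Finset.sum_nonneg fun v _ => hM d v) (Z_nonneg hX n d hu1)
  have b1 : ∀ d, BB X n (insert b A) d u ≤ Mm X n d b u + w d := fun d => by
    have := MsB_sum_insert A b (fun v => Mm X n d v u) (hM d b)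
    rw [hw]
    unfold BB
    linarith
  have b2 : ∀ c d, BB X n (insert b (insert c A)) d u ≤ (Mm X n d b u + Mm X n d c u) + w d :=
    fun c d => by
    have h1 := MsB_sum_insert (insert c A) b (fun v => Mm X n d v u) (hM d b)
    have h2 := MsB_sum_insert A c (fun v => Mm X n d v u) (hM d c)
    rw [hw]
    unfold BB
    linarith
  have hz0 : ∀ v d, 0 ≤ hz (X v d) u := fun v d => hz_nonneg (hX.nn v d) hu1.1
  have k1 : ∑ d ∈ ({b} : Finset V)ᶜ, hz (X b d) u * BB X n (insert b A) d u ≤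
      ∑ d ∈ ({b} : Finset V)ᶜ, hz (X b d) u * Mm X n d b u
        + ∑ d ∈ ({b} : Finset V)ᶜ, hz (X b d) u * w d := by
    rw [← Finset.sum_add_distrib]
    refine Finset.sum_le_sum fun d _ => ?_
    rw [← mul_add]
    exact mul_le_mul_of_nonneg_left (b1 d) (hz0 b d)
  have k2 : ∀ c, ∑ d ∈ ({b, c} : Finset V)ᶜ, (hz (X b d) u + hz (X c d) u) *
        BB X n (insert b (insert c A)) d u ≤
      ∑ d ∈ ({b, c} : Finset V)ᶜ, (hz (X b d) u + hz (X c d) u) * (Mm X n d b u + Mm X n d c u)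
        + ∑ d ∈ ({b, c} : Finset V)ᶜ, (hz (X b d) u + hz (X c d) u) * w d := fun c => by
    rw [← Finset.sum_add_distrib]
    refine Finset.sum_le_sum fun d _ => ?_
    rw [← mul_add]
    exact mul_le_mul_of_nonneg_left (b2 c d) (add_nonneg (hz0 b d) (hz0 c d))
  have k3 := ker_le hX b hu1 w hw0
  have k4 : ∑ d, Kk X b d * w d = ∑ d, Kk X b d * Z X n d u
      + ∑ v ∈ A, ∑ d, Kk X b d * ((1 - r u) * X d v + R2 X n d v u) := by
    rw [Finset.sum_comm, ← Finset.sum_add_distrib]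
    refine Finset.sum_congr rfl fun d _ => ?_
    rw [hw, ← Finset.mul_sum]
    unfold Mm
    ring
  have k5 := mul_le_mul_of_nonneg_left k1 hρ
  have k6 : ∑ c, X b c * ∑ d ∈ ({b, c} : Finset V)ᶜ, (hz (X b d) u + hz (X c d) u) *
        BB X n (insert b (insert c A)) d u ≤
      (∑ c, X b c * ∑ d ∈ ({b, c} : Finset V)ᶜ, (hz (X b d) u + hz (X c d) u) *
        (Mm X n d b u + Mm X n d c u))
        + ∑ c, X b c * ∑ d ∈ ({b, c} : Finset V)ᶜ, (hz (X b d) u + hz (X c d) u) * w d := by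
    rw [← Finset.sum_add_distrib]
    refine Finset.sum_le_sum fun c _ => ?_
    rw [← mul_add]
    exact mul_le_mul_of_nonneg_left (k2 c) (hX.nn b c)
  have k7 : Tt X (fun d v => Mm X n d v u) b u =
      (1 - ∑ d, X b d) * ∑ d ∈ ({b} : Finset V)ᶜ, hz (X b d) u * Mm X n d b u
        + ∑ c, X b c * ∑ d ∈ ({b, c} : Finset V)ᶜ, (hz (X b d) u + hz (X c d) u) *
          (Mm X n d b u + Mm X n d c u) := rfl
  show (1 - ∑ d, X b d) * (∑ d ∈ ({b} : Finset V)ᶜ, hz (X b d) u * BB X n (insert b A) d u)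
        + ∑ c, X b c * ∑ d ∈ ({b, c} : Finset V)ᶜ,
          (hz (X b d) u + hz (X c d) u) * BB X n (insert b (insert c A)) d u ≤
      (Tt X (fun d v => Mm X n d v u) b u + ∑ d, Kk X b d * Z X n d u)
        + ∑ v ∈ A, ∑ d, Kk X b d * ((1 - r u) * X d v + R2 X n d v u)
  rw [k7]
  rw [k4] at k3
  rw [mul_add] at k5
  linarith

end M

end Pool.Agent.AVH
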