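import Pool.Agent.AVH.MsB

/-! The main step: the inequality behind the closure of the recursion (MP_73ccd0_lc, average version). -/

namespace Pool.Agent.AVH

open MeasureTheory Finset intervalIntegral

section M

variable {V : Type} [Fintype V] [DecidableEq V] {X : V → V → ℝ}

/-- **the main step**: `step_pt` integrated against `r^2` -/
theorem main_step (hX : Wm X) (n : ℕ) (A : Finset V) (b : V) {t : ℝ}
    (ht : t ∈ Set.Icc (0 : ℝ) 1) :
    ∫ s in (0 : ℝ)..t, r s ^ 2 * ((1 - ∑ d, X b d) * y1 X (BB X n (insert b A)) b s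
        + ∑ c, X b c * y2 X (BB X n (insert b (insert c A))) b c s)
      ≤ ∑ v ∈ A, R2 X (n + 1) b v t + Z X (n + 1) b t := by
  have hr2 : ContinuousOn (fun s => r s ^ 2) (Set.Icc 0 1) := r_cont.pow 2
  have hK : ∀ v : V, ContinuousOn (fun s => r s ^ 2 *
      ∫ u in (0 : ℝ)..s, ∑ d, Kk X b d * ((1 - r u) * X d v + R2 X n d v u)) (Set.Icc 0 1) := by
    intro v
    refine hr2.mul (prim_cont (continuousOn_finsetSum _ fun d _ => ?_))
    exact continuousOn_const.mul (((continuousOn_const.sub r_cont).mul continuousOn_const).add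
      (R2_cont n d v))
  have hZ : ContinuousOn (fun s => r s ^ 2 * ((s - th s) * qq X b + ∫ u in (0 : ℝ)..s,
      (Tt X (fun d v => Mm X n d v u) b u + ∑ d, Kk X b d * Z X n d u))) (Set.Icc 0 1) := by
    refine hr2.mul (((continuousOn_id.sub th_cont).mul continuousOn_const).add
      (prim_cont ((Tt_cont (fun d v => Mm_cont n d v) b).add
        (continuousOn_finsetSum _ fun d _ => continuousOn_const.mul (Z_cont n d)))))
  have hL : ContinuousOn (fun s => r s ^ 2 * ((1 - ∑ d, X b d) * y1 X (BB X n (insert b A)) b s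
        + ∑ c, X b c * y2 X (BB X n (insert b (insert c A))) b c s)) (Set.Icc 0 1) := by
    refine hr2.mul ((continuousOn_const.mul (y1_cont hX (fun d => BB_cont n _ d) b)).add
      (continuousOn_finsetSum _ fun c _ => continuousOn_const.mul
        (y2_cont hX (fun d => BB_cont n _ d) b c)))
  have e1 : Z X (n + 1) b t = ∫ s in (0 : ℝ)..t, r s ^ 2 * ((s - th s) * qq X b +
      ∫ u in (0 : ℝ)..s, (Tt X (fun d v => Mm X n d v u) b u + ∑ d, Kk X b d * Z X n d u)) := rfl
  have e2 : ∀ v, R2 X (n + 1) b v t = ∫ s in (0 : ℝ)..t, r s ^ 2 *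
      ∫ u in (0 : ℝ)..s, ∑ d, Kk X b d * ((1 - r u) * X d v + R2 X n d v u) := fun v => rfl
  have e3 : ∑ v ∈ A, R2 X (n + 1) b v t + Z X (n + 1) b t = ∫ s in (0 : ℝ)..t,
      (∑ v ∈ A, r s ^ 2 * (∫ u in (0 : ℝ)..s, ∑ d, Kk X b d *
        ((1 - r u) * X d v + R2 X n d v u)) + r s ^ 2 * ((s - th s) * qq X b +
      ∫ u in (0 : ℝ)..s, (Tt X (fun d v => Mm X n d v u) b u + ∑ d, Kk X b d * Z X n d u))) := by
    rw [intervalIntegral.integral_add
      (ii (continuousOn_finsetSum _ fun v _ => hK v) ht) (ii hZ ht),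
      intervalIntegral.integral_finsetSum fun v _ => ii (hK v) ht, e1]
    simp only [e2]
  rw [e3]
  refine int_mono hL ((continuousOn_finsetSum _ fun v _ => hK v).add hZ) ht ?_
  intro s hs
  have hs1 : s ∈ Set.Icc (0 : ℝ) 1 := ⟨hs.1, hs.2.trans ht.2⟩
  have h := mul_le_mul_of_nonneg_left (step_pt hX n A b hs1) (sq_nonneg (r s))
  refine h.trans (le_of_eq ?_)
  rw [mul_add, Finset.mul_sum, add_comm]
  rfl

end M

end Pool.Agent.AVH
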