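import Pool.Agent.AVH.Yc

/-! Continuity and signs of the functions of the recursion (MP_73ccd0_lc, average version). All
continuity statements: `prim_cont`, `r_cont`, `th_cont`, `hz_cont`, `continuousOn_finset_sum`; signs:
`int_nonneg`. Induction on `n`. -/

namespace Pool.Agent.AVH

open MeasureTheory Finset intervalIntegral

section M

variable {V : Type} [Fintype V] [DecidableEq V] {X : V → V → ℝ}

theorem Kk_nonneg (hX : Wm X) (b d : V) : 0 ≤ Kk X b d := by
  unfold Kk
  have h1 := hX.nn b d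
  have h2 : 0 ≤ ∑ c, X b c * X c d :=
    Finset.sum_nonneg fun c _ => mul_nonneg (hX.nn b c) (hX.nn c d)
  linarith

theorem R2_cont (n : ℕ) (b v : V) : ContinuousOn (R2 X n b v) (Set.Icc 0 1) := by
  induction n generalizing b v with
  | zero => exact continuousOn_const
  | succ n ih =>
    have h1 : ContinuousOn (fun u => ∑ d, Kk X b d * ((1 - r u) * X d v + R2 X n d v u))
        (Set.Icc 0 1) := by
      refine continuousOn_finsetSum _ fun d _ => ?_
      exact continuousOn_const.mul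
        (((continuousOn_const.sub r_cont).mul continuousOn_const).add (ih d v))
    exact prim_cont ((r_cont.pow 2).mul (prim_cont h1))

theorem R2_nonneg (hX : Wm X) (n : ℕ) (b v : V) {t : ℝ} (ht : t ∈ Set.Icc (0 : ℝ) 1) :
    0 ≤ R2 X n b v t := by
  induction n generalizing b v t with
  | zero => exact le_refl 0
  | succ n ih =>
    refine int_nonneg ht fun s hs => mul_nonneg (sq_nonneg _) ?_
    have hs1 : s ∈ Set.Icc (0 : ℝ) 1 := ⟨hs.1, hs.2.trans ht.2⟩
    refine int_nonneg hs1 fun u hu => Finset.sum_nonneg fun d _ => ?_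
    have h1 : r u ≤ 1 := r_le_one hu.1
    refine mul_nonneg (Kk_nonneg hX b d) (add_nonneg (mul_nonneg (by linarith) (hX.nn d v)) ?_)
    exact ih d v ⟨hu.1, hu.2.trans hs1.2⟩

theorem Mm_cont (n : ℕ) (b v : V) : ContinuousOn (Mm X n b v) (Set.Icc 0 1) :=
  ((continuousOn_const.sub r_cont).mul continuousOn_const).add (R2_cont n b v)

theorem Mm_nonneg (hX : Wm X) (n : ℕ) (b v : V) {t : ℝ} (ht : t ∈ Set.Icc (0 : ℝ) 1) :
    0 ≤ Mm X n b v t := by
  have h1 : r t ≤ 1 := r_le_one ht.1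
  exact add_nonneg (mul_nonneg (by linarith) (hX.nn b v)) (R2_nonneg hX n b v ht)

theorem qq_nonneg (hX : Wm X) (b : V) : 0 ≤ qq X b := by
  have h1 := hX.row b
  refine add_nonneg (mul_nonneg (by linarith) (Finset.sum_nonneg fun d _ => sq_nonneg _)) ?_
  refine Finset.sum_nonneg fun c _ => mul_nonneg (hX.nn b c) (Finset.sum_nonneg fun d _ => ?_)
  exact add_nonneg (sq_nonneg _) (sq_nonneg _)

theorem Tt_nonneg (hX : Wm X) {M : V → V → ℝ} (hM : ∀ d v, 0 ≤ M d v) (b : V) {u : ℝ}
    (hu : u ∈ Set.Icc (0 : ℝ) 1) : 0 ≤ Tt X M b u := by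
  have h1 := hX.row b
  refine add_nonneg (mul_nonneg (by linarith) (Finset.sum_nonneg fun d _ => ?_)) ?_
  · exact mul_nonneg (hz_nonneg (hX.nn b d) hu.1) (hM d b)
  refine Finset.sum_nonneg fun c _ => mul_nonneg (hX.nn b c) (Finset.sum_nonneg fun d _ => ?_)
  exact mul_nonneg (add_nonneg (hz_nonneg (hX.nn b d) hu.1) (hz_nonneg (hX.nn c d) hu.1))
    (add_nonneg (hM d b) (hM d c))

/-- `u ↦ Tt X (M · · u) b u` -/
theorem Tt_cont {M : V → V → ℝ → ℝ} (hM : ∀ d v, ContinuousOn (M d v) (Set.Icc 0 1)) (b : V) :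
    ContinuousOn (fun u => Tt X (fun d v => M d v u) b u) (Set.Icc 0 1) := by
  refine ContinuousOn.add (continuousOn_const.mul (continuousOn_finsetSum _ fun d _ => ?_))
    (continuousOn_finsetSum _ fun c _ => continuousOn_const.mul
      (continuousOn_finsetSum _ fun d _ => ?_))
  · exact (hz_cont _).continuousOn.mul (hM d b)
  · exact ((hz_cont _).continuousOn.add (hz_cont _).continuousOn).mul ((hM d b).add (hM d c))

theorem Z_cont (n : ℕ) (b : V) : ContinuousOn (Z X n b) (Set.Icc 0 1) := by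
  induction n generalizing b with
  | zero => exact continuousOn_const
  | succ n ih =>
    have h1 : ContinuousOn (fun u => Tt X (fun d v => Mm X n d v u) b u
        + ∑ d, Kk X b d * Z X n d u) (Set.Icc 0 1) := by
      refine (Tt_cont (fun d v => Mm_cont n d v) b).add (continuousOn_finsetSum _ fun d _ => ?_)
      exact continuousOn_const.mul (ih d)
    have h2 : ContinuousOn (fun s => (s - th s) * qq X b) (Set.Icc 0 1) :=
      (continuousOn_id.sub th_cont).mul continuousOn_const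
    exact prim_cont ((r_cont.pow 2).mul (h2.add (prim_cont h1)))

theorem Z_nonneg (hX : Wm X) (n : ℕ) (b : V) {t : ℝ} (ht : t ∈ Set.Icc (0 : ℝ) 1) :
    0 ≤ Z X n b t := by
  induction n generalizing b t with
  | zero => exact le_refl 0
  | succ n ih =>
    refine int_nonneg ht fun s hs => mul_nonneg (sq_nonneg _) ?_
    have hs1 : s ∈ Set.Icc (0 : ℝ) 1 := ⟨hs.1, hs.2.trans ht.2⟩
    have h1 : th s ≤ s := th_le hs.1
    refine add_nonneg (mul_nonneg (by linarith) (qq_nonneg hX b)) ?_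
    refine int_nonneg hs1 fun u hu => ?_
    have hu1 : u ∈ Set.Icc (0 : ℝ) 1 := ⟨hu.1, hu.2.trans hs1.2⟩
    refine add_nonneg (Tt_nonneg hX (fun d v => Mm_nonneg hX n d v hu1) b hu1) ?_
    exact Finset.sum_nonneg fun d _ => mul_nonneg (Kk_nonneg hX b d) (ih d hu1)

theorem BB_cont (n : ℕ) (A : Finset V) (d : V) : ContinuousOn (BB X n A d) (Set.Icc 0 1) :=
  (continuousOn_finsetSum _ fun v _ => Mm_cont n d v).add (Z_cont n d)

theorem BB_nonneg (hX : Wm X) (n : ℕ) (A : Finset V) (d : V) {u : ℝ}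
    (hu : u ∈ Set.Icc (0 : ℝ) 1) : 0 ≤ BB X n A d u :=
  add_nonneg (Finset.sum_nonneg fun v _ => Mm_nonneg hX n d v hu) (Z_nonneg hX n d hu)

theorem BF_cont (n : ℕ) (b c d : V) : ContinuousOn (BF X n b c d) (Set.Icc 0 1) := by
  have h1 : ContinuousOn (fun u => psi u (X d b + X d c)) (Set.Icc 0 1) :=
    ((r_cont.mul th_cont).mul continuousOn_const).add
      (((continuousOn_const.sub r_cont).sub (r_cont.mul th_cont)).mul continuousOn_const)
  exact (h1.add ((R2_cont n d b).add (R2_cont n d c))).add (Z_cont n d)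

theorem BF_nonneg (hX : Wm X) (n : ℕ) (b c d : V) {u : ℝ}
    (hu : u ∈ Set.Icc (0 : ℝ) 1) : 0 ≤ BF X n b c d u := by
  have h1 : 0 ≤ 1 - r u - r u * th u := by
    rw [← int_r2th hu.1]
    exact int_nonneg hu fun s hs => mul_nonneg (sq_nonneg _) (th_nonneg hs.1)
  have h2 : 0 ≤ psi u (X d b + X d c) :=
    add_nonneg (mul_nonneg (mul_nonneg (r_pos hu.1).le (th_nonneg hu.1))
      (add_nonneg (hX.nn d b) (hX.nn d c))) (mul_nonneg h1 (sq_nonneg _))
  exact add_nonneg (add_nonneg h2 (add_nonneg (R2_nonneg hX n d b hu) (R2_nonneg hX n d c hu)))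
    (Z_nonneg hX n d hu)

end M

end Pool.Agent.AVH
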