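import Pool.Agent.AVH.Ti

/-! The polynomials which dominate the norms (MP_73ccd0_lc, average version). -/

namespace Pool.Agent.AVH

open MeasureTheory Finset intervalIntegral

/-- upper bound of `s - th s` -/
noncomputable def Up (t : ℝ) : ℝ :=
  t ^ 2 / 2 - 29 / 100 * t ^ 3 + 31 / 250 * t ^ 4 - 3 / 125 * t ^ 5

/-- bound of the norm of the response -/
noncomputable def ph (t : ℝ) : ℝ :=
  103 / 200 * t ^ 3 - 217 / 250 * t ^ 4 + 737 / 1000 * t ^ 5 - 31 / 125 * t ^ 6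

/-- bound of the sum of the excesses -/
noncomputable def ze (t : ℝ) : ℝ :=
  103 / 100 * t ^ 3 - 171 / 100 * t ^ 4 + 1471 / 1000 * t ^ 5 - 1 / 2 * t ^ 6

private theorem tim_pow (c : ℝ) (n : ℕ) (x : ℝ) :
    HasDerivAt (fun x : ℝ => c * x ^ n) (c * ((n : ℝ) * x ^ (n - 1))) x :=
  (hasDerivAt_pow n x).const_mul c

private theorem tim_poly (a b c d : ℝ) (n : ℕ) (x : ℝ) :
    HasDerivAt (fun x : ℝ => a * x ^ (n + 1) + b * x ^ (n + 2) + c * x ^ (n + 3)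
      + d * x ^ (n + 4))
      (a * (((n + 1 : ℕ) : ℝ) * x ^ n) + b * (((n + 2 : ℕ) : ℝ) * x ^ (n + 1))
        + c * (((n + 3 : ℕ) : ℝ) * x ^ (n + 2)) + d * (((n + 4 : ℕ) : ℝ) * x ^ (n + 3))) x :=
  (((tim_pow a (n + 1) x).add (tim_pow b (n + 2) x)).add (tim_pow c (n + 3) x)).add
    (tim_pow d (n + 4) x)

/-- the derivative of `Up` -/
private noncomputable def tim_Up' (s : ℝ) : ℝ :=
  s - 87 / 100 * s ^ 2 + 62 / 125 * s ^ 3 - 3 / 25 * s ^ 4

private theorem tim_Up_deriv (s : ℝ) : HasDerivAt Up (tim_Up' s) s := by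
  have h := tim_poly (1 / 2) (-29 / 100) (31 / 250) (-3 / 125) 1 s
  have e : Up = fun x : ℝ => 1 / 2 * x ^ (1 + 1) + -29 / 100 * x ^ (1 + 2)
      + 31 / 250 * x ^ (1 + 3) + -3 / 125 * x ^ (1 + 4) := by
    funext x; unfold Up; ring
  rw [e]
  refine h.congr_deriv ?_
  unfold tim_Up'; push_cast; ring

private noncomputable def tim_ph' (s : ℝ) : ℝ :=
  309 / 200 * s ^ 2 - 434 / 125 * s ^ 3 + 737 / 200 * s ^ 4 - 186 / 125 * s ^ 5

private theorem tim_ph_deriv (s : ℝ) : HasDerivAt ph (tim_ph' s) s := by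
  have h := tim_poly (103 / 200) (-217 / 250) (737 / 1000) (-31 / 125) 2 s
  have e : ph = fun x : ℝ => 103 / 200 * x ^ (2 + 1) + -217 / 250 * x ^ (2 + 2)
      + 737 / 1000 * x ^ (2 + 3) + -31 / 125 * x ^ (2 + 4) := by
    funext x; unfold ph; ring
  rw [e]
  refine h.congr_deriv ?_
  unfold tim_ph'; push_cast; ring

private noncomputable def tim_ze' (s : ℝ) : ℝ :=
  309 / 100 * s ^ 2 - 171 / 25 * s ^ 3 + 1471 / 200 * s ^ 4 - 3 * s ^ 5

private theorem tim_ze_deriv (s : ℝ) : HasDerivAt ze (tim_ze' s) s := by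
  have h := tim_poly (103 / 100) (-171 / 100) (1471 / 1000) (-1 / 2) 2 s
  have e : ze = fun x : ℝ => 103 / 100 * x ^ (2 + 1) + -171 / 100 * x ^ (2 + 2)
      + 1471 / 1000 * x ^ (2 + 3) + -1 / 2 * x ^ (2 + 4) := by
    funext x; unfold ze; ring
  rw [e]
  refine h.congr_deriv ?_
  unfold tim_ze'; push_cast; ring

/-- the primitive of `ph` -/
private noncomputable def tim_Ph (s : ℝ) : ℝ :=
  103 / 800 * s ^ 4 - 217 / 1250 * s ^ 5 + 737 / 6000 * s ^ 6 - 31 / 875 * s ^ 7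

private theorem tim_Ph_deriv (s : ℝ) : HasDerivAt tim_Ph (ph s) s := by
  have h := tim_poly (103 / 800) (-217 / 1250) (737 / 6000) (-31 / 875) 3 s
  have e : tim_Ph = fun x : ℝ => 103 / 800 * x ^ (3 + 1) + -217 / 1250 * x ^ (3 + 2)
      + 737 / 6000 * x ^ (3 + 3) + -31 / 875 * x ^ (3 + 4) := by
    funext x; unfold tim_Ph; ring
  rw [e]
  refine h.congr_deriv ?_
  unfold ph; push_cast; ring

/-- the primitive of `ze` -/
private noncomputable def tim_Ze (s : ℝ) : ℝ :=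
  103 / 400 * s ^ 4 - 171 / 500 * s ^ 5 + 1471 / 6000 * s ^ 6 - 1 / 14 * s ^ 7

private theorem tim_Ze_deriv (s : ℝ) : HasDerivAt tim_Ze (ze s) s := by
  have h := tim_poly (103 / 400) (-171 / 500) (1471 / 6000) (-1 / 14) 3 s
  have e : tim_Ze = fun x : ℝ => 103 / 400 * x ^ (3 + 1) + -171 / 500 * x ^ (3 + 2)
      + 1471 / 6000 * x ^ (3 + 3) + -1 / 14 * x ^ (3 + 4) := by
    funext x; unfold tim_Ze; ring
  rw [e]
  refine h.congr_deriv ?_
  unfold ze; push_cast; ring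

private noncomputable def tim_Ps (s : ℝ) : ℝ :=
  39 / 1000 * s ^ 4 + 11 / 500 * s ^ 5 - 23 / 500 * s ^ 6 + 43 / 2500 * s ^ 7

private noncomputable def tim_Ps' (s : ℝ) : ℝ :=
  39 / 250 * s ^ 3 + 11 / 100 * s ^ 4 - 69 / 250 * s ^ 5 + 301 / 2500 * s ^ 6

private theorem tim_Ps_deriv (s : ℝ) : HasDerivAt tim_Ps (tim_Ps' s) s := by
  have h := tim_poly (39 / 1000) (11 / 500) (-23 / 500) (43 / 2500) 3 s
  have e : tim_Ps = fun x : ℝ => 39 / 1000 * x ^ (3 + 1) + 11 / 500 * x ^ (3 + 2)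
      + -23 / 500 * x ^ (3 + 3) + 43 / 2500 * x ^ (3 + 4) := by
    funext x; unfold tim_Ps; ring
  rw [e]
  refine h.congr_deriv ?_
  unfold tim_Ps'; push_cast; ring

private theorem tim_r_mul {s : ℝ} (hs : 0 ≤ s) : r s * (1 + s) = 1 := by
  unfold r
  have : (1 + s) ≠ 0 := by positivity
  field_simp

/-- comparison with the polynomials after multiplication by `(1+s)^2` -/
private theorem tim_cmp {s a b : ℝ} (hs : 0 ≤ s) (h : a ≤ (1 + s) ^ 2 * b) :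
    r s ^ 2 * a ≤ b := by
  have h1 : r s ^ 2 * (1 + s) ^ 2 = 1 := by rw [← mul_pow, tim_r_mul hs, one_pow]
  calc r s ^ 2 * a ≤ r s ^ 2 * ((1 + s) ^ 2 * b) :=
        mul_le_mul_of_nonneg_left h (sq_nonneg _)
    _ = (r s ^ 2 * (1 + s) ^ 2) * b := by ring
    _ = b := by rw [h1, one_mul]


/-- the derivative of `Up s - (s - th s)` is
`r (s^2 (13/100 - 187/500 s + 47/125 s^2 - 3/25 s^3))`; the cubic has the Bernstein coefficients
`13/100, 2/375, 3/500, 3/250` -/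
theorem sth_le {s : ℝ} (hs : s ∈ Set.Icc (0 : ℝ) 1) : s - th s ≤ Up s := by
  obtain ⟨h0, h1⟩ := hs
  have hc : ContinuousOn (fun u : ℝ => 1 - r u) (Set.Icc 0 1) := continuousOn_const.sub r_cont
  have hg : ContinuousOn tim_Up' (Set.Icc 0 1) := by
    unfold tim_Up'; fun_prop
  rw [← int_omr h0]
  refine int_le_of_deriv hc hg (fun u _ => tim_Up_deriv u) (by unfold Up; norm_num) ?_ ⟨h0, h1⟩
  rintro u ⟨hu0, hu1⟩
  have hu2 : 0 ≤ 1 - u := by linarith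
  have hr := tim_r_mul hu0
  have hkey : 0 ≤ (1 + u) * tim_Up' u - u := by
    have e : (1 + u) * tim_Up' u - u = u ^ 2 * (13/100 * (1 - u) ^ 3 + 2/125 * u * (1 - u) ^ 2
        + 9/500 * u ^ 2 * (1 - u) + 3/250 * u ^ 3) := by
      unfold tim_Up'; ring
    rw [e]; positivity
  have hrp := r_pos hu0
  have : r u * u ≤ tim_Up' u := by
    calc r u * u ≤ r u * ((1 + u) * tim_Up' u) :=
          mul_le_mul_of_nonneg_left (by linarith) hrp.le
      _ = (r u * (1 + u)) * tim_Up' u := by ring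
      _ = tim_Up' u := by rw [hr, one_mul]
  have e2 : 1 - r u = r u * u := by linarith [hr, mul_add (r u) 1 u]
  linarith

theorem ph_cont : Continuous ph := by
  unfold ph; fun_prop

theorem ze_cont : Continuous ze := by
  unfold ze; fun_prop

/-- Bernstein coefficients (degree 8, after division by `t^3`) positive -/
theorem ph_nonneg {t : ℝ} (ht : t ∈ Set.Icc (0 : ℝ) 1) : 0 ≤ ph t := by
  obtain ⟨h0, h1⟩ := ht
  have h2 : 0 ≤ 1 - t := by linarith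
  have e : ph t = t ^ 3 * (103/200 * (1 - t) ^ 8 + 813/250 * t * (1 - t) ^ 7
      + 9081/1000 * t ^ 2 * (1 - t) ^ 6 + 7393/500 * t ^ 3 * (1 - t) ^ 5
      + 3097/200 * t ^ 4 * (1 - t) ^ 4 + 268/25 * t ^ 5 * (1 - t) ^ 3
      + 4767/1000 * t ^ 6 * (1 - t) ^ 2 + 613/500 * t ^ 7 * (1 - t) + 17/125 * t ^ 8) := by
    unfold ph; ring
  rw [e]; positivity

theorem ze_nonneg {t : ℝ} (ht : t ∈ Set.Icc (0 : ℝ) 1) : 0 ≤ ze t := by
  obtain ⟨h0, h1⟩ := ht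
  have h2 : 0 ≤ 1 - t := by linarith
  have e : ze t = t ^ 3 * (103/100 * (1 - t) ^ 8 + 653/100 * t * (1 - t) ^ 7
      + 18341/1000 * t ^ 2 * (1 - t) ^ 6 + 3762/125 * t ^ 3 * (1 - t) ^ 5
      + 6363/200 * t ^ 4 * (1 - t) ^ 4 + 89/4 * t ^ 5 * (1 - t) ^ 3
      + 1999/200 * t ^ 6 * (1 - t) ^ 2 + 649/250 * t ^ 7 * (1 - t) + 291/1000 * t ^ 8) := by
    unfold ze; ring
  rw [e]; positivity

private theorem tim_iph {s : ℝ} : ∫ u in (0 : ℝ)..s, ph u = tim_Ph s := by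
  rw [intervalIntegral.integral_eq_sub_of_hasDerivAt (fun x _ => tim_Ph_deriv x)
    (ph_cont.intervalIntegrable _ _)]
  unfold tim_Ph; norm_num

private theorem tim_ize {s : ℝ} : ∫ u in (0 : ℝ)..s, ze u = tim_Ze s := by
  rw [intervalIntegral.integral_eq_sub_of_hasDerivAt (fun x _ => tim_Ze_deriv x)
    (ze_cont.intervalIntegrable _ _)]
  unfold tim_Ze; norm_num

private theorem tim_icomb (a b : ℝ) {s : ℝ} :
    ∫ u in (0 : ℝ)..s, (a * ph u + b * ze u) = a * tim_Ph s + b * tim_Ze s := by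
  rw [intervalIntegral.integral_add ((ph_cont.intervalIntegrable _ _).const_mul a)
    ((ze_cont.intervalIntegrable _ _).const_mul b), intervalIntegral.integral_const_mul,
    intervalIntegral.integral_const_mul, tim_iph, tim_ize]


/-- `int_le_of_deriv`: `3 r^2 ∫_0^s ((1 - r) + ph) = 3 r^2 ((s - th s) + ∫ ph) ≤ ph'`, i.e.
`(1+s)^2 ph' - 3 (Up + ∫ ph) = s^2 (9/200 + 61/125 s - 9889/4000 s^2 + 7507/2500 s^3
+ 681/2000 s^4 - 1209/875 s^5) ≥ 0` (Bernstein, degree 16) -/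
theorem ph_ok {t : ℝ} (ht : t ∈ Set.Icc (0 : ℝ) 1) :
    3 * ∫ s in (0 : ℝ)..t, r s ^ 2 * ∫ u in (0 : ℝ)..s, ((1 - r u) + ph u) ≤ ph t := by
  have hc : ContinuousOn (fun u : ℝ => 1 - r u) (Set.Icc 0 1) := continuousOn_const.sub r_cont
  have hc2 : ContinuousOn (fun u : ℝ => (1 - r u) + ph u) (Set.Icc 0 1) :=
    hc.add ph_cont.continuousOn
  have hf : ContinuousOn (fun s : ℝ => r s ^ 2 * ∫ u in (0 : ℝ)..s, ((1 - r u) + ph u))
      (Set.Icc 0 1) := (r_cont.pow 2).mul (prim_cont hc2)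
  have hg : ContinuousOn (fun s => tim_ph' s / 3) (Set.Icc 0 1) := by
    unfold tim_ph'; fun_prop
  have key := int_le_of_deriv (F := fun s => ph s / 3) hf hg
    (fun s _ => (tim_ph_deriv s).div_const 3) (by unfold ph; norm_num) ?_ ht
  · have : (fun s => ph s / 3) t = ph t / 3 := rfl
    linarith
  rintro s ⟨hs0, hs1⟩
  have hs2 : 0 ≤ 1 - s := by linarith
  have hs : s ∈ Set.Icc (0 : ℝ) 1 := ⟨hs0, hs1⟩
  have e1 : ∫ u in (0 : ℝ)..s, ((1 - r u) + ph u) = (s - th s) + tim_Ph s := by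
    rw [intervalIntegral.integral_add (ii hc hs) (ph_cont.intervalIntegrable _ _), int_omr hs0,
      tim_iph]
  show r s ^ 2 * (∫ u in (0 : ℝ)..s, ((1 - r u) + ph u)) ≤ tim_ph' s / 3
  rw [e1]
  refine tim_cmp hs0 ?_
  have h3 := sth_le hs
  have hkey : 0 ≤ (1 + s) ^ 2 * tim_ph' s - 3 * (Up s + tim_Ph s) := by
    have e : (1 + s) ^ 2 * tim_ph' s - 3 * (Up s + tim_Ph s) = s ^ 2 * (9/200 * (1 - s) ^ 16
        + 151/125 * s * (1 - s) ^ 15 + 40991/4000 * s ^ 2 * (1 - s) ^ 14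
        + 448313/10000 * s ^ 3 * (1 - s) ^ 13 + 2366843/20000 * s ^ 4 * (1 - s) ^ 12
        + 6989629/35000 * s ^ 5 * (1 - s) ^ 11 + 30404737/140000 * s ^ 6 * (1 - s) ^ 10
        + 430397/2800 * s ^ 7 * (1 - s) ^ 9 + 14060409/140000 * s ^ 8 * (1 - s) ^ 8
        + 2394579/17500 * s ^ 9 * (1 - s) ^ 7 + 4154161/20000 * s ^ 10 * (1 - s) ^ 6
        + 2085071/10000 * s ^ 11 * (1 - s) ^ 5 + 3720683/28000 * s ^ 12 * (1 - s) ^ 4
        + 1857413/35000 * s ^ 13 * (1 - s) ^ 3 + 1730731/140000 * s ^ 14 * (1 - s) ^ 2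
        + 94643/70000 * s ^ 15 * (1 - s) + 3127/140000 * s ^ 16) := by
      unfold tim_ph' Up tim_Ph; ring
    rw [e]; positivity
  linarith

/-- `(1+s)^2 ze' - (6 Up + 6 ∫ ph + 3 ∫ ze) = s^2 (9/100 + 27/25 s - 1381/250 s^2 + 4426/625 s^3
- 47/400 s^4 - 4503/1750 s^5) ≥ 0` (Bernstein, degree 16) -/
theorem ze_ok {t : ℝ} (ht : t ∈ Set.Icc (0 : ℝ) 1) :
    ∫ s in (0 : ℝ)..t, r s ^ 2 * (6 * (s - th s) + ∫ u in (0 : ℝ)..s, (6 * ph u + 3 * ze u))
      ≤ ze t := by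
  have hc : ContinuousOn (fun s : ℝ => 6 * (s - th s)) (Set.Icc 0 1) :=
    continuousOn_const.mul (continuousOn_id.sub th_cont)
  have hc2 : ContinuousOn (fun u : ℝ => 6 * ph u + 3 * ze u) (Set.Icc 0 1) :=
    (continuousOn_const.mul ph_cont.continuousOn).add
      (continuousOn_const.mul ze_cont.continuousOn)
  have hf : ContinuousOn (fun s : ℝ => r s ^ 2 * (6 * (s - th s)
      + ∫ u in (0 : ℝ)..s, (6 * ph u + 3 * ze u))) (Set.Icc 0 1) :=
    (r_cont.pow 2).mul (hc.add (prim_cont hc2))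
  have hg : ContinuousOn tim_ze' (Set.Icc 0 1) := by
    unfold tim_ze'; fun_prop
  refine int_le_of_deriv hf hg (fun s _ => tim_ze_deriv s) (by unfold ze; norm_num) ?_ ht
  rintro s ⟨hs0, hs1⟩
  have hs2 : 0 ≤ 1 - s := by linarith
  have hs : s ∈ Set.Icc (0 : ℝ) 1 := ⟨hs0, hs1⟩
  show r s ^ 2 * (6 * (s - th s) + ∫ u in (0 : ℝ)..s, (6 * ph u + 3 * ze u)) ≤ tim_ze' s
  rw [tim_icomb]
  refine tim_cmp hs0 ?_
  have h3 := sth_le hs
  have hkey : 0 ≤ (1 + s) ^ 2 * tim_ze' s - (6 * Up s + (6 * tim_Ph s + 3 * tim_Ze s)) := by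
    have e : (1 + s) ^ 2 * tim_ze' s - (6 * Up s + (6 * tim_Ph s + 3 * tim_Ze s))
        = s ^ 2 * (9/100 * (1 - s) ^ 16 + 63/25 * s * (1 - s) ^ 15
            + 5369/250 * s ^ 2 * (1 - s) ^ 14 + 58466/625 * s ^ 3 * (1 - s) ^ 13
            + 2444593/10000 * s ^ 4 * (1 - s) ^ 12 + 7086899/17500 * s ^ 5 * (1 - s) ^ 11
            + 14829991/35000 * s ^ 6 * (1 - s) ^ 10 + 951731/3500 * s ^ 7 * (1 - s) ^ 9
            + 10557129/70000 * s ^ 8 * (1 - s) ^ 8 + 2020029/8750 * s ^ 9 * (1 - s) ^ 7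
            + 980529/2500 * s ^ 10 * (1 - s) ^ 6 + 511849/1250 * s ^ 11 * (1 - s) ^ 5
            + 740657/2800 * s ^ 12 * (1 - s) ^ 4 + 1854703/17500 * s ^ 13 * (1 - s) ^ 3
            + 861103/35000 * s ^ 14 * (1 - s) ^ 2 + 46379/17500 * s ^ 15 * (1 - s)
            + 2587/70000 * s ^ 16) := by
      unfold tim_ze' Up tim_Ph tim_Ze; ring
    rw [e]; positivity
  linarith

/-- with `Ps t = 39/1000 t^4 + 11/500 t^5 - 23/500 t^6 + 43/2500 t^7`,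
`(1+s)^2 Ps' - (6 ∫ ph + 2 ∫ ze) = s^3 (39/250 - 1731/2000 s + 1141/625 s^2 - 11617/7500 s^3
+ 1401/4375 s^4 + 301/2500 s^5) ≥ 0` (Bernstein, degree 12) -/
theorem ps_ok : ∫ s in (0 : ℝ)..1, r s ^ 2 * ∫ u in (0 : ℝ)..s, (6 * ph u + 2 * ze u)
    ≤ 161 / 5000 := by
  have hc2 : ContinuousOn (fun u : ℝ => 6 * ph u + 2 * ze u) (Set.Icc 0 1) :=
    (continuousOn_const.mul ph_cont.continuousOn).add
      (continuousOn_const.mul ze_cont.continuousOn)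
  have hf : ContinuousOn (fun s : ℝ => r s ^ 2 * ∫ u in (0 : ℝ)..s, (6 * ph u + 2 * ze u))
      (Set.Icc 0 1) := (r_cont.pow 2).mul (prim_cont hc2)
  have hg : ContinuousOn tim_Ps' (Set.Icc 0 1) := by
    unfold tim_Ps'; fun_prop
  have key := int_le_of_deriv hf hg (fun s _ => tim_Ps_deriv s) (by unfold tim_Ps; norm_num) ?_
    (Set.right_mem_Icc.2 zero_le_one)
  · refine key.trans (le_of_eq ?_)
    unfold tim_Ps; norm_num
  rintro s ⟨hs0, hs1⟩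
  have hs2 : 0 ≤ 1 - s := by linarith
  show r s ^ 2 * (∫ u in (0 : ℝ)..s, (6 * ph u + 2 * ze u)) ≤ tim_Ps' s
  rw [tim_icomb]
  refine tim_cmp hs0 ?_
  have hkey : 0 ≤ (1 + s) ^ 2 * tim_Ps' s - (6 * tim_Ph s + 2 * tim_Ze s) := by
    have e : (1 + s) ^ 2 * tim_Ps' s - (6 * tim_Ph s
        + 2 * tim_Ze s) = s ^ 3 * (39/250 * (1 - s) ^ 12 + 2013/2000 * s * (1 - s) ^ 11
        + 26011/10000 * s ^ 2 * (1 - s) ^ 10 + 102737/30000 * s ^ 3 * (1 - s) ^ 9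
        + 206103/70000 * s ^ 4 * (1 - s) ^ 8 + 137537/35000 * s ^ 5 * (1 - s) ^ 7
        + 36789/5000 * s ^ 6 * (1 - s) ^ 6 + 45189/5000 * s ^ 7 * (1 - s) ^ 5
        + 32227/5000 * s ^ 8 * (1 - s) ^ 4 + 26209/10000 * s ^ 9 * (1 - s) ^ 3
        + 5787/10000 * s ^ 10 * (1 - s) ^ 2 + 5021/70000 * s ^ 11 * (1 - s)
        + 1637/210000 * s ^ 12) := by
      unfold tim_Ps' tim_Ph tim_Ze; ring
    rw [e]; positivity
  linarith

end Pool.Agent.AVH
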