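import Pool.Agent.AVH.Sch
import Pool.Agent.AVH.Rz
import Pool.Agent.AVH.Tim

/-! The norm of the response (MP_73ccd0_lc, average version). -/

namespace Pool.Agent.AVH

open MeasureTheory Finset intervalIntegral

section M

variable {V : Type} [Fintype V] [DecidableEq V] {X : V → V → ℝ}

omit [DecidableEq V] in
private theorem nra_swap {f : V → V → ℝ → ℝ} (hf : ∀ b v, ContinuousOn (f b v) (Set.Icc 0 1))
    (M : V → V → ℝ) {s : ℝ} (hs : s ∈ Set.Icc (0 : ℝ) 1) :
    ∑ b, ∑ v, M b v * ∫ u in (0 : ℝ)..s, f b v u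
      = ∫ u in (0 : ℝ)..s, ∑ b, ∑ v, M b v * f b v u := by
  have h1 : ∀ b v, IntervalIntegrable (fun u => M b v * f b v u) volume 0 s := fun b v =>
    (ii (hf b v) hs).const_mul _
  have h2 : ∀ b, IntervalIntegrable (fun u => ∑ v, M b v * f b v u) volume 0 s := fun b =>
    ii (continuousOn_finset_sum _ fun v _ => continuousOn_const.mul (hf b v)) hs
  rw [intervalIntegral.integral_finset_sum fun b _ => h2 b]
  refine Finset.sum_congr rfl fun b _ => ?_
  rw [intervalIntegral.integral_finset_sum fun v _ => h1 b v]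
  refine Finset.sum_congr rfl fun v _ => ?_
  rw [intervalIntegral.integral_const_mul]

private theorem nra_alg (K M : V → V → ℝ) (g : V → V → ℝ) :
    ∑ b, ∑ v, M b v * ∑ d, K b d * g d v = ∑ d, ∑ v, (∑ b, K b d * M b v) * g d v := by
  have h1 : ∀ b v, M b v * ∑ d, K b d * g d v = ∑ d, M b v * (K b d * g d v) := fun b v =>
    Finset.mul_sum _ _ _
  have h2 : ∀ d v, (∑ b, K b d * M b v) * g d v = ∑ b, K b d * M b v * g d v := fun d v =>
    Finset.sum_mul _ _ _
  simp only [h1, h2]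
  calc ∑ b, ∑ v, ∑ d, M b v * (K b d * g d v) = ∑ b, ∑ d, ∑ v, M b v * (K b d * g d v) :=
        Finset.sum_congr rfl fun b _ => Finset.sum_comm
    _ = ∑ d, ∑ b, ∑ v, M b v * (K b d * g d v) := Finset.sum_comm
    _ = ∑ d, ∑ v, ∑ b, M b v * (K b d * g d v) :=
        Finset.sum_congr rfl fun d _ => Finset.sum_comm
    _ = ∑ d, ∑ v, ∑ b, K b d * M b v * g d v :=
        Finset.sum_congr rfl fun d _ => Finset.sum_congr rfl fun v _ =>
          Finset.sum_congr rfl fun b _ => by ring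


/-- **the norm of the response**, induction on `n` (for all `M`, `c`, `t`):
`∑ M b v R2 (n+1) b v t = ∫ r^2 ∫ ∑_{d, v} (∑_b K b d M b v) ((1 - r) X d v + R2 n d v)`, the matrix
`N d v = ∑_b K b d M b v` has `∑ N^2 ≤ (3 c)^2 N2` (`schur`), so by `cs` and the induction
hypothesis the inner integrand is at most `3 c N2 ((1 - r) + ph)`; and `ph_ok`. -/
theorem R2_pair (hX : Wm X) (n : ℕ) : ∀ {c : ℝ}, 0 ≤ c → ∀ M : V → V → ℝ,
    ∑ b, ∑ v, M b v ^ 2 ≤ c ^ 2 * Nk X 2 → ∀ {t : ℝ}, t ∈ Set.Icc (0 : ℝ) 1 →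
    ∑ b, ∑ v, M b v * R2 X n b v t ≤ c * Nk X 2 * ph t := by
  induction n with
  | zero =>
    intro c hc M _ t ht
    have h0 : ∑ b, ∑ v, M b v * R2 X 0 b v t = 0 := by
      refine Finset.sum_eq_zero fun b _ => Finset.sum_eq_zero fun v _ => ?_
      simp [R2]
    rw [h0]
    exact mul_nonneg (mul_nonneg hc (Nk_nonneg hX 2)) (ph_nonneg ht)
  | succ n ih =>
    intro c hc M hM t ht
    have hN2 := Nk_nonneg hX 2
    have hr1 : ContinuousOn (fun u : ℝ => 1 - r u) (Set.Icc 0 1) :=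
      continuousOn_const.sub r_cont
    -- the inner functions
    have hg : ∀ b v, ContinuousOn
        (fun u => ∑ d, Kk X b d * ((1 - r u) * X d v + R2 X n d v u)) (Set.Icc 0 1) :=
      fun b v => continuousOn_finset_sum _ fun d _ =>
        continuousOn_const.mul ((hr1.mul continuousOn_const).add (R2_cont n d v))
    have hG : ∀ b v, ContinuousOn (fun s => r s ^ 2 *
        ∫ u in (0 : ℝ)..s, ∑ d, Kk X b d * ((1 - r u) * X d v + R2 X n d v u))
        (Set.Icc 0 1) := fun b v => (r_cont.pow 2).mul (prim_cont (hg b v))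
    -- the matrix N
    have hNN : ∑ d, ∑ v, (∑ b, Kk X b d * M b v) ^ 2 ≤ (3 * c) ^ 2 * Nk X 2 := by
      refine (schur hX M).trans ?_
      have : (3 * c) ^ 2 * Nk X 2 = 9 * (c ^ 2 * Nk X 2) := by ring
      rw [this]
      exact mul_le_mul_of_nonneg_left hM (by norm_num)
    have h3c : 0 ≤ 3 * c := by positivity
    have hXX : ∑ b, ∑ v, X b v ^ 2 ≤ Nk X 2 := le_of_eq rfl
    have hNX : ∑ d, ∑ v, (∑ b, Kk X b d * M b v) * X d v ≤ 3 * c * Nk X 2 :=
      cs (M := fun d v => ∑ b, Kk X b d * M b v) (N := X) h3c hN2 hNN hXX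
    -- the inner integrand
    have hin : ∀ u ∈ Set.Icc (0 : ℝ) 1,
        ∑ b, ∑ v, M b v * ∑ d, Kk X b d * ((1 - r u) * X d v + R2 X n d v u)
          ≤ 3 * c * Nk X 2 * ((1 - r u) + ph u) := by
      intro u hu
      rw [nra_alg (Kk X) M (fun d v => (1 - r u) * X d v + R2 X n d v u)]
      have h1 := ih h3c (fun d v => ∑ b, Kk X b d * M b v) hNN hu
      have h2 : 0 ≤ 1 - r u := by linarith [r_le_one hu.1]
      have h3 := mul_le_mul_of_nonneg_left hNX h2
      have h4 : ∑ d, ∑ v, (∑ b, Kk X b d * M b v) * ((1 - r u) * X d v + R2 X n d v u)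
          = (1 - r u) * ∑ d, ∑ v, (∑ b, Kk X b d * M b v) * X d v
            + ∑ d, ∑ v, (∑ b, Kk X b d * M b v) * R2 X n d v u := by
        rw [Finset.mul_sum, ← Finset.sum_add_distrib]
        refine Finset.sum_congr rfl fun d _ => ?_
        rw [Finset.mul_sum, ← Finset.sum_add_distrib]
        refine Finset.sum_congr rfl fun v _ => ?_
        ring
      rw [h4]
      calc _ ≤ (1 - r u) * (3 * c * Nk X 2) + 3 * c * Nk X 2 * ph u := add_le_add h3 h1
        _ = 3 * c * Nk X 2 * ((1 - r u) + ph u) := by ring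
    have hsumc : ContinuousOn (fun u => ∑ b, ∑ v, M b v *
        ∑ d, Kk X b d * ((1 - r u) * X d v + R2 X n d v u)) (Set.Icc 0 1) :=
      continuousOn_finset_sum _ fun b _ => continuousOn_finset_sum _ fun v _ =>
        continuousOn_const.mul (hg b v)
    have hphc : ContinuousOn (fun u => (1 - r u) + ph u) (Set.Icc 0 1) :=
      hr1.add ph_cont.continuousOn
    have hphc3 : ContinuousOn (fun u => 3 * c * Nk X 2 * ((1 - r u) + ph u))
        (Set.Icc 0 1) := continuousOn_const.mul hphc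
    have e1 : ∑ b, ∑ v, M b v * R2 X (n + 1) b v t
        = ∫ s in (0 : ℝ)..t, ∑ b, ∑ v, M b v * (r s ^ 2 *
          ∫ u in (0 : ℝ)..s, ∑ d, Kk X b d * ((1 - r u) * X d v + R2 X n d v u)) :=
      nra_swap hG M ht
    rw [e1]
    have hRc : ContinuousOn (fun s => r s ^ 2 * ∫ u in (0 : ℝ)..s,
        3 * c * Nk X 2 * ((1 - r u) + ph u)) (Set.Icc 0 1) :=
      (r_cont.pow 2).mul (prim_cont hphc3)
    have hLc : ContinuousOn (fun s => ∑ b, ∑ v, M b v * (r s ^ 2 *
          ∫ u in (0 : ℝ)..s, ∑ d, Kk X b d * ((1 - r u) * X d v + R2 X n d v u)))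
        (Set.Icc 0 1) :=
      continuousOn_finset_sum _ fun b _ => continuousOn_finset_sum _ fun v _ =>
        continuousOn_const.mul (hG b v)
    have hstep := int_mono hLc hRc ht ?_
    · refine hstep.trans ?_
      have e2 : ∀ s : ℝ, r s ^ 2 * (∫ u in (0 : ℝ)..s, 3 * c * Nk X 2 * ((1 - r u) + ph u))
          = c * Nk X 2 * (3 * (r s ^ 2 * ∫ u in (0 : ℝ)..s, ((1 - r u) + ph u))) := by
        intro s
        rw [intervalIntegral.integral_const_mul]; ring
      simp only [e2]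
      rw [intervalIntegral.integral_const_mul, intervalIntegral.integral_const_mul]
      exact mul_le_mul_of_nonneg_left (ph_ok ht) (mul_nonneg hc hN2)
    · rintro s ⟨hs0, hs1⟩
      have hs : s ∈ Set.Icc (0 : ℝ) 1 := ⟨hs0, hs1.trans ht.2⟩
      have e3 : ∑ b, ∑ v, M b v * (r s ^ 2 *
            ∫ u in (0 : ℝ)..s, ∑ d, Kk X b d * ((1 - r u) * X d v + R2 X n d v u))
          = r s ^ 2 * ∑ b, ∑ v, M b v *
            ∫ u in (0 : ℝ)..s, ∑ d, Kk X b d * ((1 - r u) * X d v + R2 X n d v u) := by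
        rw [Finset.mul_sum]
        refine Finset.sum_congr rfl fun b _ => ?_
        rw [Finset.mul_sum]
        refine Finset.sum_congr rfl fun v _ => ?_
        ring
      rw [e3, nra_swap hg M hs]
      refine mul_le_mul_of_nonneg_left ?_ (sq_nonneg _)
      exact int_mono hsumc hphc3 hs fun u hu => hin u ⟨hu.1, hu.2.trans hs.2⟩

/-- with `M d b = Lk X b d` and `Lk_norm` -/
theorem R2_Lk (hX : Wm X) (n : ℕ) {t : ℝ} (ht : t ∈ Set.Icc (0 : ℝ) 1) :
    ∑ b, ∑ d, Lk X b d * R2 X n d b t ≤ 6 * Nk X 2 * ph t := by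
  rw [Finset.sum_comm]
  refine R2_pair hX n (by norm_num) (fun d b => Lk X b d) ?_ ht
  have h := Lk_norm hX
  norm_num
  exact h

end M

end Pool.Agent.AVH
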