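import Pool.Agent.AVH.NrA

/-! The sum of the excesses (MP_73ccd0_lc, average version). -/

namespace Pool.Agent.AVH

open MeasureTheory Finset intervalIntegral

section M

variable {V : Type} [Fintype V] [DecidableEq V] {X : V → V → ℝ}

private theorem NrB_lin (M N : V → V → ℝ) (b : V) (u : ℝ) :
    Tt X (fun d v => M d v + N d v) b u = Tt X M b u + Tt X N b u := by
  unfold Tt
  have h1 : ∑ d ∈ ({b} : Finset V)ᶜ, hz (X b d) u * (M d b + N d b) =
      ∑ d ∈ ({b} : Finset V)ᶜ, hz (X b d) u * M d b + ∑ d ∈ ({b} : Finset V)ᶜ, hz (X b d) u * N d b := by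
    rw [← Finset.sum_add_distrib]
    exact Finset.sum_congr rfl fun d _ => by ring
  have h2 : ∑ c, X b c * ∑ d ∈ ({b, c} : Finset V)ᶜ, (hz (X b d) u + hz (X c d) u) *
        ((M d b + N d b) + (M d c + N d c)) =
      ∑ c, X b c * ∑ d ∈ ({b, c} : Finset V)ᶜ, (hz (X b d) u + hz (X c d) u) * (M d b + M d c)
      + ∑ c, X b c * ∑ d ∈ ({b, c} : Finset V)ᶜ, (hz (X b d) u + hz (X c d) u) * (N d b + N d c) := by
    rw [← Finset.sum_add_distrib]
    refine Finset.sum_congr rfl fun c _ => ?_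
    rw [← mul_add, ← Finset.sum_add_distrib]
    congr 1
    exact Finset.sum_congr rfl fun d _ => by ring
  rw [h1, h2]
  ring

/-- **the sum of the excesses**, induction on `n`: `∑_b Z (n+1) b t = ∫ r^2 ((s - th) ∑ qq
+ ∫ (∑ Tt + ∑_b ∑_d K b d Z n d))`; `qq_sum`, `Tt_sum1` with `m = 1 - r u` and `Tt_sum2`,
`R2_Lk` for the two parts of `Mm = (1 - r) X + R2` (`Tt` is linear in `M`), `Kk_col`; so the
integrand is at most `N2 r^2 (2 (s - th) + ∫ (4 (1 - r) + 6 ph + 3 ze))` and
`∫ (1 - r) = s - th`; `ze_ok`. -/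
theorem Z_sum (hX : Wm X) (n : ℕ) : ∀ {t : ℝ}, t ∈ Set.Icc (0 : ℝ) 1 →
    ∑ b, Z X n b t ≤ Nk X 2 * ze t := by
  induction n with
  | zero =>
    intro t ht
    have h0 : ∑ b, Z X 0 b t = 0 := Finset.sum_eq_zero fun b _ => by simp [Z]
    rw [h0]
    exact mul_nonneg (Nk_nonneg hX 2) (ze_nonneg ht)
  | succ n ih =>
    intro t ht
    have hN2 := Nk_nonneg hX 2
    have hr1 : ContinuousOn (fun u : ℝ => 1 - r u) (Set.Icc 0 1) :=
      continuousOn_const.sub r_cont
    have hst : ContinuousOn (fun s : ℝ => s - th s) (Set.Icc 0 1) :=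
      continuousOn_id.sub th_cont
    have hI : ∀ b, ContinuousOn (fun u => Tt X (fun d v => Mm X n d v u) b u
        + ∑ d, Kk X b d * Z X n d u) (Set.Icc 0 1) := fun b =>
      (Tt_cont (fun d v => Mm_cont n d v) b).add
        (continuousOn_finset_sum _ fun d _ => continuousOn_const.mul (Z_cont n d))
    have hO : ∀ b, ContinuousOn (fun s => r s ^ 2 * ((s - th s) * qq X b
        + ∫ u in (0 : ℝ)..s, (Tt X (fun d v => Mm X n d v u) b u
          + ∑ d, Kk X b d * Z X n d u))) (Set.Icc 0 1) := fun b =>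
      (r_cont.pow 2).mul ((hst.mul continuousOn_const).add (prim_cont (hI b)))
    -- the inner integrand
    have hin : ∀ u ∈ Set.Icc (0 : ℝ) 1,
        ∑ b, (Tt X (fun d v => Mm X n d v u) b u + ∑ d, Kk X b d * Z X n d u)
          ≤ Nk X 2 * (4 * (1 - r u) + (6 * ph u + 3 * ze u)) := by
      intro u hu
      have hru : 0 ≤ 1 - r u := by linarith [r_le_one hu.1]
      have e1 : ∀ b, Tt X (fun d v => Mm X n d v u) b u =
          Tt X (fun d v => (1 - r u) * X d v) b u + Tt X (fun d v => R2 X n d v u) b u := by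
        intro b
        rw [← NrB_lin]
        rfl
      have h1 := Tt_sum1 hX hru hu
      have h2 := (Tt_sum2 hX (M := fun d v => R2 X n d v u)
        (fun d v => R2_nonneg hX n d v hu) hu).trans (R2_Lk hX n hu)
      have h3 : ∑ b, ∑ d, Kk X b d * Z X n d u ≤ 3 * (Nk X 2 * ze u) := by
        rw [Finset.sum_comm]
        calc ∑ d, ∑ b, Kk X b d * Z X n d u = ∑ d, (∑ b, Kk X b d) * Z X n d u :=
              Finset.sum_congr rfl fun d _ => (Finset.sum_mul _ _ _).symm
          _ ≤ ∑ d, 3 * Z X n d u := Finset.sum_le_sum fun d _ =>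
              mul_le_mul_of_nonneg_right (Kk_col hX d) (Z_nonneg hX n d hu)
          _ = 3 * ∑ d, Z X n d u := (Finset.mul_sum _ _ _).symm
          _ ≤ 3 * (Nk X 2 * ze u) := mul_le_mul_of_nonneg_left (ih hu) (by norm_num)
      rw [Finset.sum_add_distrib, Finset.sum_congr rfl fun b _ => e1 b, Finset.sum_add_distrib]
      calc _ ≤ 4 * (1 - r u) * Nk X 2 + 6 * Nk X 2 * ph u + 3 * (Nk X 2 * ze u) :=
            add_le_add (add_le_add h1 h2) h3
        _ = _ := by ring
    have hsumc : ContinuousOn (fun u => ∑ b, (Tt X (fun d v => Mm X n d v u) b u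
        + ∑ d, Kk X b d * Z X n d u)) (Set.Icc 0 1) :=
      continuousOn_finset_sum _ fun b _ => hI b
    have hpz : ContinuousOn (fun u => 6 * ph u + 3 * ze u) (Set.Icc 0 1) :=
      ((continuous_const.mul ph_cont).add (continuous_const.mul ze_cont)).continuousOn
    have hbc : ContinuousOn (fun u => Nk X 2 * (4 * (1 - r u) + (6 * ph u + 3 * ze u)))
        (Set.Icc 0 1) :=
      continuousOn_const.mul ((continuousOn_const.mul hr1).add hpz)
    -- exchange of sum and integral
    have e2 : ∑ b, Z X (n + 1) b t = ∫ s in (0 : ℝ)..t, ∑ b, (r s ^ 2 * ((s - th s) * qq X b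
        + ∫ u in (0 : ℝ)..s, (Tt X (fun d v => Mm X n d v u) b u
          + ∑ d, Kk X b d * Z X n d u))) := by
      rw [intervalIntegral.integral_finset_sum fun b _ => ii (hO b) ht]
      rfl
    rw [e2]
    have hLc : ContinuousOn (fun s => ∑ b, (r s ^ 2 * ((s - th s) * qq X b
        + ∫ u in (0 : ℝ)..s, (Tt X (fun d v => Mm X n d v u) b u
          + ∑ d, Kk X b d * Z X n d u)))) (Set.Icc 0 1) :=
      continuousOn_finset_sum _ fun b _ => hO b
    have hRc : ContinuousOn (fun s => Nk X 2 * (r s ^ 2 * (6 * (s - th s)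
        + ∫ u in (0 : ℝ)..s, (6 * ph u + 3 * ze u)))) (Set.Icc 0 1) :=
      continuousOn_const.mul ((r_cont.pow 2).mul
        ((continuousOn_const.mul hst).add (prim_cont hpz)))
    refine (int_mono hLc hRc ht ?_).trans ?_
    · rintro s ⟨hs0, hs1⟩
      have hs : s ∈ Set.Icc (0 : ℝ) 1 := ⟨hs0, hs1.trans ht.2⟩
      have e3 : ∑ b, (r s ^ 2 * ((s - th s) * qq X b
          + ∫ u in (0 : ℝ)..s, (Tt X (fun d v => Mm X n d v u) b u
            + ∑ d, Kk X b d * Z X n d u)))
          = r s ^ 2 * ((s - th s) * ∑ b, qq X b + ∫ u in (0 : ℝ)..s,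
            ∑ b, (Tt X (fun d v => Mm X n d v u) b u + ∑ d, Kk X b d * Z X n d u)) := by
        rw [intervalIntegral.integral_finset_sum fun b _ => ii (hI b) hs, Finset.mul_sum,
          ← Finset.sum_add_distrib, Finset.mul_sum]
      have h4 : ∫ u in (0 : ℝ)..s, ∑ b, (Tt X (fun d v => Mm X n d v u) b u
          + ∑ d, Kk X b d * Z X n d u)
          ≤ ∫ u in (0 : ℝ)..s, Nk X 2 * (4 * (1 - r u) + (6 * ph u + 3 * ze u)) :=
        int_mono hsumc hbc hs fun u hu => hin u ⟨hu.1, hu.2.trans hs.2⟩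
      have h5 : ∫ u in (0 : ℝ)..s, Nk X 2 * (4 * (1 - r u) + (6 * ph u + 3 * ze u))
          = Nk X 2 * (4 * (s - th s) + ∫ u in (0 : ℝ)..s, (6 * ph u + 3 * ze u)) := by
        rw [intervalIntegral.integral_const_mul, intervalIntegral.integral_add
          ((ii hr1 hs).const_mul 4) (ii hpz hs), intervalIntegral.integral_const_mul,
          int_omr hs0]
      rw [h5] at h4
      show ∑ b, (r s ^ 2 * ((s - th s) * qq X b
          + ∫ u in (0 : ℝ)..s, (Tt X (fun d v => Mm X n d v u) b u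
            + ∑ d, Kk X b d * Z X n d u))) ≤ Nk X 2 * (r s ^ 2 * (6 * (s - th s)
        + ∫ u in (0 : ℝ)..s, (6 * ph u + 3 * ze u)))
      rw [e3]
      have h6 := mul_le_mul_of_nonneg_left (qq_sum hX) (sth_nonneg hs0)
      calc _ ≤ r s ^ 2 * ((s - th s) * (2 * Nk X 2) +
            Nk X 2 * (4 * (s - th s) + ∫ u in (0 : ℝ)..s, (6 * ph u + 3 * ze u))) :=
            mul_le_mul_of_nonneg_left (add_le_add h6 h4) (sq_nonneg _)
        _ = _ := by ring
    · rw [intervalIntegral.integral_const_mul]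
      exact mul_le_mul_of_nonneg_left (ze_ok ht) hN2

end M

end Pool.Agent.AVH
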