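import Pool.Agent.AVH.Alg

/-! Norms of the kernels (MP_73ccd0_lc, average version). -/

namespace Pool.Agent.AVH

open MeasureTheory Finset

section M

variable {V : Type} [Fintype V] [DecidableEq V] {X : V → V → ℝ}

/-- row sums of the kernel: `1 + 2 ∑_c X b c ρ_c ≤ 3` -/
theorem Kk_row (hX : Wm X) (b : V) : ∑ d, Kk X b d ≤ 3 := by
  unfold Kk
  rw [sum_add_distrib, ← mul_sum, sum_comm]
  have h1 : ∑ c, ∑ d, X b c * X c d ≤ 1 := by
    calc ∑ c, ∑ d, X b c * X c d = ∑ c, X b c * ∑ d, X c d :=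
          sum_congr rfl fun c _ => (mul_sum _ _ _).symm
      _ ≤ ∑ c, X b c * 1 := sum_le_sum fun c _ => mul_le_mul_of_nonneg_left (hX.row c) (hX.nn b c)
      _ = ∑ c, X b c := sum_congr rfl fun c _ => mul_one _
      _ ≤ 1 := hX.row b
  have h2 := hX.row b
  linarith

theorem Kk_col (hX : Wm X) (d : V) : ∑ b, Kk X b d ≤ 3 := by
  have h1 : ∀ b, Kk X b d = Kk X d b := by
    intro b
    unfold Kk
    rw [hX.symm b d]
    congr 2
    refine sum_congr rfl fun c _ => ?_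
    rw [hX.symm b c, hX.symm c d, mul_comm]
  rw [sum_congr rfl fun b _ => h1 b]
  exact Kk_row hX d

/-- Cauchy-Schwarz -/
theorem cs {M N : V → V → ℝ} {c S : ℝ} (hc : 0 ≤ c) (hS : 0 ≤ S)
    (hM : ∑ b, ∑ v, M b v ^ 2 ≤ c ^ 2 * S) (hN : ∑ b, ∑ v, N b v ^ 2 ≤ S) :
    ∑ b, ∑ v, M b v * N b v ≤ c * S := by
  have h1 : (∑ p : V × V, M p.1 p.2 * N p.1 p.2) ^ 2 ≤
      (∑ p : V × V, M p.1 p.2 ^ 2) * ∑ p : V × V, N p.1 p.2 ^ 2 :=
    Finset.sum_mul_sq_le_sq_mul_sq _ _ _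
  rw [Fintype.sum_prod_type, Fintype.sum_prod_type, Fintype.sum_prod_type] at h1
  have h2 : (∑ b, ∑ v, M b v * N b v) ^ 2 ≤ (c * S) ^ 2 := by
    refine h1.trans ?_
    have h3 : 0 ≤ ∑ b, ∑ v, N b v ^ 2 := sum_nonneg fun b _ => sum_nonneg fun v _ => sq_nonneg _
    calc (∑ b, ∑ v, M b v ^ 2) * ∑ b, ∑ v, N b v ^ 2 ≤ (c ^ 2 * S) * S :=
          mul_le_mul hM hN h3 (by positivity)
      _ = (c * S) ^ 2 := by ring
  exact (abs_le_of_sq_le_sq' h2 (mul_nonneg hc hS)).2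

/-- the Schur test: `(∑_b K b d M b v)^2 ≤ (∑_b K b d) (∑_b K b d (M b v)^2)` -/
theorem schur (hX : Wm X) (M : V → V → ℝ) :
    ∑ d, ∑ v, (∑ b, Kk X b d * M b v) ^ 2 ≤ 9 * ∑ b, ∑ v, M b v ^ 2 := by
  have hK : ∀ b d, 0 ≤ Kk X b d := by
    intro b d
    unfold Kk
    have h1 := hX.nn b d
    have h2 : 0 ≤ ∑ c, X b c * X c d := sum_nonneg fun c _ => mul_nonneg (hX.nn b c) (hX.nn c d)
    linarith
  have h1 : ∀ d v, (∑ b, Kk X b d * M b v) ^ 2 ≤ 3 * ∑ b, Kk X b d * M b v ^ 2 := by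
    intro d v
    have h2 : (∑ b, Kk X b d * M b v) ^ 2 ≤ (∑ b, Kk X b d) * ∑ b, Kk X b d * M b v ^ 2 := by
      apply Finset.sum_sq_le_sum_mul_sum_of_sq_eq_mul
      · exact fun b _ => hK b d
      · exact fun b _ => mul_nonneg (hK b d) (sq_nonneg _)
      · intro b _
        ring
    refine h2.trans (mul_le_mul_of_nonneg_right (Kk_col hX d) ?_)
    exact sum_nonneg fun b _ => mul_nonneg (hK b d) (sq_nonneg _)
  calc ∑ d, ∑ v, (∑ b, Kk X b d * M b v) ^ 2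
      ≤ ∑ d, ∑ v, 3 * ∑ b, Kk X b d * M b v ^ 2 :=
        sum_le_sum fun d _ => sum_le_sum fun v _ => h1 d v
    _ = 3 * ∑ b, ∑ v, (∑ d, Kk X b d) * M b v ^ 2 := by
        have e1 : ∀ d, ∑ v, 3 * ∑ b, Kk X b d * M b v ^ 2
            = 3 * ∑ b, ∑ v, Kk X b d * M b v ^ 2 := by
          intro d
          rw [← mul_sum, sum_comm]
        rw [sum_congr rfl fun d _ => e1 d, ← mul_sum, sum_comm]
        congr 1
        refine sum_congr rfl fun b _ => ?_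
        rw [sum_comm]
        exact sum_congr rfl fun v _ => (sum_mul _ _ _).symm
    _ ≤ 3 * ∑ b, ∑ v, 3 * M b v ^ 2 := by
        apply mul_le_mul_of_nonneg_left _ (by norm_num : (0 : ℝ) ≤ 3)
        exact sum_le_sum fun b _ => sum_le_sum fun v _ =>
          mul_le_mul_of_nonneg_right (Kk_row hX b) (sq_nonneg _)
    _ = 9 * ∑ b, ∑ v, M b v ^ 2 := by
        have e1 : ∀ b, ∑ v, 3 * M b v ^ 2 = 3 * ∑ v, M b v ^ 2 := fun b => (mul_sum _ _ _).symm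
        rw [sum_congr rfl fun b _ => e1 b, ← mul_sum]
        ring

/-- the Schur test for `X`: `∑_b ∑_d (∑_c X b c N c d)^2 ≤ ∑_c ∑_d (N c d)^2` -/
theorem schur1 (hX : Wm X) (N : V → V → ℝ) :
    ∑ b, ∑ d, (∑ c, X b c * N c d) ^ 2 ≤ ∑ c, ∑ d, N c d ^ 2 := by
  have h1 : ∀ b d, (∑ c, X b c * N c d) ^ 2 ≤ ∑ c, X b c * N c d ^ 2 := by
    intro b d
    have h0 : 0 ≤ ∑ c, X b c * N c d ^ 2 :=
      sum_nonneg fun c _ => mul_nonneg (hX.nn b c) (sq_nonneg _)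
    have h2 : (∑ c, X b c * N c d) ^ 2 ≤ (∑ c, X b c) * ∑ c, X b c * N c d ^ 2 := by
      apply Finset.sum_sq_le_sum_mul_sum_of_sq_eq_mul
      · exact fun c _ => hX.nn b c
      · exact fun c _ => mul_nonneg (hX.nn b c) (sq_nonneg _)
      · intro c _
        ring
    calc (∑ c, X b c * N c d) ^ 2 ≤ (∑ c, X b c) * ∑ c, X b c * N c d ^ 2 := h2
      _ ≤ 1 * ∑ c, X b c * N c d ^ 2 := mul_le_mul_of_nonneg_right (hX.row b) h0
      _ = _ := one_mul _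
  calc ∑ b, ∑ d, (∑ c, X b c * N c d) ^ 2
      ≤ ∑ b, ∑ d, ∑ c, X b c * N c d ^ 2 :=
        sum_le_sum fun b _ => sum_le_sum fun d _ => h1 b d
    _ = ∑ c, ∑ d, (∑ b, X c b) * N c d ^ 2 := by
        have e1 : ∀ b, ∑ d, ∑ c, X b c * N c d ^ 2 = ∑ c, ∑ d, X b c * N c d ^ 2 :=
          fun b => sum_comm
        rw [sum_congr rfl fun b _ => e1 b, sum_comm]
        refine sum_congr rfl fun c _ => ?_
        rw [sum_comm]
        refine sum_congr rfl fun d _ => ?_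
        rw [sum_mul]
        exact sum_congr rfl fun b _ => by rw [hX.symm b c]
    _ ≤ ∑ c, ∑ d, 1 * N c d ^ 2 := sum_le_sum fun c _ => sum_le_sum fun d _ =>
        mul_le_mul_of_nonneg_right (hX.row c) (sq_nonneg _)
    _ = ∑ c, ∑ d, N c d ^ 2 := sum_congr rfl fun c _ => sum_congr rfl fun d _ => one_mul _

/-- `(2 X + 4 X^2)^2 ≤ 12 X^2 + 24 (X^2)^2` (`(2 a + 4 b)^2 ≤ 12 a^2 + 24 b^2`), and `schur1` -/
theorem Lk_norm (hX : Wm X) : ∑ d, ∑ b, Lk X b d ^ 2 ≤ 36 * Nk X 2 := by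
  have h1 : ∀ b d, Lk X b d ^ 2 ≤ 12 * X b d ^ 2 + 24 * (∑ c, X b c * X c d) ^ 2 := by
    intro b d
    unfold Lk
    nlinarith [sq_nonneg (X b d - ∑ c, X b c * X c d)]
  have h2 := schur1 hX X
  have h3 : ∑ b, ∑ d, X b d ^ 2 = Nk X 2 := rfl
  rw [sum_comm]
  calc ∑ b, ∑ d, Lk X b d ^ 2
      ≤ ∑ b, ∑ d, (12 * X b d ^ 2 + 24 * (∑ c, X b c * X c d) ^ 2) :=
        sum_le_sum fun b _ => sum_le_sum fun d _ => h1 b d
    _ = 12 * ∑ b, ∑ d, X b d ^ 2 + 24 * ∑ b, ∑ d, (∑ c, X b c * X c d) ^ 2 := by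
        rw [mul_sum, mul_sum, ← sum_add_distrib]
        refine sum_congr rfl fun b _ => ?_
        rw [mul_sum, mul_sum, ← sum_add_distrib]
    _ ≤ 36 * Nk X 2 := by
        rw [h3] at h2 ⊢
        linarith

end M

end Pool.Agent.AVH
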