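import Pool.Agent.AVH.Tl

/-! Tools: integrals (MP_73ccd0_lc, average version). All integrals are `F t - F 0` for a primitive
`F` (`intervalIntegral.integral_eq_sub_of_hasDerivAt`, with `th_deriv`, `r_deriv`). -/

namespace Pool.Agent.AVH

open MeasureTheory Finset intervalIntegral

private theorem Ti_rd {s : ℝ} (h : 0 ≤ s) : HasDerivAt r (-(r s ^ 2)) s := r_deriv (by linarith)

private theorem Ti_td {s : ℝ} (h : 0 ≤ s) : HasDerivAt th (r s) s := th_deriv (by linarith)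

private theorem Ti_rc : ContinuousOn r (Set.Ici 0) := fun _ hs =>
  (Ti_rd (Set.mem_Ici.1 hs)).continuousAt.continuousWithinAt

private theorem Ti_tc : ContinuousOn th (Set.Ici 0) := fun _ hs =>
  (Ti_td (Set.mem_Ici.1 hs)).continuousAt.continuousWithinAt

private theorem Ti_sr {s : ℝ} (h : 0 ≤ s) : s * r s = 1 - r s := by
  unfold r
  have : (1 + s) ≠ 0 := by positivity
  field_simp
  ring

private theorem Ti_ftc {F f : ℝ → ℝ} {t : ℝ} (h : 0 ≤ t) (hF : ∀ s, 0 ≤ s → HasDerivAt F (f s) s)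
    (hf : ContinuousOn f (Set.Ici 0)) : ∫ s in (0 : ℝ)..t, f s = F t - F 0 := by
  have hsub : Set.uIcc 0 t ⊆ Set.Ici 0 := by
    rw [Set.uIcc_of_le h]
    exact fun s hs => hs.1
  exact intervalIntegral.integral_eq_sub_of_hasDerivAt (fun s hs => hF s (hsub hs))
    (hf.mono hsub).intervalIntegrable

/-- `∫ r = log (1+t)` -/
theorem int_r {t : ℝ} (h : 0 ≤ t) : ∫ s in (0 : ℝ)..t, r s = th t := by
  refine (Ti_ftc h (F := th) (fun s hs => Ti_td hs) Ti_rc).trans ?_
  rw [th_zero, sub_zero]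

/-- `∫ r^2 = 1 - r` -/
theorem int_r2 {t : ℝ} (h : 0 ≤ t) : ∫ s in (0 : ℝ)..t, r s ^ 2 = 1 - r t := by
  refine (Ti_ftc h (F := fun s => -(r s)) (fun s hs => ?_) (Ti_rc.pow 2)).trans ?_
  · have := (Ti_rd hs).neg
    rwa [neg_neg] at this
  · simp only [r_zero]; ring

/-- `∫ (1 - r) = t - log (1+t)` -/
theorem int_omr {t : ℝ} (h : 0 ≤ t) : ∫ s in (0 : ℝ)..t, (1 - r s) = t - th t := by
  refine (Ti_ftc h (F := fun s => s - th s) (fun s hs => (hasDerivAt_id' s).sub (Ti_td hs))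
    (continuousOn_const.sub Ti_rc)).trans ?_
  simp only [th_zero]; ring

/-- `∫ r^2 th = 1 - r - r th`: the derivative of `-(r th)` is `r^2 th - r^2` -/
theorem int_r2th {t : ℝ} (h : 0 ≤ t) :
    ∫ s in (0 : ℝ)..t, r s ^ 2 * th s = 1 - r t - r t * th t := by
  refine (Ti_ftc h (F := fun s => -(r s * th s) - r s) (fun s hs => ?_) ((Ti_rc.pow 2).mul Ti_tc)).trans ?_
  · refine ((((Ti_rd hs).mul (Ti_td hs)).neg).sub (Ti_rd hs)).congr_deriv ?_
    show _ = r s ^ 2 * th s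
    ring
  · simp only [th_zero, r_zero]; ring

/-- `∫ r th = th^2 / 2` -/
theorem int_rth {t : ℝ} (h : 0 ≤ t) : ∫ s in (0 : ℝ)..t, r s * th s = th t ^ 2 / 2 := by
  refine (Ti_ftc h (F := fun s => th s ^ 2 / 2) (fun s hs => ?_) (Ti_rc.mul Ti_tc)).trans ?_
  · refine (((Ti_td hs).pow 2).div_const 2).congr_deriv ?_
    norm_num
    ring
  · simp only [th_zero]; ring

/-- `∫ (1 - r - r th) = t - th - th^2/2` -/
theorem int_c2 {t : ℝ} (h : 0 ≤ t) :
    ∫ s in (0 : ℝ)..t, (1 - r s - r s * th s) = t - th t - th t ^ 2 / 2 := by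
  refine (Ti_ftc h (F := fun s => s - th s - th s ^ 2 / 2) (fun s hs => ?_)
    ((continuousOn_const.sub Ti_rc).sub (Ti_rc.mul Ti_tc))).trans ?_
  · refine (((hasDerivAt_id' s).sub (Ti_td hs)).sub (((Ti_td hs).pow 2).div_const 2)).congr_deriv ?_
    norm_num
    ring
  · simp only [th_zero]; ring

/-- `∫ u r th = (1+t) th - t - th^2/2`; here `u r = 1 - r` -/
theorem int_c3 {t : ℝ} (h : 0 ≤ t) :
    ∫ s in (0 : ℝ)..t, s * (r s * th s) = (1 + t) * th t - t - th t ^ 2 / 2 := by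
  refine (Ti_ftc h (F := fun s => (1 + s) * th s - s - th s ^ 2 / 2) (fun s hs => ?_)
    (continuousOn_id.mul (Ti_rc.mul Ti_tc))).trans ?_
  · have h1 : HasDerivAt (fun s : ℝ => 1 + s) 1 s := by
      simpa using (hasDerivAt_id' s).const_add 1
    refine (((h1.mul (Ti_td hs)).sub (hasDerivAt_id' s)).sub
      (((Ti_td hs).pow 2).div_const 2)).congr_deriv ?_
    have := Ti_sr hs
    norm_num
    linear_combination (1 - th s) * this
  · simp only [th_zero]; ring

/-- `∫ u (1 - r - r th) = t^2/2 - t + th - (1+t) th + t + th^2/2`; here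
`u (1 - r - r th) = u - (1 - r) - (1 - r) th` -/
theorem int_c4 {t : ℝ} (h : 0 ≤ t) :
    ∫ s in (0 : ℝ)..t, s * (1 - r s - r s * th s)
      = t ^ 2 / 2 - t * th t + th t ^ 2 / 2 := by
  refine (Ti_ftc h (F := fun s => s ^ 2 / 2 - s * th s + th s ^ 2 / 2) (fun s hs => ?_)
    (continuousOn_id.mul ((continuousOn_const.sub Ti_rc).sub (Ti_rc.mul Ti_tc)))).trans ?_
  · refine (((((hasDerivAt_id' s).pow 2).div_const 2).sub ((hasDerivAt_id' s).mul (Ti_td hs))).add
      (((Ti_td hs).pow 2).div_const 2)).congr_deriv ?_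
    have := Ti_sr hs
    norm_num
    linear_combination th s * this
  · simp only [th_zero]; ring

/-- `hz x s * r s = x r s + x^2 (1 - r s)` as `s r s = 1 - r s` -/
theorem hz_r (x : ℝ) {s : ℝ} (h : 0 ≤ s) : hz x s * r s = x * r s + x ^ 2 * (1 - r s) := by
  have := Ti_sr h
  unfold hz
  linear_combination x ^ 2 * this

/-- `∫ hz x * r = x log (1+t) + x^2 (t - log (1+t))` -/
theorem int_hz_r {x t : ℝ} (h : 0 ≤ t) :
    ∫ s in (0 : ℝ)..t, hz x s * r s = x * th t + x ^ 2 * (t - th t) := by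
  refine (Ti_ftc h (F := fun s => x * th s + x ^ 2 * (s - th s)) (fun s hs => ?_)
    ((hz_cont x).continuousOn.mul Ti_rc)).trans ?_
  · refine (((Ti_td hs).const_mul x).add
      (((hasDerivAt_id' s).sub (Ti_td hs)).const_mul (x ^ 2))).congr_deriv ?_
    show _ = hz x s * r s
    rw [hz_r x hs]
  · simp only [th_zero]; ring

/-- the primitive of a function which is continuous on the unit interval is continuous there -/
theorem prim_cont {f : ℝ → ℝ} (hf : ContinuousOn f (Set.Icc 0 1)) :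
    ContinuousOn (fun t => ∫ s in (0 : ℝ)..t, f s) (Set.Icc 0 1) := by
  have h1 : IntegrableOn f (Set.uIcc 0 1) volume := by
    rw [Set.uIcc_of_le zero_le_one]
    exact hf.integrableOn_Icc
  have h2 := intervalIntegral.continuousOn_primitive_interval h1
  rwa [Set.uIcc_of_le zero_le_one] at h2

/-- interval integrability on subintervals -/
theorem ii {f : ℝ → ℝ} (hf : ContinuousOn f (Set.Icc 0 1)) {t : ℝ} (ht : t ∈ Set.Icc (0 : ℝ) 1) :
    IntervalIntegrable f volume 0 t := by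
  apply ContinuousOn.intervalIntegrable
  rw [Set.uIcc_of_le ht.1]
  exact hf.mono (Set.Icc_subset_Icc_right ht.2)

/-- monotonicity of the integral -/
theorem int_mono {f g : ℝ → ℝ} (hf : ContinuousOn f (Set.Icc 0 1))
    (hg : ContinuousOn g (Set.Icc 0 1)) {t : ℝ} (ht : t ∈ Set.Icc (0 : ℝ) 1)
    (h : ∀ s ∈ Set.Icc (0 : ℝ) t, f s ≤ g s) :
    ∫ s in (0 : ℝ)..t, f s ≤ ∫ s in (0 : ℝ)..t, g s := by
  exact intervalIntegral.integral_mono_on ht.1 (ii hf ht) (ii hg ht) h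

theorem int_nonneg {f : ℝ → ℝ} {t : ℝ} (ht : t ∈ Set.Icc (0 : ℝ) 1)
    (h : ∀ s ∈ Set.Icc (0 : ℝ) t, 0 ≤ f s) : 0 ≤ ∫ s in (0 : ℝ)..t, f s := by
  exact intervalIntegral.integral_nonneg ht.1 h

/-- a continuously differentiable function bounds the primitive of a smaller function: if
`F 0 = 0`, `F' = g` on the unit interval and `f ≤ g` there then `∫ f ≤ F t` -/
theorem int_le_of_deriv {f F g : ℝ → ℝ} (hf : ContinuousOn f (Set.Icc 0 1))
    (hg : ContinuousOn g (Set.Icc 0 1)) (hF : ∀ s ∈ Set.Icc (0 : ℝ) 1, HasDerivAt F (g s) s)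
    (h0 : F 0 = 0) (h : ∀ s ∈ Set.Icc (0 : ℝ) 1, f s ≤ g s) {t : ℝ}
    (ht : t ∈ Set.Icc (0 : ℝ) 1) : ∫ s in (0 : ℝ)..t, f s ≤ F t := by
  have h1 : ∫ s in (0 : ℝ)..t, g s = F t - F 0 := by
    apply intervalIntegral.integral_eq_sub_of_hasDerivAt
    · intro s hs
      rw [Set.uIcc_of_le ht.1] at hs
      exact hF s ⟨hs.1, hs.2.trans ht.2⟩
    · exact ii hg ht
  have h2 := int_mono hf hg ht (fun s hs => h s ⟨hs.1, hs.2.trans ht.2⟩)
  rw [h1, h0, sub_zero] at h2
  exact h2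

/-- the constants of the final inequality -/
theorem c_gain1 : ∫ s in (0 : ℝ)..1, r s ^ 2 * th s = 1 / 2 - Real.log 2 / 2 := by
  rw [int_r2th zero_le_one]
  unfold r th
  norm_num
  ring

/-- `s^2 r^2 = (1 - r)^2 = 1 - 2 r + r^2` -/
theorem c_gain2 : ∫ s in (0 : ℝ)..1, r s ^ 2 * s ^ 2 = 3 / 2 - 2 * Real.log 2 := by
  refine (Ti_ftc zero_le_one (F := fun s => s - 2 * th s - r s) (fun s hs => ?_)
    ((Ti_rc.pow 2).mul (continuousOn_id.pow 2))).trans ?_
  · refine (((hasDerivAt_id' s).sub ((Ti_td hs).const_mul 2)).sub (Ti_rd hs)).congr_deriv ?_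
    have := Ti_sr hs
    show _ = r s ^ 2 * s ^ 2
    linear_combination (-(s * r s) - 1 + r s) * this
  · simp only [th_zero, r_zero]
    unfold r th
    norm_num
    ring

/-- `r^2 s = r - r^2` -/
theorem c_loss1 : ∫ s in (0 : ℝ)..1, r s ^ 2 * (s - th s) = 3 / 2 * Real.log 2 - 1 := by
  refine (Ti_ftc zero_le_one (F := fun s => th s + r s - (-(r s * th s) - r s)) (fun s hs => ?_)
    ((Ti_rc.pow 2).mul (continuousOn_id.sub Ti_tc))).trans ?_
  · refine (((Ti_td hs).add (Ti_rd hs)).sub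
      ((((Ti_rd hs).mul (Ti_td hs)).neg).sub (Ti_rd hs))).congr_deriv ?_
    have := Ti_sr hs
    show _ = r s ^ 2 * (s - th s)
    linear_combination (-(r s)) * this
  · simp only [th_zero, r_zero]
    unfold r th
    norm_num
    ring

/-- the derivative of `-(r (th^2 + 2 th + 2))` is `r^2 (th^2 + 2 th + 2) - r (2 th r + 2 r)
= r^2 th^2` -/
theorem int_r2th2 {t : ℝ} (h : 0 ≤ t) :
    ∫ s in (0 : ℝ)..t, r s ^ 2 * th s ^ 2 = 2 - r t * (th t ^ 2 + 2 * th t + 2) := by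
  refine (Ti_ftc h (F := fun s => -(r s * (th s ^ 2 + 2 * th s + 2))) (fun s hs => ?_)
    ((Ti_rc.pow 2).mul (Ti_tc.pow 2))).trans ?_
  · refine (((Ti_rd hs).mul ((((Ti_td hs).pow 2).add ((Ti_td hs).const_mul 2)).add_const
      (2 : ℝ))).neg).congr_deriv ?_
    norm_num
    ring
  · simp only [th_zero, r_zero]; ring

end Pool.Agent.AVH
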