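import Pool.Agent.AVH.Defs

/-! Tools: the functions `r`, `th`, `hz`, `lam`, primitives (MP_73ccd0_lc, average version). -/

namespace Pool.Agent.AVH

open MeasureTheory Finset intervalIntegral

/-- `r` is continuous and between `1/2` and `1` on the unit interval -/
theorem r_cont : ContinuousOn r (Set.Icc 0 1) := by
  unfold r
  refine ContinuousOn.div continuousOn_const (by fun_prop) ?_
  intro t ht
  have := ht.1
  linarith

theorem th_cont : ContinuousOn th (Set.Icc 0 1) := by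
  unfold th
  refine ContinuousOn.log (by fun_prop) ?_
  intro t ht
  have := ht.1
  linarith

theorem r_pos {t : ℝ} (h : 0 ≤ t) : 0 < r t := by
  unfold r
  positivity

theorem r_le_one {t : ℝ} (h : 0 ≤ t) : r t ≤ 1 := by
  unfold r
  rw [div_le_one (by linarith)]
  linarith

theorem th_nonneg {t : ℝ} (h : 0 ≤ t) : 0 ≤ th t := by
  unfold th
  exact Real.log_nonneg (by linarith)

/-- `log (1 + t) ≤ t` -/
theorem th_le {t : ℝ} (h : 0 ≤ t) : th t ≤ t := by
  unfold th
  have := Real.log_le_sub_one_of_pos (show (0 : ℝ) < 1 + t by linarith)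
  linarith

theorem th_zero : th 0 = 0 := by
  unfold th
  simp

theorem r_zero : r 0 = 1 := by
  unfold r
  simp

/-- `exp (- log (1+t)) = 1 / (1+t)` -/
theorem exp_neg_th {t : ℝ} (h : 0 ≤ t) : Real.exp (-th t) = r t := by
  unfold th r
  rw [Real.exp_neg, Real.exp_log (by linarith), one_div]

theorem th_deriv {t : ℝ} (h : -1 < t) : HasDerivAt th (r t) t := by
  unfold th r
  have h1 : HasDerivAt (fun t : ℝ => 1 + t) 1 t := by
    simpa using (hasDerivAt_id t).const_add 1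
  exact h1.log (by linarith)

theorem r_deriv {t : ℝ} (h : -1 < t) : HasDerivAt r (-(r t ^ 2)) t := by
  have h1 : HasDerivAt (fun t : ℝ => 1 + t) 1 t := by
    simpa using (hasDerivAt_id t).const_add 1
  have h2 := h1.inv (show (1 : ℝ) + t ≠ 0 by linarith)
  have h3 : r = (fun t : ℝ => 1 + t)⁻¹ := by
    funext s
    simp only [r, Pi.inv_apply, one_div]
  have h4 : -(r t ^ 2) = -1 / (1 + t) ^ 2 := by
    unfold r
    rw [div_pow, one_pow, neg_div]
  rw [h4, h3]
  exact h2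

theorem th_meas : Measurable th := by
  unfold th
  fun_prop

theorem r_meas : Measurable r := by
  unfold r
  fun_prop

theorem hz_cont (x : ℝ) : Continuous (hz x) := by
  unfold hz
  fun_prop

theorem hz_nonneg {x s : ℝ} (hx : 0 ≤ x) (hs : 0 ≤ s) : 0 ≤ hz x s := by
  unfold hz
  positivity

/-- `hz x s ≤ 2 x` for `x, s` in the unit interval -/
theorem hz_le {x s : ℝ} (hx : 0 ≤ x) (hx1 : x ≤ 1) (hs1 : s ≤ 1) : hz x s ≤ 2 * x := by
  unfold hz
  have h1 : x * s ≤ 1 := by
    have := mul_le_mul_of_nonneg_left hs1 hx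
    linarith
  have h2 := mul_le_mul_of_nonneg_left h1 hx
  nlinarith

private theorem Tl_log_ge {y : ℝ} (hy : 0 ≤ y) : 2 * y / (y + 2) ≤ Real.log (1 + y) :=
  Real.le_log_one_add_of_nonneg hy

/-- `lam y ≤ y^2` for `y ≥ 0`: the derivative of `y^2 - lam y = y^2/2 - y + log (1+y)` is
`y^2 / (1+y) ≥ 0` -/
theorem lam_le {y : ℝ} (hy : 0 ≤ y) : lam y ≤ y ^ 2 := by
  unfold lam
  have h1 := Tl_log_ge hy
  have h2 : y - y ^ 2 / 2 ≤ 2 * y / (y + 2) := by
    rw [le_div_iff₀ (by linarith)]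
    have : 0 ≤ y ^ 3 := by positivity
    nlinarith
  linarith

/-- `log (1+y) ≤ y` -/
theorem lam_nonneg {y : ℝ} (hy : 0 ≤ y) : 0 ≤ lam y := by
  unfold lam
  have := Real.log_le_sub_one_of_pos (show (0 : ℝ) < 1 + y by linarith)
  have h2 := sq_nonneg y
  linarith

/-- `s - th s ≥ 0` -/
theorem sth_nonneg {s : ℝ} (h : 0 ≤ s) : 0 ≤ s - th s := by
  have := th_le h
  linarith

/-- the gain is nonnegative: `lam (x s) ≤ (x s)^2 ≤ x s ≤ 2 x th s`, as
`th s = log (1+s) ≥ s/2` on the unit interval (e.g. `log (1+s) ≥ 1 - 1/(1+s) = s/(1+s) ≥ s/2`) -/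
theorem gn_nonneg {x s : ℝ} (hx : 0 ≤ x) (hx1 : x ≤ 1) (hs : 0 ≤ s) (hs1 : s ≤ 1) :
    0 ≤ gn x s := by
  unfold gn
  have h0 : 0 ≤ x * s := mul_nonneg hx hs
  have h1 := lam_le h0
  have h2 : x * s ≤ 1 := by
    have := mul_le_mul_of_nonneg_left hs1 hx
    linarith
  have h3 : (x * s) ^ 2 ≤ x * s := by nlinarith
  have h4 : s / 2 ≤ th s := by
    unfold th
    have h5 := Tl_log_ge hs
    have h6 : s / 2 ≤ 2 * s / (s + 2) := by
      rw [le_div_iff₀ (by linarith)]
      nlinarith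
    linarith
  have h7 := mul_le_mul_of_nonneg_left h4 hx
  nlinarith

/-- `1 + x s > 0` for `x ≥ 0`, `s` in the unit interval -/
theorem gn_cont (x : ℝ) (hx : 0 ≤ x) : ContinuousOn (gn x) (Set.Icc 0 1) := by
  have h1 : ContinuousOn (fun s => Real.log (1 + x * s)) (Set.Icc 0 1) := by
    refine ContinuousOn.log (by fun_prop) ?_
    intro t ht
    have := mul_nonneg hx ht.1
    linarith
  have h2 : gn x = fun s => 2 * x * th s - (x * s + (x * s) ^ 2 / 2 - Real.log (1 + x * s)) := by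
    funext s
    rfl
  rw [h2]
  refine ContinuousOn.sub (continuousOn_const.mul th_cont) ?_
  exact ContinuousOn.sub (by fun_prop) h1

/-- `1 - r t - r t th t ≥ 0`, i.e. `1 + th t ≤ 1 + t` times `r t` -/
theorem psi_c2_nonneg {t : ℝ} (h : 0 ≤ t) : 0 ≤ 1 - r t - r t * th t := by
  have h1 := th_le h
  have h2 := r_pos h
  have h3 : r t * (1 + t) = 1 := by
    unfold r
    rw [one_div, inv_mul_cancel₀ (by linarith)]
  have h4 := mul_le_mul_of_nonneg_left h1 h2.le
  nlinarith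

theorem psi_nonneg {t a : ℝ} (h : 0 ≤ t) (ha : 0 ≤ a) : 0 ≤ psi t a := by
  unfold psi
  have h1 := psi_c2_nonneg h
  have h2 := (r_pos h).le
  have h3 := th_nonneg h
  have h4 : 0 ≤ r t * th t * a := mul_nonneg (mul_nonneg h2 h3) ha
  have h5 : 0 ≤ (1 - r t - r t * th t) * a ^ 2 := mul_nonneg h1 (sq_nonneg a)
  linarith

/-- `psi t a ≤ (1 - r t) a` for `0 ≤ a ≤ 1`, as `a^2 ≤ a` -/
theorem psi_le {t a : ℝ} (h : 0 ≤ t) (ha : 0 ≤ a) (ha1 : a ≤ 1) : psi t a ≤ (1 - r t) * a := by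
  unfold psi
  have h1 := psi_c2_nonneg h
  have h2 : a ^ 2 ≤ a := by nlinarith
  have h3 := mul_le_mul_of_nonneg_left h2 h1
  nlinarith

theorem psi_cont (a : ℝ) : ContinuousOn (fun t => psi t a) (Set.Icc 0 1) := by
  unfold psi
  exact ((r_cont.mul th_cont).mul continuousOn_const).add
    (((continuousOn_const.sub r_cont).sub (r_cont.mul th_cont)).mul continuousOn_const)

end Pool.Agent.AVH
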