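import Pool.Agent.AVH.Tl

/-! The scalar inequality (MP_73ccd0_lc, average version). -/

namespace Pool.Agent.AVH

/-- **the scalar inequality** (`L = log 2`, `Real.log_two_gt_d9`, `Real.log_two_lt_d9`). The
expression is affine in `κ`: it suffices to check `κ = 1`, where it is about
`.003134 - .0342645 y + .133252 y^2`, and `κ = 5/4`, where it is about
`.000734 - .014404 y + .166565 y^2` (both discriminants are negative). -/
theorem scal {κ y : ℝ} (h1 : 1 ≤ κ) (h2 : κ ≤ 5 / 4) (hy : 0 ≤ y) :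
    0 ≤ (1 - Real.log 2) - (3 / 2 - 2 * Real.log 2) * y
      - κ * ((3 * Real.log 2 - 2) * (1 - y) + (2 - 2 * Real.log 2 - Real.log 2 ^ 2) * (1 - y ^ 2)
        + 161 / 5000) - 4 / 17 * (5 / 4 - κ) := by
  have l1 := Real.log_two_gt_d9
  have l2 := Real.log_two_lt_d9
  set L := Real.log 2 with hL
  have e1 : (0.480452 : ℝ) ≤ L ^ 2 := by nlinarith
  have e2 : L ^ 2 ≤ (0.480454 : ℝ) := by nlinarith
  have hy2 : 0 ≤ y ^ 2 := sq_nonneg y
  have a0 : (0.0031 : ℝ) ≤ 1 - 2 * L + L ^ 2 - 161 / 5000 - 1 / 17 := by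
    norm_num at l1 l2 e1 e2 ⊢
    linarith
  have a1 : (-0.03427 : ℝ) ≤ 5 * L - 7 / 2 := by
    norm_num at l1 l2 e1 e2 ⊢
    linarith
  have a2 : (0.1332 : ℝ) ≤ 2 - 2 * L - L ^ 2 := by
    norm_num at l1 l2 e1 e2 ⊢
    linarith
  have b0 : (0.00073 : ℝ) ≤ 1 - 9 / 4 * L + 5 / 4 * L ^ 2 - 161 / 4000 := by
    norm_num at l1 l2 e1 e2 ⊢
    linarith
  have b1 : (-0.01441 : ℝ) ≤ -4 + 23 / 4 * L := by
    norm_num at l1 l2 e1 e2 ⊢
    linarith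
  have b2 : (0.1665 : ℝ) ≤ 5 / 4 * (2 - 2 * L - L ^ 2) := by
    norm_num at l1 l2 e1 e2 ⊢
    linarith
  have f1 : 0 ≤ (1 - 2 * L + L ^ 2 - 161 / 5000 - 1 / 17) + (5 * L - 7 / 2) * y
      + (2 - 2 * L - L ^ 2) * y ^ 2 := by
    have h3 := mul_le_mul_of_nonneg_right a1 hy
    have h4 := mul_le_mul_of_nonneg_right a2 hy2
    nlinarith [sq_nonneg (y - 0.1286)]
  have f2 : 0 ≤ (1 - 9 / 4 * L + 5 / 4 * L ^ 2 - 161 / 4000) + (-4 + 23 / 4 * L) * y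
      + (5 / 4 * (2 - 2 * L - L ^ 2)) * y ^ 2 := by
    have h3 := mul_le_mul_of_nonneg_right b1 hy
    have h4 := mul_le_mul_of_nonneg_right b2 hy2
    nlinarith [sq_nonneg (y - 0.0433)]
  have g1 : 0 ≤ 5 - 4 * κ := by linarith
  have g2 : 0 ≤ 4 * κ - 4 := by linarith
  have k1 := mul_nonneg g1 f1
  have k2 := mul_nonneg g2 f2
  have key : (1 - L) - (3 / 2 - 2 * L) * y
      - κ * ((3 * L - 2) * (1 - y) + (2 - 2 * L - L ^ 2) * (1 - y ^ 2)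
        + 161 / 5000) - 4 / 17 * (5 / 4 - κ)
      = (5 - 4 * κ) * ((1 - 2 * L + L ^ 2 - 161 / 5000 - 1 / 17) + (5 * L - 7 / 2) * y
      + (2 - 2 * L - L ^ 2) * y ^ 2)
      + (4 * κ - 4) * ((1 - 9 / 4 * L + 5 / 4 * L ^ 2 - 161 / 4000) + (-4 + 23 / 4 * L) * y
      + (5 / 4 * (2 - 2 * L - L ^ 2)) * y ^ 2) := by
    ring
  rw [key]
  exact add_nonneg k1 k2

end Pool.Agent.AVH
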