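import Pool.Agent.AVH.Fin
import Pool.Agent.AVH.WdA

/-! The weighted inequality (MP_73ccd0_lc, average version). -/

namespace Pool.Agent.AVH

open MeasureTheory Finset

section M

variable {V : Type} [Fintype V] [DecidableEq V] {X : V → V → ℝ}

private theorem WdB_sum (hX : Wm X) {κ : ℝ} (h1 : 1 ≤ κ) (h2 : κ ≤ 5 / 4) :
    0 ≤ (1 - Real.log 2) * Nk X 2 - (3 / 2 - 2 * Real.log 2) * Nk X 3
      - κ * ((3 * Real.log 2 - 2) * (Nk X 2 - Nk X 3)
        + (2 - 2 * Real.log 2 - Real.log 2 ^ 2) * (Nk X 2 - Nk X 4) + 161 / 5000 * Nk X 2)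
      - 4 / 17 * (5 / 4 - κ) * Nk X 2 := by
  have h : (1 - Real.log 2) * Nk X 2 - (3 / 2 - 2 * Real.log 2) * Nk X 3
      - κ * ((3 * Real.log 2 - 2) * (Nk X 2 - Nk X 3)
        + (2 - 2 * Real.log 2 - Real.log 2 ^ 2) * (Nk X 2 - Nk X 4) + 161 / 5000 * Nk X 2)
      - 4 / 17 * (5 / 4 - κ) * Nk X 2
      = ∑ b, ∑ c, X b c ^ 2 * ((1 - Real.log 2) - (3 / 2 - 2 * Real.log 2) * X b c
      - κ * ((3 * Real.log 2 - 2) * (1 - X b c)
        + (2 - 2 * Real.log 2 - Real.log 2 ^ 2) * (1 - X b c ^ 2)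
        + 161 / 5000) - 4 / 17 * (5 / 4 - κ)) := by
    simp only [Nk, Finset.mul_sum, ← Finset.sum_sub_distrib, ← Finset.sum_add_distrib]
    refine Finset.sum_congr rfl fun b _ => Finset.sum_congr rfl fun c _ => ?_
    ring
  rw [h]
  exact Finset.sum_nonneg fun b _ => Finset.sum_nonneg fun c _ =>
    mul_nonneg (sq_nonneg _) (scal h1 h2 (hX.nn b c))

/-- `W (gain - loss) ≥ gain - κ loss`; `gain_sum`, `loss_sum`; the difference of the two sides is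
`∑_b ∑_c X^2 (scal at y = X b c) ≥ 0` -/
theorem weighted (hX : Wm X) (n : ℕ) {κ : ℝ} (h1 : 1 ≤ κ) (h2 : κ ≤ 5 / 4) (W : V → V → ℝ)
    (hW : ∀ b c, 1 ≤ W b c ∧ W b c ≤ κ) :
    ∑ b, ∑ c, W b c * (X b c / 2) + 4 / 17 * (5 / 4 - κ) * Nk X 2
      ≤ ∑ b, ∑ c, W b c * lowb X (BF X n b c) b c := by
  have hp : ∑ b, ∑ c, W b c * (X b c / 2) + (∑ b, ∑ c, gain X b c - κ * ∑ b, ∑ c, loss X n b c)
      ≤ ∑ b, ∑ c, W b c * lowb X (BF X n b c) b c := by
    rw [Finset.mul_sum, ← Finset.sum_sub_distrib, ← Finset.sum_add_distrib]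
    refine Finset.sum_le_sum fun b _ => ?_
    rw [Finset.mul_sum, ← Finset.sum_sub_distrib, ← Finset.sum_add_distrib]
    refine Finset.sum_le_sum fun c _ => ?_
    rw [lowb_eq hX]
    have h3 := gain_nonneg hX b c
    have h4 := loss_nonneg hX n b c
    obtain ⟨h5, h6⟩ := hW b c
    nlinarith [mul_nonneg (sub_nonneg.2 h5) h3, mul_nonneg (sub_nonneg.2 h6) h4]
  have hg := gain_sum hX
  have hl := mul_le_mul_of_nonneg_left (loss_sum hX n) (le_trans zero_le_one h1)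
  have hs := WdB_sum hX h1 h2
  linarith

end M

end Pool.Agent.AVH
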