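import Pool.Agent.AVH.Rz

/-! Symmetries (MP_73ccd0_lc, average version). -/

namespace Pool.Agent.AVH

open MeasureTheory Finset

section M

variable {V : Type} [Fintype V] [DecidableEq V] {X : V → V → ℝ}

/-- `BF X n b c = BF X n c b`, `y2` is symmetric too (`Finset.pair_comm`) -/
theorem lowb_swap (hX : Wm X) (n : ℕ) (b c : V) :
    lowb X (BF X n c b) c b = lowb X (BF X n b c) b c := by
  have hB : BF X n c b = BF X n b c := by
    funext d u
    unfold BF
    rw [add_comm (X d c) (X d b), add_comm (R2 X n d c u) (R2 X n d b u)]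
  have hy : ∀ s, y2 X (BF X n b c) c b s = y2 X (BF X n b c) b c s := by
    intro s
    unfold y2
    rw [pair_comm c b]
    congr 1
    · congr 1
      exact sum_congr rfl fun d _ => add_comm _ _
    · refine sum_congr rfl fun d _ => ?_
      congr 1
      funext u
      rw [add_comm (hz (X c d) u) (hz (X b d) u)]
  unfold lowb
  rw [hB, hX.symm c b]
  simp only [hy]

private theorem WdC_compl2 (g : Equiv.Perm V) (b c : V) (F : V → ℝ) :
    ∑ d ∈ ({g b, g c} : Finset V)ᶜ, F d = ∑ d ∈ ({b, c} : Finset V)ᶜ, F (g d) := by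
  have h : ({g b, g c} : Finset V)ᶜ = (({b, c} : Finset V)ᶜ).map g.toEmbedding := by
    ext d
    rw [mem_map_equiv]
    simp only [mem_compl, mem_insert, mem_singleton, Equiv.symm_apply_eq]
  rw [h, sum_map]
  rfl

private theorem WdC_compl1 (g : Equiv.Perm V) (b : V) (F : V → ℝ) :
    ∑ d ∈ ({g b} : Finset V)ᶜ, F d = ∑ d ∈ ({b} : Finset V)ᶜ, F (g d) := by
  have h : ({g b} : Finset V)ᶜ = (({b} : Finset V)ᶜ).map g.toEmbedding := by
    ext d
    rw [mem_map_equiv]
    simp only [mem_compl, mem_singleton, Equiv.symm_apply_eq]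
  rw [h, sum_map]
  rfl

private theorem WdC_row (g : Equiv.Perm V) (hg : ∀ u v, X (g u) (g v) = X u v) (b : V) (k : ℕ) :
    ∑ d, X (g b) d ^ k = ∑ d, X b d ^ k := by
  rw [← Equiv.sum_comp g]
  exact sum_congr rfl fun d _ => by rw [hg]

private theorem WdC_row1 (g : Equiv.Perm V) (hg : ∀ u v, X (g u) (g v) = X u v) (b : V) :
    ∑ d, X (g b) d = ∑ d, X b d := by
  rw [← Equiv.sum_comp g]
  exact sum_congr rfl fun d _ => by rw [hg]

private theorem WdC_Kk (g : Equiv.Perm V) (hg : ∀ u v, X (g u) (g v) = X u v) (b d : V) :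
    Kk X (g b) (g d) = Kk X b d := by
  unfold Kk
  rw [hg, ← Equiv.sum_comp g (fun c => X (g b) c * X c (g d))]
  simp only [hg]

private theorem WdC_R2 (g : Equiv.Perm V) (hg : ∀ u v, X (g u) (g v) = X u v) (n : ℕ) :
    ∀ (b v : V) (t : ℝ), R2 X n (g b) (g v) t = R2 X n b v t := by
  induction n with
  | zero => intro b v t; rfl
  | succ n ih =>
    intro b v t
    have h : ∀ u : ℝ, ∑ d, Kk X (g b) d * ((1 - r u) * X d (g v) + R2 X n d (g v) u) =
        ∑ d, Kk X b d * ((1 - r u) * X d v + R2 X n d v u) := by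
      intro u
      rw [← Equiv.sum_comp g]
      refine sum_congr rfl fun d _ => ?_
      rw [WdC_Kk g hg, hg, ih]
    unfold R2
    simp only [h]

private theorem WdC_Mm (g : Equiv.Perm V) (hg : ∀ u v, X (g u) (g v) = X u v) (n : ℕ) (b v : V) (t : ℝ) :
    Mm X n (g b) (g v) t = Mm X n b v t := by
  unfold Mm
  rw [hg, WdC_R2 g hg]

private theorem WdC_qq (g : Equiv.Perm V) (hg : ∀ u v, X (g u) (g v) = X u v) (b : V) :
    qq X (g b) = qq X b := by
  unfold qq
  rw [WdC_row1 g hg, WdC_row g hg]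
  congr 1
  rw [← Equiv.sum_comp g]
  refine sum_congr rfl fun c _ => ?_
  rw [hg, WdC_compl2]
  congr 1
  exact sum_congr rfl fun d _ => by rw [hg, hg]

private theorem WdC_Tt (g : Equiv.Perm V) (hg : ∀ u v, X (g u) (g v) = X u v) (M : V → V → ℝ)
    (hM : ∀ u v, M (g u) (g v) = M u v) (b : V) (u : ℝ) :
    Tt X M (g b) u = Tt X M b u := by
  unfold Tt
  rw [WdC_row1 g hg, WdC_compl1]
  congr 1
  · congr 1
    exact sum_congr rfl fun d _ => by rw [hg, hM]
  · rw [← Equiv.sum_comp g]
    refine sum_congr rfl fun c _ => ?_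
    rw [hg, WdC_compl2]
    congr 1
    exact sum_congr rfl fun d _ => by rw [hg, hg, hM, hM]

private theorem WdC_Z (g : Equiv.Perm V) (hg : ∀ u v, X (g u) (g v) = X u v) (n : ℕ) :
    ∀ (b : V) (t : ℝ), Z X n (g b) t = Z X n b t := by
  induction n with
  | zero => intro b t; rfl
  | succ n ih =>
    intro b t
    have h1 : ∀ u : ℝ, ∑ d, Kk X (g b) d * Z X n d u = ∑ d, Kk X b d * Z X n d u := by
      intro u
      rw [← Equiv.sum_comp g]
      refine sum_congr rfl fun d _ => ?_
      rw [WdC_Kk g hg, ih]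
    have h2 : ∀ u : ℝ, Tt X (fun d v => Mm X n d v u) (g b) u = Tt X (fun d v => Mm X n d v u) b u :=
      fun u => WdC_Tt g hg _ (fun d v => WdC_Mm g hg n d v u) b u
    unfold Z
    simp only [h1, h2, WdC_qq g hg]

/-- a permutation of the vertices which preserves the weights preserves everything: induction on
`n` for `R2 X n (g b) (g v) = R2 X n b v`, `Z X n (g b) = Z X n b` (reindex the sums by `g`,
`Equiv.sum_comp`; for the sums over complements of `{b, c}` use
`∑ d ∈ sᶜ, F d = ∑ d, if d ∈ s then 0 else F d` or `Finset.map`/`sum_nbij`) -/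
theorem lowb_inv (g : Equiv.Perm V) (hg : ∀ u v, X (g u) (g v) = X u v) (n : ℕ) (b c : V) :
    lowb X (BF X n (g b) (g c)) (g b) (g c) = lowb X (BF X n b c) b c := by
  have hB : ∀ d u, BF X n (g b) (g c) (g d) u = BF X n b c d u := by
    intro d u
    unfold BF
    rw [hg, hg, WdC_R2 g hg, WdC_R2 g hg, WdC_Z g hg]
  have hy : ∀ s, y2 X (BF X n (g b) (g c)) (g b) (g c) s = y2 X (BF X n b c) b c s := by
    intro s
    unfold y2
    rw [WdC_compl2, WdC_compl2]
    congr 1
    · congr 1
      exact sum_congr rfl fun d _ => by rw [hg, hg]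
    · refine sum_congr rfl fun d _ => ?_
      simp only [hg, hB]
  unfold lowb
  rw [hg]
  simp only [hy]

end M

end Pool.Agent.AVH
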