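import Pool.Agent.AVH.WdB
import Pool.Agent.AVH.WdC

/-! The weighted inequality and the symmetries (MP_73ccd0_lc, average version). -/
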